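import Mathlib

set_option autoImplicit false

/-!
Integrals over unit segments: semicontinuity, the integral of the reciprocal of the distance to a
hyperplane over a segment, and its integral over the directions of the segments.
-/

open MeasureTheory Set Filter Topology ENNReal NNReal Metric

namespace Pool.Agent.H737.KP

variable {n : ℕ}

/-- The integral over the segment `{z + s e : 0 ≤ s ≤ 1}`. -/
noncomputable def seg (G : EuclideanSpace ℝ (Fin n) → ℝ≥0∞) (z e : EuclideanSpace ℝ (Fin n)) :
    ℝ≥0∞ := ∫⁻ s in Icc (0:ℝ) 1, G (z + s • e)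

/-- The supremum of the integrals over the unit segments of direction `e`. -/
noncomputable def segMax (G : EuclideanSpace ℝ (Fin n) → ℝ≥0∞) (e : EuclideanSpace ℝ (Fin n)) :
    ℝ≥0∞ := ⨆ z : EuclideanSpace ℝ (Fin n), seg G z e

theorem lowerSemicontinuous_seg {G : EuclideanSpace ℝ (Fin n) → ℝ≥0∞}
    (hG : LowerSemicontinuous G) :
    LowerSemicontinuous (fun q : EuclideanSpace ℝ (Fin n) × EuclideanSpace ℝ (Fin n) =>
      seg G q.1 q.2) := by
  rw [lowerSemicontinuous_iff_le_liminf]
  intro q
  have hm : ∀ q : EuclideanSpace ℝ (Fin n) × EuclideanSpace ℝ (Fin n),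
      Measurable (fun s : ℝ => G (q.1 + s • q.2)) := fun q =>
    hG.measurable.comp (by fun_prop)
  calc seg G q.1 q.2 ≤ ∫⁻ s in Icc (0:ℝ) 1, liminf (fun q' : EuclideanSpace ℝ (Fin n) ×
        EuclideanSpace ℝ (Fin n) => G (q'.1 + s • q'.2)) (𝓝 q) := by
        apply lintegral_mono
        intro s
        have h1 : LowerSemicontinuous (fun q' : EuclideanSpace ℝ (Fin n) ×
            EuclideanSpace ℝ (Fin n) => G (q'.1 + s • q'.2)) :=
          hG.comp (by fun_prop)
        exact h1.le_liminf q
    _ ≤ liminf (fun q' : EuclideanSpace ℝ (Fin n) × EuclideanSpace ℝ (Fin n) =>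
        seg G q'.1 q'.2) (𝓝 q) := lintegral_liminf_le (fun q' => hm q')

theorem iSup_denseSeq {f : EuclideanSpace ℝ (Fin n) → ℝ≥0∞} (hf : LowerSemicontinuous f) :
    ⨆ z, f z = ⨆ j, f (TopologicalSpace.denseSeq (EuclideanSpace ℝ (Fin n)) j) := by
  apply le_antisymm
  · apply iSup_le
    intro z
    apply le_of_forall_lt
    intro y hy
    have h1 : IsOpen {z | y < f z} := hf.isOpen_preimage y
    obtain ⟨z', hz', j, rfl⟩ :=
      (TopologicalSpace.denseRange_denseSeq (EuclideanSpace ℝ (Fin n))).exists_mem_open h1 ⟨z, hy⟩ |>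
        fun ⟨j, hj⟩ => (⟨_, hj, j, rfl⟩ : ∃ z', z' ∈ {z | y < f z} ∧
          ∃ j, TopologicalSpace.denseSeq (EuclideanSpace ℝ (Fin n)) j = z')
    exact lt_of_lt_of_le hz' (le_iSup (fun j =>
      f (TopologicalSpace.denseSeq (EuclideanSpace ℝ (Fin n)) j)) j)
  · apply iSup_le
    intro j
    exact le_iSup f _

/-- The one-dimensional integral. -/
theorem lintegral_inv_le {δ a : ℝ} (hδ : 0 < δ) (ha : 0 < a) :
    ∫⁻ r in Icc (0:ℝ) 1, ENNReal.ofReal (1 / (δ + a * r)) =
      ENNReal.ofReal (Real.log ((δ + a) / δ) / a) := by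
  have hpos : ∀ r ∈ Icc (0:ℝ) 1, 0 < δ + a * r := by
    intro r hr
    have := mul_nonneg ha.le hr.1
    linarith
  have hcont : ContinuousOn (fun r : ℝ => 1 / (δ + a * r)) (Icc 0 1) := by
    apply ContinuousOn.div continuousOn_const (by fun_prop)
    intro r hr
    exact (hpos r hr).ne'
  have hint : IntegrableOn (fun r : ℝ => 1 / (δ + a * r)) (Icc 0 1) :=
    hcont.integrableOn_compact isCompact_Icc
  rw [← ofReal_integral_eq_lintegral_ofReal hint]
  · congr 1
    rw [integral_Icc_eq_integral_Ioc, ← intervalIntegral.integral_of_le zero_le_one]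
    have h1 := intervalIntegral.integral_comp_add_mul (a := 0) (b := 1) (fun x : ℝ => 1 / x) ha.ne' δ
    rw [h1, integral_one_div_of_pos (by linarith) (by linarith)]
    simp only [mul_one, mul_zero, add_zero, smul_eq_mul]
    ring
  · filter_upwards [ae_restrict_mem measurableSet_Icc] with r hr
    exact (div_pos one_pos (hpos r hr)).le

theorem lintegral_abs_le {δ a : ℝ} (hδ : 0 < δ) (ha : 0 < a) :
    ∫⁻ r in Icc (-1:ℝ) 1, ENNReal.ofReal (1 / (δ + a * |r|)) ≤
      ENNReal.ofReal (2 * (Real.log ((δ + a) / δ) / a)) := by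
  set h : ℝ → ℝ≥0∞ := fun r => (Icc (0:ℝ) 1).indicator
    (fun r => ENNReal.ofReal (1 / (δ + a * r))) r with hh
  have hm : Measurable h := by
    apply Measurable.indicator _ measurableSet_Icc
    apply Measurable.ennreal_ofReal
    fun_prop
  have h1 : ∫⁻ r, h r = ENNReal.ofReal (Real.log ((δ + a) / δ) / a) := by
    rw [← lintegral_inv_le hδ ha, ← lintegral_indicator measurableSet_Icc]
  have h2 : ∫⁻ r, h (-r) = ∫⁻ r, h r := lintegral_neg_eq_self h
  calc ∫⁻ r in Icc (-1:ℝ) 1, ENNReal.ofReal (1 / (δ + a * |r|))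
      = ∫⁻ r, (Icc (-1:ℝ) 1).indicator (fun r => ENNReal.ofReal (1 / (δ + a * |r|))) r := by
        rw [lintegral_indicator measurableSet_Icc]
    _ ≤ ∫⁻ r, (h r + h (-r)) := by
        apply lintegral_mono
        intro r
        dsimp only
        by_cases hr : r ∈ Icc (-1:ℝ) 1
        · rw [indicator_of_mem hr]
          rcases le_total 0 r with h0 | h0
          · refine le_trans (le_of_eq ?_) le_self_add
            rw [hh]
            dsimp only
            rw [indicator_of_mem (show r ∈ Icc (0:ℝ) 1 from ⟨h0, hr.2⟩), abs_of_nonneg h0]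
          · refine le_trans (le_of_eq ?_) le_add_self
            rw [hh]
            dsimp only
            rw [indicator_of_mem (show -r ∈ Icc (0:ℝ) 1 from ⟨by linarith, by linarith [hr.1]⟩),
              abs_of_nonpos h0]
        · rw [indicator_of_notMem hr]; exact zero_le
    _ = ENNReal.ofReal (2 * (Real.log ((δ + a) / δ) / a)) := by
        rw [lintegral_add_left hm, h2, h1, ← two_mul, ENNReal.ofReal_mul (by norm_num)]
        simp

/-- The integral of the reciprocal of the distance to a hyperplane over a unit segment. -/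
theorem line_bound {δ : ℝ} (hδ : 0 < δ) (hδ1 : δ ≤ 1) (t : ℝ) {φ : ℝ} (hφ : |φ| ≤ 1) :
    ∫⁻ s in Icc (0:ℝ) 1, ENNReal.ofReal (1 / (δ + |t + s * φ|)) ≤
      ENNReal.ofReal (4 * (1 + Real.log (1 / δ)) / (δ + |φ|)) := by
  have hlog : 0 ≤ Real.log (1 / δ) := Real.log_nonneg (by rw [le_div_iff₀ hδ]; linarith)
  have hφ0 : 0 ≤ |φ| := abs_nonneg φ
  by_cases hsm : |φ| ≤ δ
  · calc ∫⁻ s in Icc (0:ℝ) 1, ENNReal.ofReal (1 / (δ + |t + s * φ|))
        ≤ ∫⁻ s in Icc (0:ℝ) 1, ENNReal.ofReal (1 / δ) := by
          apply lintegral_mono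
          intro s
          dsimp only
          apply ENNReal.ofReal_le_ofReal
          apply one_div_le_one_div_of_le hδ
          linarith [abs_nonneg (t + s * φ)]
      _ = ENNReal.ofReal (1 / δ) := by
          rw [setLIntegral_const, Real.volume_Icc]; simp
      _ ≤ _ := by
          apply ENNReal.ofReal_le_ofReal
          rw [div_le_div_iff₀ hδ (by positivity)]
          nlinarith
  push Not at hsm
  have ha : 0 < |φ| := hδ.trans hsm
  have hφne : φ ≠ 0 := abs_pos.1 ha
  set s0 : ℝ := -t / φ with hs0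
  set s1 : ℝ := max 0 (min 1 s0) with hs1
  have hs1a : 0 ≤ s1 := le_max_left _ _
  have hs1b : s1 ≤ 1 := max_le zero_le_one (min_le_left _ _)
  have hclamp : ∀ s ∈ Icc (0:ℝ) 1, |s - s1| ≤ |s - s0| := by
    intro s hs
    rcases le_total s0 0 with h | h
    · have : s1 = 0 := by
        rw [hs1, max_eq_left]
        exact (min_le_right _ _).trans h
      rw [this, sub_zero, abs_of_nonneg hs.1]
      exact le_trans (by linarith) (le_abs_self _)
    · rcases le_total s0 1 with h' | h'
      · have : s1 = s0 := by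
          rw [hs1, min_eq_right h', max_eq_right h]
        rw [this]
      · have : s1 = 1 := by
          rw [hs1, min_eq_left h', max_eq_right zero_le_one]
        rw [this, abs_of_nonpos (by linarith [hs.2])]
        rw [abs_sub_comm]
        exact le_trans (by linarith) (le_abs_self _)
  have habs : ∀ s : ℝ, |t + s * φ| = |φ| * |s - s0| := by
    intro s
    rw [← abs_mul]
    congr 1
    rw [hs0]
    field_simp
    ring
  set H : ℝ → ℝ≥0∞ := fun r => (Icc (-1:ℝ) 1).indicator
    (fun r => ENNReal.ofReal (1 / (δ + |φ| * |r|))) r with hH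
  calc ∫⁻ s in Icc (0:ℝ) 1, ENNReal.ofReal (1 / (δ + |t + s * φ|))
      = ∫⁻ s, (Icc (0:ℝ) 1).indicator (fun s => ENNReal.ofReal (1 / (δ + |t + s * φ|))) s := by
        rw [lintegral_indicator measurableSet_Icc]
    _ ≤ ∫⁻ s, H (s - s1) := by
        apply lintegral_mono
        intro s
        dsimp only
        by_cases hs : s ∈ Icc (0:ℝ) 1
        · rw [indicator_of_mem hs, hH]
          dsimp only
          rw [indicator_of_mem (show s - s1 ∈ Icc (-1:ℝ) 1 from
            ⟨by linarith [hs.1], by linarith [hs.2]⟩)]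
          apply ENNReal.ofReal_le_ofReal
          rw [habs s]
          apply one_div_le_one_div_of_le (by positivity)
          have := hclamp s hs
          gcongr
        · rw [indicator_of_notMem hs]; exact zero_le
    _ = ∫⁻ r, H r := lintegral_sub_right_eq_self H s1
    _ = ∫⁻ r in Icc (-1:ℝ) 1, ENNReal.ofReal (1 / (δ + |φ| * |r|)) := by
        rw [hH, lintegral_indicator measurableSet_Icc]
    _ ≤ ENNReal.ofReal (2 * (Real.log ((δ + |φ|) / δ) / |φ|)) := lintegral_abs_le hδ ha
    _ ≤ _ := by
        apply ENNReal.ofReal_le_ofReal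
        have h1 : Real.log ((δ + |φ|) / δ) ≤ 1 + Real.log (1 / δ) := by
          have h2 : (δ + |φ|) / δ ≤ 2 * (1 / δ) := by
            rw [mul_one_div]
            gcongr
            linarith
          have h3 : Real.log ((δ + |φ|) / δ) ≤ Real.log (2 * (1 / δ)) :=
            Real.log_le_log (by positivity) h2
          rw [Real.log_mul (by norm_num) (by positivity)] at h3
          have h4 : Real.log 2 ≤ 1 := by
            have := Real.log_two_lt_d9
            linarith
          linarith
        have h0 : 0 ≤ Real.log ((δ + |φ|) / δ) := by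
          apply Real.log_nonneg
          rw [le_div_iff₀ hδ]
          linarith
        rw [← mul_div_assoc, div_le_div_iff₀ ha (by positivity)]
        nlinarith

end Pool.Agent.H737.KP
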