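import Pool.Agent.H737.KP.Pmax
import Pool.Agent.H737.KP.Seg

set_option autoImplicit false

/-!
The composition of the Kakeya maximal function with the maximal function of the averages over plates.
-/

open MeasureTheory Set Filter Topology ENNReal NNReal Metric

namespace Pool.Agent.H737.KP

variable {n : ℕ}

/-- A nonnegative measurable function of the direction: surface integral versus ball integral. -/
theorem sphere_le_ball (m : ℕ) {G : EuclideanSpace ℝ (Fin (m + 1)) → ℝ≥0∞} (hG : Measurable G) :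
    ∫⁻ e : sphere (0 : EuclideanSpace ℝ (Fin (m + 1))) 1, G e
      ∂(volume : Measure (EuclideanSpace ℝ (Fin (m + 1)))).toSphere
      ≤ (m + 1) * ∫⁻ x in closedBall (0 : EuclideanSpace ℝ (Fin (m + 1))) 1, G (‖x‖⁻¹ • x) := by
  set μ : Measure (EuclideanSpace ℝ (Fin (m + 1))) := volume with hμ
  set F : sphere (0 : EuclideanSpace ℝ (Fin (m + 1))) 1 × Ioi (0 : ℝ) → ℝ≥0∞ :=
    fun p => G p.1 * (Iio (⟨1, mem_Ioi.2 one_pos⟩ : Ioi (0 : ℝ))).indicator 1 p.2 with hF
  have hFm : Measurable F := by
    refine Measurable.mul (hG.comp (measurable_subtype_coe.comp measurable_fst)) ?_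
    exact (measurable_one.indicator measurableSet_Iio).comp measurable_snd
  have hdim : Module.finrank ℝ (EuclideanSpace ℝ (Fin (m + 1))) - 1 = m := by simp
  have h1 : ∫⁻ p, F p ∂(μ.toSphere.prod (Measure.volumeIoiPow m)) =
      (∫⁻ e : sphere (0 : EuclideanSpace ℝ (Fin (m + 1))) 1, G e ∂μ.toSphere) *
        ENNReal.ofReal (1 / (m + 1)) := by
    rw [lintegral_prod _ hFm.aemeasurable]
    have : ∀ x : sphere (0 : EuclideanSpace ℝ (Fin (m + 1))) 1,
        ∫⁻ y, F (x, y) ∂(Measure.volumeIoiPow m) = G x * ENNReal.ofReal (1 / (m + 1)) := by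
      intro x
      simp only [hF]
      rw [lintegral_const_mul _ (measurable_one.indicator measurableSet_Iio),
        lintegral_indicator_one measurableSet_Iio, Measure.volumeIoiPow_apply_Iio]
      simp
    simp_rw [this]
    exact lintegral_mul_const _ (hG.comp measurable_subtype_coe)
  have h2 : ∫⁻ x : ({0}ᶜ : Set (EuclideanSpace ℝ (Fin (m + 1)))),
        F (homeomorphUnitSphereProd (EuclideanSpace ℝ (Fin (m + 1))) x) ∂(μ.comap (↑)) =
        ∫⁻ p, F p ∂(μ.toSphere.prod (Measure.volumeIoiPow m)) := by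
    have := μ.measurePreserving_homeomorphUnitSphereProd.lintegral_comp_emb
      (Homeomorph.measurableEmbedding _) F
    rw [hdim] at this
    exact this
  have h3 : ∫⁻ x : ({0}ᶜ : Set (EuclideanSpace ℝ (Fin (m + 1)))),
        F (homeomorphUnitSphereProd (EuclideanSpace ℝ (Fin (m + 1))) x) ∂(μ.comap (↑)) ≤
        ∫⁻ x in closedBall (0 : EuclideanSpace ℝ (Fin (m + 1))) 1, G (‖x‖⁻¹ • x) := by
    have hpt : ∀ x : ({0}ᶜ : Set (EuclideanSpace ℝ (Fin (m + 1)))),
        F (homeomorphUnitSphereProd (EuclideanSpace ℝ (Fin (m + 1))) x) =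
        (ball (0 : EuclideanSpace ℝ (Fin (m + 1))) 1).indicator (fun x => G (‖x‖⁻¹ • x))
          (x : EuclideanSpace ℝ (Fin (m + 1))) := by
      intro x
      simp only [hF]
      by_cases hx : ‖(x : EuclideanSpace ℝ (Fin (m + 1)))‖ < 1
      · have h' : (x : EuclideanSpace ℝ (Fin (m + 1))) ∈
            ball (0 : EuclideanSpace ℝ (Fin (m + 1))) 1 := by simpa using hx
        have h'' : (homeomorphUnitSphereProd (EuclideanSpace ℝ (Fin (m + 1))) x).2 ∈
            Iio (⟨1, mem_Ioi.2 one_pos⟩ : Ioi (0 : ℝ)) := by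
          rw [mem_Iio, ← Subtype.coe_lt_coe]
          simpa using hx
        rw [indicator_of_mem h', indicator_of_mem h'']
        simp
      · have h' : (x : EuclideanSpace ℝ (Fin (m + 1))) ∉
            ball (0 : EuclideanSpace ℝ (Fin (m + 1))) 1 := by simpa using hx
        have h'' : (homeomorphUnitSphereProd (EuclideanSpace ℝ (Fin (m + 1))) x).2 ∉
            Iio (⟨1, mem_Ioi.2 one_pos⟩ : Ioi (0 : ℝ)) := by
          rw [mem_Iio, ← Subtype.coe_lt_coe]
          simpa using hx
        rw [indicator_of_notMem h', indicator_of_notMem h'', mul_zero]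
    simp_rw [hpt]
    rw [lintegral_subtype_comap
      (measurableSet_singleton (0 : EuclideanSpace ℝ (Fin (m + 1)))).compl
      (fun x => (ball (0 : EuclideanSpace ℝ (Fin (m + 1))) 1).indicator
        (fun x => G (‖x‖⁻¹ • x)) x)]
    refine (setLIntegral_le_lintegral _ _).trans ?_
    rw [lintegral_indicator measurableSet_ball]
    exact lintegral_mono_set ball_subset_closedBall
  rw [h2, h1] at h3
  have h4 : (m + 1 : ℝ≥0∞) * ((∫⁻ e : sphere (0 : EuclideanSpace ℝ (Fin (m + 1))) 1,
      G e ∂μ.toSphere) * ENNReal.ofReal (1 / (m + 1))) =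
      ∫⁻ e : sphere (0 : EuclideanSpace ℝ (Fin (m + 1))) 1, G e ∂μ.toSphere := by
    have : ENNReal.ofReal (1 / (m + 1)) = (m + 1 : ℝ≥0∞)⁻¹ := by
      rw [one_div, ENNReal.ofReal_inv_of_pos (by positivity)]
      congr 1
      rw [ENNReal.ofReal_add (by positivity) (by positivity)]
      simp
    rw [this, mul_comm, mul_assoc, ENNReal.inv_mul_cancel (by simp) (by simp), mul_one]
  rw [← h4]
  gcongr

theorem ball_bound {δ : ℝ} (hδ : 0 < δ) (hδ1 : δ ≤ 1) (ν : EuclideanSpace ℝ (Fin n))
    (hν : ‖ν‖ = 1) :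
    ∫⁻ x in closedBall (0 : EuclideanSpace ℝ (Fin n)) 1,
      ENNReal.ofReal (1 / (δ + |inner ℝ ν x|)) ≤
      volume (closedBall (0 : EuclideanSpace ℝ (Fin n)) 2) *
        ENNReal.ofReal (4 * (1 + Real.log (1 / δ))) := by
  set F : EuclideanSpace ℝ (Fin n) → ℝ≥0∞ := fun x =>
    ENNReal.ofReal (1 / (δ + |inner ℝ ν x|)) with hF
  have hFm : Measurable F := by
    apply Measurable.ennreal_ofReal
    fun_prop
  set B := closedBall (0 : EuclideanSpace ℝ (Fin n)) 1 with hB
  have hBm : MeasurableSet B := measurableSet_closedBall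
  have hBF : Measurable (B.indicator F) := hFm.indicator hBm
  have hm : Measurable (fun q : EuclideanSpace ℝ (Fin n) × ℝ => B.indicator F (q.1 + q.2 • ν)) :=
    hBF.comp (by fun_prop)
  have hlog : 0 ≤ Real.log (1 / δ) := Real.log_nonneg (by rw [le_div_iff₀ hδ]; linarith)
  have h1 : ∫⁻ x in B, F x = ∫⁻ τ in Icc (0:ℝ) 1, ∫⁻ y, B.indicator F (y + τ • ν) := by
    have h2 : ∀ τ : ℝ, ∫⁻ y, B.indicator F (y + τ • ν) = ∫⁻ x in B, F x := by
      intro τ
      rw [lintegral_add_right_eq_self (μ := (volume : Measure (EuclideanSpace ℝ (Fin n))))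
        (B.indicator F) (τ • ν), lintegral_indicator hBm]
    simp only [h2]
    rw [setLIntegral_const, Real.volume_Icc]
    simp
  set K : EuclideanSpace ℝ (Fin n) → ℝ → ℝ≥0∞ := fun y τ => B.indicator F (y + τ • ν) with hK
  have hKm : Measurable (fun q : EuclideanSpace ℝ (Fin n) × ℝ => K q.1 q.2) := hm
  have hsw : ∫⁻ τ in Icc (0:ℝ) 1, ∫⁻ y, K y τ = ∫⁻ y, ∫⁻ τ in Icc (0:ℝ) 1, K y τ :=
    (lintegral_lintegral_swap hKm.aemeasurable).symm
  rw [h1]
  refine (le_of_eq hsw).trans ?_
  calc ∫⁻ y, ∫⁻ τ in Icc (0:ℝ) 1, B.indicator F (y + τ • ν)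
      ≤ ∫⁻ y, (closedBall (0 : EuclideanSpace ℝ (Fin n)) 2).indicator
        (fun _ => ENNReal.ofReal (4 * (1 + Real.log (1 / δ)))) y := by
        apply lintegral_mono
        intro y
        dsimp only
        by_cases hy : y ∈ closedBall (0 : EuclideanSpace ℝ (Fin n)) 2
        · rw [indicator_of_mem hy]
          calc ∫⁻ τ in Icc (0:ℝ) 1, B.indicator F (y + τ • ν)
              ≤ ∫⁻ τ in Icc (0:ℝ) 1, F (y + τ • ν) :=
                lintegral_mono fun τ => indicator_le_self _ _ _
            _ = ∫⁻ τ in Icc (0:ℝ) 1, ENNReal.ofReal (1 / (δ + |inner ℝ ν y + τ * 1|)) := by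
                apply lintegral_congr
                intro τ
                rw [hF]
                dsimp only
                rw [inner_add_right, inner_smul_right, real_inner_self_eq_norm_sq, hν]
                norm_num
            _ ≤ ENNReal.ofReal (4 * (1 + Real.log (1 / δ)) / (δ + |(1:ℝ)|)) :=
                line_bound hδ hδ1 _ (by norm_num)
            _ ≤ _ := by
                apply ENNReal.ofReal_le_ofReal
                rw [abs_one]
                apply div_le_self (by positivity)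
                linarith
        · rw [indicator_of_notMem hy]
          apply le_of_eq
          have : ∀ τ ∈ Icc (0:ℝ) 1, B.indicator F (y + τ • ν) = 0 := by
            intro τ hτ
            apply indicator_of_notMem
            intro h
            apply hy
            rw [hB, mem_closedBall_zero_iff] at h
            rw [mem_closedBall_zero_iff]
            have h5 : y = (y + τ • ν) - τ • ν := by abel
            rw [h5]
            calc ‖(y + τ • ν) - τ • ν‖ ≤ ‖y + τ • ν‖ + ‖τ • ν‖ := norm_sub_le _ _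
              _ ≤ 1 + 1 := by
                gcongr
                rw [norm_smul, hν, mul_one, Real.norm_eq_abs, abs_of_nonneg hτ.1]
                exact hτ.2
              _ = 2 := by norm_num
          rw [setLIntegral_congr_fun measurableSet_Icc this]
          simp
    _ = _ := by
        rw [lintegral_indicator_const measurableSet_closedBall, mul_comm]

/-- The constant of the integral over the sphere. -/
noncomputable def cst2 (n : ℕ) : ℝ :=
  n * (4 * (volume (closedBall (0 : EuclideanSpace ℝ (Fin n)) 2)).toReal)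

theorem sphere_bound (hn : 1 ≤ n) {δ : ℝ} (hδ : 0 < δ) (hδ1 : δ ≤ 1)
    (ν : EuclideanSpace ℝ (Fin n)) (hν : ‖ν‖ = 1) :
    ∫⁻ e : sphere (0 : EuclideanSpace ℝ (Fin n)) 1,
      ENNReal.ofReal (1 / (δ + |inner ℝ ν (e : EuclideanSpace ℝ (Fin n))|))
      ∂(volume : Measure (EuclideanSpace ℝ (Fin n))).toSphere ≤
      ENNReal.ofReal (cst2 n * (1 + Real.log (1 / δ))) := by
  obtain ⟨m, rfl⟩ : ∃ m, n = m + 1 := ⟨n - 1, by omega⟩
  have hlog : 0 ≤ Real.log (1 / δ) := Real.log_nonneg (by rw [le_div_iff₀ hδ]; linarith)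
  have hm : Measurable (fun y : EuclideanSpace ℝ (Fin (m + 1)) =>
      ENNReal.ofReal (1 / (δ + |inner ℝ ν y|))) := by
    apply Measurable.ennreal_ofReal
    fun_prop
  refine (sphere_le_ball m hm).trans ?_
  calc (m + 1 : ℝ≥0∞) * ∫⁻ x in closedBall (0 : EuclideanSpace ℝ (Fin (m + 1))) 1,
        ENNReal.ofReal (1 / (δ + |inner ℝ ν (‖x‖⁻¹ • x)|))
      ≤ (m + 1 : ℝ≥0∞) * ∫⁻ x in closedBall (0 : EuclideanSpace ℝ (Fin (m + 1))) 1,
        ENNReal.ofReal (1 / (δ + |inner ℝ ν x|)) := by
        gcongr (m + 1 : ℝ≥0∞) * ?_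
        apply setLIntegral_mono' measurableSet_closedBall
        intro x hx
        apply ENNReal.ofReal_le_ofReal
        apply one_div_le_one_div_of_le (by positivity)
        refine add_le_add le_rfl ?_
        rw [inner_smul_right, abs_mul, abs_of_nonneg (by positivity : 0 ≤ ‖x‖⁻¹)]
        rcases eq_or_ne x 0 with rfl | hx0
        · simp
        · rw [mem_closedBall_zero_iff] at hx
          have h1 : 1 ≤ ‖x‖⁻¹ := (one_le_inv₀ (norm_pos_iff.2 hx0)).2 hx
          calc |inner ℝ ν x| = 1 * |inner ℝ ν x| := (one_mul _).symm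
            _ ≤ ‖x‖⁻¹ * |inner ℝ ν x| := by gcongr
    _ ≤ (m + 1 : ℝ≥0∞) * (volume (closedBall (0 : EuclideanSpace ℝ (Fin (m + 1))) 2) *
        ENNReal.ofReal (4 * (1 + Real.log (1 / δ)))) := by
        gcongr
        exact ball_bound hδ hδ1 ν hν
    _ = _ := by
        unfold cst2
        have hv : volume (closedBall (0 : EuclideanSpace ℝ (Fin (m + 1))) 2) ≠ ∞ :=
          measure_closedBall_lt_top.ne
        nth_rewrite 1 [← ENNReal.ofReal_toReal hv]
        have h5 : (m + 1 : ℝ≥0∞) = ENNReal.ofReal ((m + 1 : ℕ) : ℝ) := by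
          rw [ENNReal.ofReal_natCast]; simp
        rw [h5, ← ENNReal.ofReal_mul (by positivity), ← ENNReal.ofReal_mul (by positivity)]
        congr 1
        ring

/-- **The composition of the Kakeya maximal function with the plate maximal function**: the
quadratic estimate. -/
theorem comp_ineq {k m : ℕ} (hkm : k + m = n) (hk : 1 ≤ k) (hm : 1 ≤ m) {δ a : ℝ} (hδ : 0 < δ)
    (hδ1 : δ ≤ 1) (ha : 0 < a) (ha1 : a ≤ 1)
    (g : EuclideanSpace ℝ (Fin n) → ℝ≥0∞) (hg : Measurable g) (hg2 : ∫⁻ x, g x ^ 2 ≠ ∞) :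
    ∫⁻ e : sphere (0 : EuclideanSpace ℝ (Fin n)) 1, segMax (fun x => pmax k δ a g x ^ 2) e
      ∂(volume : Measure (EuclideanSpace ℝ (Fin n))).toSphere ≤
      ENNReal.ofReal (cst n * (δ / δ ^ m) * ((a ^ k)⁻¹) ^ 2) *
        ENNReal.ofReal (4 * cst2 n * (1 + Real.log (1 / δ)) ^ 2) * ∫⁻ x, g x ^ 2 := by
  classical
  have hn : 1 ≤ n := by omega
  have hlog : 0 ≤ Real.log (1 / δ) := Real.log_nonneg (by rw [le_div_iff₀ hδ]; linarith)
  set G : EuclideanSpace ℝ (Fin n) → ℝ≥0∞ := fun x => pmax k δ a g x ^ 2 with hG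
  have hGl : LowerSemicontinuous G := by
    have := (ENNReal.continuous_pow 2).comp_lowerSemicontinuous
      (lowerSemicontinuous_pmax (by omega : k ≤ n) hδ1 ha1 g) (fun a b h => pow_le_pow_left' h 2)
    exact this
  have hGm : Measurable G := hGl.measurable
  set Z := TopologicalSpace.denseSeq (EuclideanSpace ℝ (Fin n)) with hZ
  set σ := (volume : Measure (EuclideanSpace ℝ (Fin n))).toSphere with hσ
  set F : ℕ → sphere (0 : EuclideanSpace ℝ (Fin n)) 1 → ℝ≥0∞ := fun j e => seg G (Z j) e with hF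
  have hlsc := lowerSemicontinuous_seg hGl
  have hFm : ∀ j, Measurable (F j) := by
    intro j
    have h1 : LowerSemicontinuous (fun e : sphere (0 : EuclideanSpace ℝ (Fin n)) 1 =>
        seg G (Z j) e) :=
      hlsc.comp (g := fun e : sphere (0 : EuclideanSpace ℝ (Fin n)) 1 =>
        ((Z j, (e : EuclideanSpace ℝ (Fin n))) : EuclideanSpace ℝ (Fin n) × _)) (by fun_prop)
    exact h1.measurable
  have hmax : ∀ e : sphere (0 : EuclideanSpace ℝ (Fin n)) 1, segMax G e = ⨆ j, F j e := by
    intro e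
    have h1 : LowerSemicontinuous (fun z : EuclideanSpace ℝ (Fin n) => seg G z e) :=
      hlsc.comp (g := fun z : EuclideanSpace ℝ (Fin n) =>
        ((z, (e : EuclideanSpace ℝ (Fin n))) : EuclideanSpace ℝ (Fin n) × _)) (by fun_prop)
    exact iSup_denseSeq h1
  simp_rw [hmax]
  have h2 : ∀ e : sphere (0 : EuclideanSpace ℝ (Fin n)) 1,
      ⨆ j, F j e = ⨆ J, partialSups (fun j => F j e) J := by
    intro e
    rw [iSup_partialSups_eq]
  simp_rw [h2]
  rw [lintegral_iSup]
  rotate_left
  · intro J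
    induction J with
    | zero => simpa using hFm 0
    | succ J ih =>
      simp only [partialSups_add_one]
      exact ih.sup (hFm _)
  · intro J J' hJ e
    exact (partialSups (fun j => F j e)).monotone hJ
  apply iSup_le
  intro J
  obtain ⟨idx, hidx, -, hle⟩ := argmax F hFm J
  -- the measure carried by the chosen segments
  set X : sphere (0 : EuclideanSpace ℝ (Fin n)) 1 × ℝ → EuclideanSpace ℝ (Fin n) :=
    fun q => Z (idx q.1) + q.2 • (q.1 : EuclideanSpace ℝ (Fin n)) with hX
  have hZm : Measurable Z := measurable_from_nat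
  have hXm : Measurable X := by
    apply Measurable.add
    · exact hZm.comp (hidx.comp measurable_fst)
    · exact measurable_snd.smul (measurable_subtype_coe.comp measurable_fst)
  set ρ := σ.prod ((volume : Measure ℝ).restrict (Icc 0 1)) with hρ
  set μ := ρ.map X with hμ
  have hint : ∀ H : EuclideanSpace ℝ (Fin n) → ℝ≥0∞, Measurable H →
      ∫⁻ x, H x ∂μ = ∫⁻ e, seg H (Z (idx e)) e ∂σ := by
    intro H hH
    rw [hμ, lintegral_map hH hXm, hρ,
      lintegral_prod (fun q => H (X q)) (hH.comp hXm).aemeasurable]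
    rfl
  have hstep : ∫⁻ e, partialSups (fun j => F j e) J ∂σ ≤ ∫⁻ x, G x ∂μ := by
    rw [hint G hGm]
    apply lintegral_mono
    intro e
    apply partialSups_le
    intro j hj
    exact hle e j hj
  refine hstep.trans ?_
  refine pmax_ineq hkm hk hm hδ hδ1 ha ha1 μ _ ?_ g hg hg2
  intro c ν hν
  rw [hint _ (by apply Measurable.ennreal_ofReal; fun_prop)]
  calc ∫⁻ e, seg (fun x => ENNReal.ofReal (1 / (δ + |inner ℝ ν (x - c)|))) (Z (idx e)) e ∂σ
      ≤ ∫⁻ e : sphere (0 : EuclideanSpace ℝ (Fin n)) 1,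
        ENNReal.ofReal (4 * (1 + Real.log (1 / δ))) *
        ENNReal.ofReal (1 / (δ + |inner ℝ ν (e : EuclideanSpace ℝ (Fin n))|)) ∂σ := by
        apply lintegral_mono
        intro e
        dsimp only
        have he : ‖(e : EuclideanSpace ℝ (Fin n))‖ = 1 := by simp
        have h3 : |inner ℝ ν (e : EuclideanSpace ℝ (Fin n))| ≤ 1 := by
          have := abs_real_inner_le_norm ν (e : EuclideanSpace ℝ (Fin n))
          rwa [hν, he, one_mul] at this
        have h4 := line_bound hδ hδ1 (inner ℝ ν (Z (idx e) - c)) h3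
        have h5 : seg (fun x => ENNReal.ofReal (1 / (δ + |inner ℝ ν (x - c)|))) (Z (idx e)) e =
            ∫⁻ s in Icc (0:ℝ) 1, ENNReal.ofReal (1 / (δ + |inner ℝ ν (Z (idx e) - c) +
              s * inner ℝ ν (e : EuclideanSpace ℝ (Fin n))|)) := by
          unfold seg
          apply lintegral_congr
          intro s
          have h6 : Z (idx e) + s • (e : EuclideanSpace ℝ (Fin n)) - c =
              (Z (idx e) - c) + s • (e : EuclideanSpace ℝ (Fin n)) := by abel
          dsimp only
          rw [h6, inner_add_right, real_inner_smul_right]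
        rw [h5, ← ENNReal.ofReal_mul (by positivity), mul_one_div]
        exact h4
    _ = ENNReal.ofReal (4 * (1 + Real.log (1 / δ))) * ∫⁻ e : sphere (0 : EuclideanSpace ℝ (Fin n)) 1,
        ENNReal.ofReal (1 / (δ + |inner ℝ ν (e : EuclideanSpace ℝ (Fin n))|)) ∂σ := by
        rw [lintegral_const_mul]
        apply Measurable.ennreal_ofReal
        fun_prop
    _ ≤ ENNReal.ofReal (4 * (1 + Real.log (1 / δ))) *
        ENNReal.ofReal (cst2 n * (1 + Real.log (1 / δ))) := by
        gcongr
        exact sphere_bound hn hδ hδ1 ν hν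
    _ = _ := by
        rw [← ENNReal.ofReal_mul (by positivity)]
        congr 1
        ring

end Pool.Agent.H737.KP
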