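import Pool.Agent.H737.KP.Main

set_option autoImplicit false

/-!
The Kakeya maximal function on plate-dense functions.
-/

open MeasureTheory Set Filter Topology ENNReal NNReal Metric

namespace Pool.Agent.H737.KP

variable {n : ℕ}

/-- Almost every point of each superlevel set `{|f| > t}` lies in a `k`-plate, of thickness at
least `δ` and of radius between `a` and `1`, of which the superlevel set fills at least the
proportion `κ`. -/
def PlateDense (k : ℕ) (δ a κ : ℝ) (f : EuclideanSpace ℝ (Fin n) → ℝ) : Prop :=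
  ∀ᵐ x, ∀ t : ℝ, 0 < t → t < |f x| → ∃ (V : Submodule ℝ (EuclideanSpace ℝ (Fin n)))
    (c : EuclideanSpace ℝ (Fin n)) (ρ R : ℝ), Module.finrank ℝ V = k ∧ δ ≤ ρ ∧ ρ ≤ R ∧
    a ≤ R ∧ R ≤ 1 ∧ x ∈ disc ρ R V c ∧
    ENNReal.ofReal κ * volume (disc ρ R V c) ≤ volume (disc ρ R V c ∩ {y | t < |f y|})

theorem enorm_eq (x : ℝ) : ‖x‖ₑ = ENNReal.ofReal |x| := by
  rw [← Real.norm_eq_abs, ofReal_norm]

theorem dense_bound {k m : ℕ} (hkm : k + m = n) (hk : 1 ≤ k) (hm : 1 ≤ m) {δ a κ : ℝ} (hδ : 0 < δ)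
    {q : ℝ} (hq : 0 < q) {f : EuclideanSpace ℝ (Fin n) → ℝ}
    (hf : AEMeasurable f) (hd : PlateDense k δ a κ f) :
    ∀ᵐ x, ENNReal.ofReal κ * ‖f x‖ₑ ^ q ≤ pmax k δ a (fun y => ‖f y‖ₑ ^ q) x := by
  filter_upwards [hd] with x hx
  rcases eq_or_ne (f x) 0 with h0 | h0
  · rw [h0]
    simp [hq]
  have hpos : 0 < |f x| := abs_pos.2 h0
  have key : ∀ t ∈ Ioo 0 |f x|, ENNReal.ofReal κ * ENNReal.ofReal t ^ q ≤
      pmax k δ a (fun y => ‖f y‖ₑ ^ q) x := by
    intro t ht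
    obtain ⟨V, c, ρ, R, hV, hρ, hρR, haR, hR1, hxP, hκ⟩ := hx t ht.1 ht.2
    set P := disc ρ R V c with hP
    have hPm : MeasurableSet P := (isOpen_disc ρ R V c).measurableSet
    have hP0 : volume P ≠ 0 := volume_disc_ne_zero hkm hk hm (hδ.trans_le hρ) hρR V hV c
    have hPt : volume P ≠ ∞ := (volume_disc_lt_top ρ R V c).ne
    refine le_trans ?_ (le_pmax V hV hρ hρR haR hR1 hxP)
    have h1 := mul_meas_ge_le_lintegral₀ (μ := volume.restrict P)
      ((hf.enorm.pow_const q).restrict) (ENNReal.ofReal t ^ q)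
    have h2 : volume (P ∩ {y | t < |f y|}) ≤
        volume.restrict P {y | ENNReal.ofReal t ^ q ≤ ‖f y‖ₑ ^ q} := by
      rw [Measure.restrict_apply' hPm, inter_comm]
      apply measure_mono
      rintro y ⟨hy, hyP⟩
      refine ⟨?_, hyP⟩
      rw [mem_ofPred_eq] at hy ⊢
      rw [enorm_eq]
      gcongr
    calc ENNReal.ofReal κ * ENNReal.ofReal t ^ q
        = (volume P)⁻¹ * (ENNReal.ofReal t ^ q * (ENNReal.ofReal κ * volume P)) := by
          rw [mul_comm (ENNReal.ofReal κ) (volume P), mul_left_comm (ENNReal.ofReal t ^ q),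
            ← mul_assoc (volume P)⁻¹, ENNReal.inv_mul_cancel hP0 hPt, one_mul, mul_comm]
      _ ≤ (volume P)⁻¹ * (ENNReal.ofReal t ^ q *
          volume.restrict P {y | ENNReal.ofReal t ^ q ≤ ‖f y‖ₑ ^ q}) := by
          gcongr
          exact hκ.trans h2
      _ ≤ (volume P)⁻¹ * ∫⁻ y in P, ‖f y‖ₑ ^ q := by
          gcongr
  have hcl : IsClosed {t : ℝ | ENNReal.ofReal κ * ENNReal.ofReal t ^ q ≤
      pmax k δ a (fun y => ‖f y‖ₑ ^ q) x} := by
    apply isClosed_le _ continuous_const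
    apply ENNReal.continuous_const_mul ENNReal.ofReal_ne_top |>.comp
    exact (ENNReal.continuous_rpow_const).comp ENNReal.continuous_ofReal
  have h3 := hcl.closure_subset_iff.2 key
  rw [closure_Ioo hpos.ne] at h3
  have h4 := h3 (right_mem_Icc.2 hpos.le)
  rw [mem_ofPred_eq] at h4
  rw [enorm_eq]
  exact h4

theorem kakeya_rpow_le {r : ℝ} (hr : 0 < r) {p : ℝ} (hp : 1 ≤ p)
    {f : EuclideanSpace ℝ (Fin n) → ℝ} (hf : AEMeasurable f) {e : EuclideanSpace ℝ (Fin n)}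
    (he : ‖e‖ = 1) :
    kakeyaMax r f e ^ p ≤ ⨆ a, (volume (tube r e a))⁻¹ * ∫⁻ y in tube r e a, ‖f y‖ₑ ^ p := by
  have hp0 : 0 < p := by linarith
  rw [← ENNReal.rpow_le_rpow_iff (z := p⁻¹) (by positivity), ← ENNReal.rpow_mul,
    mul_inv_cancel₀ hp0.ne', ENNReal.rpow_one]
  apply iSup_le
  intro a
  rw [← ENNReal.rpow_le_rpow_iff (z := p) (by positivity), ← ENNReal.rpow_mul,
    inv_mul_cancel₀ hp0.ne', ENNReal.rpow_one]
  refine le_trans (avg_rpow_le (volume_tube_ne_zero hr he) (volume_tube_lt_top he).ne hp hf.enorm) ?_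
  exact le_iSup (fun a => (volume (tube r e a))⁻¹ * ∫⁻ y in tube r e a, ‖f y‖ₑ ^ p) a

/-- The Kakeya maximal function on plate-dense functions. -/
theorem dense_est {k m : ℕ} (hkm : k + m = n) (hk : 1 ≤ k) (hm : 1 ≤ m) {δ a κ : ℝ} (hδ : 0 < δ)
    (hδ1 : δ ≤ 1) (ha : 0 < a) (ha1 : a ≤ 1) (hκ : 0 < κ) {r : ℝ} (hr : 0 < r) {p : ℝ} (hp : 1 ≤ p)
    {f : EuclideanSpace ℝ (Fin n) → ℝ} (hf : AEMeasurable f) (hd : PlateDense k δ a κ f) :
    ∫⁻ e : sphere (0 : EuclideanSpace ℝ (Fin n)) 1,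
      kakeyaMax r f (e : EuclideanSpace ℝ (Fin n)) ^ p ∂(surf n) ≤
      ENNReal.ofReal (2 * cst3 n * loss n k δ a / κ ^ 2) * ∫⁻ x, ‖f x‖ₑ ^ p := by
  have hn : 1 ≤ n := by omega
  have hp0 : 0 < p := by linarith
  have hc3 := cst3_pos hn
  have hl := loss_pos n k hδ hδ1 ha
  set g : EuclideanSpace ℝ (Fin n) → ℝ≥0∞ := fun x => ‖f x‖ₑ ^ (p / 2) with hg
  have hgm : AEMeasurable g := hf.enorm.pow_const _
  have hb := dense_bound (q := p / 2) hkm hk hm hδ (by positivity) hf hd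
  set G : EuclideanSpace ℝ (Fin n) → ℝ≥0∞ := fun x => pmax k δ a g x ^ (2:ℝ) with hG
  have hGl : LowerSemicontinuous G := by
    have := (ENNReal.continuous_rpow_const (y := (2:ℝ))).comp_lowerSemicontinuous
      (lowerSemicontinuous_pmax (by omega : k ≤ n) hδ1 ha1 g)
      (fun a b h => ENNReal.rpow_le_rpow h (by norm_num))
    exact this
  have hGm : Measurable G := hGl.measurable
  have h1 : ∀ᵐ x, ‖f x‖ₑ ^ p ≤ ENNReal.ofReal (κ⁻¹ ^ 2) * G x := by
    filter_upwards [hb] with x hx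
    have h2 : ‖f x‖ₑ ^ (p / 2) ≤ ENNReal.ofReal κ⁻¹ * pmax k δ a g x := by
      have hk0 : ENNReal.ofReal κ⁻¹ * ENNReal.ofReal κ = 1 := by
        rw [← ENNReal.ofReal_mul (by positivity), inv_mul_cancel₀ hκ.ne', ENNReal.ofReal_one]
      calc ‖f x‖ₑ ^ (p / 2) = ENNReal.ofReal κ⁻¹ * (ENNReal.ofReal κ * ‖f x‖ₑ ^ (p / 2)) := by
            rw [← mul_assoc, hk0, one_mul]
        _ ≤ ENNReal.ofReal κ⁻¹ * pmax k δ a g x := by gcongr
    calc ‖f x‖ₑ ^ p = (‖f x‖ₑ ^ (p / 2)) ^ (2:ℝ) := by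
          rw [← ENNReal.rpow_mul]
          congr 1
          ring
      _ ≤ (ENNReal.ofReal κ⁻¹ * pmax k δ a g x) ^ (2:ℝ) := by gcongr
      _ = _ := by
          rw [ENNReal.mul_rpow_of_nonneg _ _ (by norm_num), hG, ENNReal.rpow_two,
            ← ENNReal.ofReal_pow (by positivity)]
  have h2 : ∀ e : sphere (0 : EuclideanSpace ℝ (Fin n)) 1,
      kakeyaMax r f (e : EuclideanSpace ℝ (Fin n)) ^ p ≤
      ENNReal.ofReal (2 * κ⁻¹ ^ 2) * segMax G e := by
    intro e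
    have he : ‖(e : EuclideanSpace ℝ (Fin n))‖ = 1 := by simp
    refine (kakeya_rpow_le hr hp hf he).trans ?_
    apply iSup_le
    intro a
    have hT0 := volume_tube_ne_zero (a := a) hr he
    have hTt := (volume_tube_lt_top (r := r) (a := a) he).ne
    calc (volume (tube r (e : EuclideanSpace ℝ (Fin n)) a))⁻¹ *
          ∫⁻ y in tube r (e : EuclideanSpace ℝ (Fin n)) a, ‖f y‖ₑ ^ p
        ≤ (volume (tube r (e : EuclideanSpace ℝ (Fin n)) a))⁻¹ *
          ∫⁻ y in tube r (e : EuclideanSpace ℝ (Fin n)) a, ENNReal.ofReal (κ⁻¹ ^ 2) * G y := by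
          refine mul_le_mul_right ?_ _
          exact lintegral_mono_ae (ae_restrict_of_ae h1)
      _ = (volume (tube r (e : EuclideanSpace ℝ (Fin n)) a))⁻¹ * (ENNReal.ofReal (κ⁻¹ ^ 2) *
          ∫⁻ y in tube r (e : EuclideanSpace ℝ (Fin n)) a, G y) := by
          rw [lintegral_const_mul _ hGm]
      _ ≤ (volume (tube r (e : EuclideanSpace ℝ (Fin n)) a))⁻¹ * (ENNReal.ofReal (κ⁻¹ ^ 2) *
          (2 * volume (tube r (e : EuclideanSpace ℝ (Fin n)) a) * segMax G e)) := by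
          gcongr
          exact lintegral_tube_le he hGm
      _ = ((volume (tube r (e : EuclideanSpace ℝ (Fin n)) a))⁻¹ *
          volume (tube r (e : EuclideanSpace ℝ (Fin n)) a)) *
          (2 * ENNReal.ofReal (κ⁻¹ ^ 2) * segMax G e) := by ring
      _ = ENNReal.ofReal (2 * κ⁻¹ ^ 2) * segMax G e := by
          rw [ENNReal.inv_mul_cancel hT0 hTt, one_mul, ENNReal.ofReal_mul (by norm_num)]
          simp
  calc ∫⁻ e : sphere (0 : EuclideanSpace ℝ (Fin n)) 1,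
        kakeyaMax r f (e : EuclideanSpace ℝ (Fin n)) ^ p ∂(surf n)
      ≤ ∫⁻ e : sphere (0 : EuclideanSpace ℝ (Fin n)) 1, ENNReal.ofReal (2 * κ⁻¹ ^ 2) *
        segMax G e ∂(surf n) := lintegral_mono h2
    _ = ENNReal.ofReal (2 * κ⁻¹ ^ 2) * ∫⁻ e : sphere (0 : EuclideanSpace ℝ (Fin n)) 1,
        segMax G e ∂(surf n) := by
        rw [lintegral_const_mul' _ _ ENNReal.ofReal_ne_top]
    _ ≤ ENNReal.ofReal (2 * κ⁻¹ ^ 2) * (ENNReal.ofReal (cst3 n * loss n k δ a) *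
        ∫⁻ x, g x ^ (2:ℝ)) := by
        gcongr
        exact comp_p hkm hk hm hδ hδ1 ha ha1 le_rfl g hgm
    _ = _ := by
        have h3 : ∫⁻ x, g x ^ (2:ℝ) = ∫⁻ x, ‖f x‖ₑ ^ p := by
          apply lintegral_congr
          intro x
          rw [hg]
          dsimp only
          rw [← ENNReal.rpow_mul]
          congr 1
          ring
        rw [h3, ← mul_assoc, ← ENNReal.ofReal_mul (by positivity)]
        congr 2
        field_simp

end Pool.Agent.H737.KP
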