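import Pool.Agent.H737.KP.Sets

set_option autoImplicit false

/-!
The Kakeya maximal function conjecture is equivalent to its restriction to plate-sparse sets.
-/

open MeasureTheory Set Filter Topology ENNReal NNReal Metric

namespace Pool.Agent.H737.KP

variable {n : ℕ}

/-- A set meets every `k`-plate of thickness at least `δ` and radius between `a` and `1` in at most
the proportion `κ`. -/
def PlateSparse (k : ℕ) (δ a κ : ℝ) (A : Set (EuclideanSpace ℝ (Fin n))) : Prop :=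
  ∀ (V : Submodule ℝ (EuclideanSpace ℝ (Fin n))) (c : EuclideanSpace ℝ (Fin n)) (ρ R : ℝ),
    Module.finrank ℝ V = k → δ ≤ ρ → ρ ≤ R → a ≤ R → R ≤ 1 →
    volume (disc ρ R V c ∩ A) ≤ ENNReal.ofReal κ * volume (disc ρ R V c)

/-- The union of the plates which are filled by `A` in more than the proportion `κ`. -/
def hull (k : ℕ) (δ a κ : ℝ) (A : Set (EuclideanSpace ℝ (Fin n))) :
    Set (EuclideanSpace ℝ (Fin n)) :=
  {x | ∃ (V : Submodule ℝ (EuclideanSpace ℝ (Fin n))) (c : EuclideanSpace ℝ (Fin n)) (ρ R : ℝ),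
    (Module.finrank ℝ V = k ∧ δ ≤ ρ ∧ ρ ≤ R ∧ a ≤ R ∧ R ≤ 1 ∧
    ENNReal.ofReal κ * volume (disc ρ R V c) < volume (disc ρ R V c ∩ A)) ∧ x ∈ disc ρ R V c}

theorem isOpen_hull (k : ℕ) (δ a κ : ℝ) (A : Set (EuclideanSpace ℝ (Fin n))) :
    IsOpen (hull k δ a κ A) := by
  have h : hull k δ a κ A = ⋃ (V : Submodule ℝ (EuclideanSpace ℝ (Fin n)))
      (c : EuclideanSpace ℝ (Fin n)) (ρ : ℝ) (R : ℝ)
      (_ : Module.finrank ℝ V = k ∧ δ ≤ ρ ∧ ρ ≤ R ∧ a ≤ R ∧ R ≤ 1 ∧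
        ENNReal.ofReal κ * volume (disc ρ R V c) < volume (disc ρ R V c ∩ A)), disc ρ R V c := by
    ext x
    simp only [hull, mem_ofPred_eq, mem_iUnion, exists_prop]
  rw [h]
  exact isOpen_iUnion fun V => isOpen_iUnion fun c => isOpen_iUnion fun ρ => isOpen_iUnion fun R =>
    isOpen_iUnion fun _ => isOpen_disc ρ R V c

theorem sparse_diff_hull (k : ℕ) (δ a κ : ℝ) (A : Set (EuclideanSpace ℝ (Fin n))) :
    PlateSparse k δ a κ (A \ hull k δ a κ A) := by
  intro V c ρ R hV h1 h2 h3 h4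
  by_cases h : ENNReal.ofReal κ * volume (disc ρ R V c) < volume (disc ρ R V c ∩ A)
  · have : disc ρ R V c ∩ (A \ hull k δ a κ A) = ∅ := by
      rw [eq_empty_iff_forall_notMem]
      rintro x ⟨hx1, hx2, hx3⟩
      exact hx3 ⟨V, c, ρ, R, ⟨hV, h1, h2, h3, h4, h⟩, hx1⟩
    rw [this, measure_empty]
    exact zero_le
  · exact (measure_mono (inter_subset_inter_right _ sdiff_subset)).trans (not_lt.1 h)

theorem dense_inter_hull (k : ℕ) (δ a κ : ℝ) (A : Set (EuclideanSpace ℝ (Fin n))) :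
    PlateDense k δ a κ ((A ∩ hull k δ a κ A).indicator 1) := by
  apply Filter.Eventually.of_forall
  intro x t ht htx
  have hx : x ∈ A ∩ hull k δ a κ A := by
    by_contra h
    rw [indicator_of_notMem h, abs_zero] at htx
    linarith
  rw [indicator_of_mem hx] at htx
  simp only [Pi.one_apply, abs_one] at htx
  obtain ⟨V, c, ρ, R, ⟨hV, h1, h2, h3, h4, h⟩, hxP⟩ := hx.2
  refine ⟨V, c, ρ, R, hV, h1, h2, h3, h4, hxP, ?_⟩
  refine h.le.trans (measure_mono ?_)
  rintro y ⟨hyP, hyA⟩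
  refine ⟨hyP, ?_⟩
  have hy : y ∈ A ∩ hull k δ a κ A := ⟨hyA, V, c, ρ, R, ⟨hV, h1, h2, h3, h4, h⟩, hyP⟩
  rw [mem_ofPred_eq, indicator_of_mem hy]
  simpa using htx

theorem kakeya_add_le {r : ℝ} {A B : Set (EuclideanSpace ℝ (Fin n))} (hA : MeasurableSet A)
    (hB : MeasurableSet B) (hAB : Disjoint A B) (e : EuclideanSpace ℝ (Fin n)) :
    kakeyaMax r ((A ∪ B).indicator 1) e ≤
      kakeyaMax r (A.indicator 1) e + kakeyaMax r (B.indicator 1) e := by
  apply iSup_le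
  intro a
  have h1 : ∀ y, ‖(A ∪ B).indicator (1 : EuclideanSpace ℝ (Fin n) → ℝ) y‖ₑ =
      ‖A.indicator (1 : EuclideanSpace ℝ (Fin n) → ℝ) y‖ₑ +
      ‖B.indicator (1 : EuclideanSpace ℝ (Fin n) → ℝ) y‖ₑ := by
    intro y
    by_cases hyA : y ∈ A
    · have hyB : y ∉ B := fun h => disjoint_left.1 hAB hyA h
      rw [indicator_of_mem (mem_union_left _ hyA), indicator_of_mem hyA, indicator_of_notMem hyB]
      simp
    · by_cases hyB : y ∈ B
      · rw [indicator_of_mem (mem_union_right _ hyB), indicator_of_notMem hyA,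
          indicator_of_mem hyB]
        simp
      · rw [indicator_of_notMem (fun h => h.elim hyA hyB), indicator_of_notMem hyA,
          indicator_of_notMem hyB]
        simp
  simp_rw [h1]
  rw [lintegral_add_left (measurable_one.indicator hA).enorm, mul_add]
  exact add_le_add (le_iSup (fun a => (volume (tube r e a))⁻¹ *
    ∫⁻ y in tube r e a, ‖A.indicator (1 : EuclideanSpace ℝ (Fin n) → ℝ) y‖ₑ) a)
    (le_iSup (fun a => (volume (tube r e a))⁻¹ *
    ∫⁻ y in tube r e a, ‖B.indicator (1 : EuclideanSpace ℝ (Fin n) → ℝ) y‖ₑ) a)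

theorem lintegral_indicator_one_rpow {A : Set (EuclideanSpace ℝ (Fin n))} (hA : MeasurableSet A)
    {p : ℝ} (hp : 0 < p) :
    ∫⁻ x, ‖A.indicator (1 : EuclideanSpace ℝ (Fin n) → ℝ) x‖ₑ ^ p = volume A := by
  have h1 : ∀ x, ‖A.indicator (1 : EuclideanSpace ℝ (Fin n) → ℝ) x‖ₑ ^ p =
      A.indicator (1 : EuclideanSpace ℝ (Fin n) → ℝ≥0∞) x := by
    intro x
    by_cases hx : x ∈ A
    · rw [indicator_of_mem hx, indicator_of_mem hx]; simp
    · rw [indicator_of_notMem hx, indicator_of_notMem hx]; simp [hp]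
  simp_rw [h1]
  rw [lintegral_indicator_one hA]

/-- The estimate for a set from the estimate for its sparse part. -/
theorem set_bound {m : ℕ} (hm : n = m + 1) (hm1 : 1 ≤ m) {δ a κ : ℝ} (hδ : 0 < δ) (hδ1 : δ < 1)
    (ha : 0 < a) (ha1 : a ≤ 1) (hκ : 0 < κ) {B : ℝ} (hB : 0 ≤ B)
    (h : ∀ A : Set (EuclideanSpace ℝ (Fin n)), MeasurableSet A → PlateSparse m δ a κ A →
      ∫⁻ e : sphere (0 : EuclideanSpace ℝ (Fin n)) 1,
        kakeyaMax δ (A.indicator 1) (e : EuclideanSpace ℝ (Fin n)) ^ n ∂(surf n) ≤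
        ENNReal.ofReal B * volume A)
    (A : Set (EuclideanSpace ℝ (Fin n))) (hA : MeasurableSet A) :
    ∫⁻ e : sphere (0 : EuclideanSpace ℝ (Fin n)) 1,
        kakeyaMax δ (A.indicator 1) (e : EuclideanSpace ℝ (Fin n)) ^ n ∂(surf n) ≤
        ENNReal.ofReal (2 ^ n * (2 * cst3 n * loss n m δ a / κ ^ 2 + B)) * volume A := by
  have hn1 : 1 ≤ n := by omega
  have hc3 := cst3_pos hn1
  have hl := loss_pos n m hδ hδ1.le ha
  set U := hull m δ a κ A with hU
  have hUm : MeasurableSet U := (isOpen_hull m δ a κ A).measurableSet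
  set Ap := A ∩ U with hAp
  set As := A \ U with hAs
  have hApm : MeasurableSet Ap := hA.inter hUm
  have hAsm : MeasurableSet As := hA.diff hUm
  have hun : Ap ∪ As = A := inter_union_sdiff A U
  have hdis : Disjoint Ap As := disjoint_sdiff_inter.symm
  have h1 : ∫⁻ e : sphere (0 : EuclideanSpace ℝ (Fin n)) 1,
      kakeyaMax δ (As.indicator 1) (e : EuclideanSpace ℝ (Fin n)) ^ n ∂(surf n) ≤
      ENNReal.ofReal B * volume A :=
    (h As hAsm (sparse_diff_hull m δ a κ A)).trans (by gcongr; exact sdiff_subset)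
  have h2 : ∫⁻ e : sphere (0 : EuclideanSpace ℝ (Fin n)) 1,
      kakeyaMax δ (Ap.indicator 1) (e : EuclideanSpace ℝ (Fin n)) ^ n ∂(surf n) ≤
      ENNReal.ofReal (2 * cst3 n * loss n m δ a / κ ^ 2) * volume A := by
    have h3 := dense_est (k := m) (m := 1) (by omega) hm1 le_rfl hδ hδ1.le ha ha1 hκ hδ
      (p := (n:ℝ)) (by exact_mod_cast hn1) (f := Ap.indicator 1)
      (measurable_one.indicator hApm).aemeasurable (dense_inter_hull m δ a κ A)
    rw [lintegral_indicator_one_rpow hApm (by exact_mod_cast hn1)] at h3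
    simp only [ENNReal.rpow_natCast] at h3
    refine h3.trans ?_
    gcongr
    exact inter_subset_left
  have hKm : ∀ D : Set (EuclideanSpace ℝ (Fin n)), MeasurableSet D →
      Measurable (fun e : sphere (0 : EuclideanSpace ℝ (Fin n)) 1 =>
      kakeyaMax δ (D.indicator 1) (e : EuclideanSpace ℝ (Fin n))) := by
    intro D hD
    exact (measurable_kakeya hδ (measurable_one.indicator hD).aemeasurable).comp
      measurable_subtype_coe
  calc ∫⁻ e : sphere (0 : EuclideanSpace ℝ (Fin n)) 1,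
        kakeyaMax δ (A.indicator 1) (e : EuclideanSpace ℝ (Fin n)) ^ n ∂(surf n)
      ≤ ∫⁻ e : sphere (0 : EuclideanSpace ℝ (Fin n)) 1, 2 ^ n *
        (kakeyaMax δ (Ap.indicator 1) (e : EuclideanSpace ℝ (Fin n)) ^ n +
          kakeyaMax δ (As.indicator 1) (e : EuclideanSpace ℝ (Fin n)) ^ n) ∂(surf n) := by
        apply lintegral_mono
        intro e
        dsimp only
        have h4 := kakeya_add_le (r := δ) hApm hAsm hdis (e : EuclideanSpace ℝ (Fin n))
        rw [hun] at h4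
        have h5 := sum_pow_le 1 (kakeyaMax δ (Ap.indicator 1) (e : EuclideanSpace ℝ (Fin n)))
          (fun _ => kakeyaMax δ (As.indicator 1) (e : EuclideanSpace ℝ (Fin n))) n
        simp only [Finset.sum_range_one, Nat.cast_one] at h5
        calc kakeyaMax δ (A.indicator 1) (e : EuclideanSpace ℝ (Fin n)) ^ n
            ≤ (kakeyaMax δ (Ap.indicator 1) (e : EuclideanSpace ℝ (Fin n)) +
              kakeyaMax δ (As.indicator 1) (e : EuclideanSpace ℝ (Fin n))) ^ n := by gcongr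
          _ ≤ _ := by
              refine h5.trans (le_of_eq ?_)
              norm_num
    _ = 2 ^ n * (∫⁻ e : sphere (0 : EuclideanSpace ℝ (Fin n)) 1,
        kakeyaMax δ (Ap.indicator 1) (e : EuclideanSpace ℝ (Fin n)) ^ n ∂(surf n) +
        ∫⁻ e : sphere (0 : EuclideanSpace ℝ (Fin n)) 1,
          kakeyaMax δ (As.indicator 1) (e : EuclideanSpace ℝ (Fin n)) ^ n ∂(surf n)) := by
        have hmA := (hKm Ap hApm).pow_const n
        have hmB := (hKm As hAsm).pow_const n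
        have hmS : Measurable (fun e : sphere (0 : EuclideanSpace ℝ (Fin n)) 1 =>
            kakeyaMax δ (Ap.indicator 1) (e : EuclideanSpace ℝ (Fin n)) ^ n +
            kakeyaMax δ (As.indicator 1) (e : EuclideanSpace ℝ (Fin n)) ^ n) := hmA.add hmB
        rw [lintegral_const_mul _ hmS, lintegral_add_left hmA]
    _ ≤ 2 ^ n * (ENNReal.ofReal (2 * cst3 n * loss n m δ a / κ ^ 2) * volume A +
        ENNReal.ofReal B * volume A) := by gcongr
    _ = _ := by
        rw [← add_mul, ← ENNReal.ofReal_add (by positivity) hB, ← mul_assoc]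
        congr 1
        rw [ENNReal.ofReal_mul (by positivity), ENNReal.ofReal_pow (by norm_num)]
        norm_num

/-- The statement of the Kakeya maximal function conjecture in dimension `n`. -/
def KMC (n : ℕ) : Prop :=
  ∀ ε : ℝ, 0 < ε → ∃ C : ℝ, 0 < C ∧ ∀ δ : ℝ, 0 < δ → δ < 1 →
    ∀ f : EuclideanSpace ℝ (Fin n) → ℝ, AEMeasurable f volume →
      (∫⁻ e, kakeyaMax δ f (e : EuclideanSpace ℝ (Fin n)) ^ (n : ℝ) ∂(surf n)) ^ (1 / (n : ℝ)) ≤
        ENNReal.ofReal (C * δ ^ (-ε)) * (∫⁻ y, ‖f y‖ₑ ^ (n : ℝ)) ^ (1 / (n : ℝ))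

/-- Its restriction to plate-sparse sets. -/
def SparseKMC (n : ℕ) : Prop :=
  ∀ ε η : ℝ, 0 < ε → 0 < η → ∃ C : ℝ, 0 < C ∧ ∀ δ : ℝ, 0 < δ → δ < 1 →
    ∀ A : Set (EuclideanSpace ℝ (Fin n)), MeasurableSet A →
      PlateSparse (n - 1) δ (δ ^ η) (δ ^ η) A →
      ∫⁻ e, kakeyaMax δ (A.indicator 1) (e : EuclideanSpace ℝ (Fin n)) ^ (n : ℝ) ∂(surf n) ≤
        ENNReal.ofReal (C * δ ^ (-ε)) * volume A

theorem KMC_sparse (hn : 2 ≤ n) (h : KMC n) : SparseKMC n := by
  intro ε η hε hη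
  have hnR : (0:ℝ) < n := by
    have : 0 < n := by omega
    exact_mod_cast this
  obtain ⟨C, hC, hCb⟩ := h (ε / n) (by positivity)
  refine ⟨C ^ n, by positivity, ?_⟩
  intro δ hδ hδ1 A hA _
  have h1 := hCb δ hδ hδ1 (A.indicator 1) (measurable_one.indicator hA).aemeasurable
  rw [lintegral_indicator_one_rpow hA hnR] at h1
  have h2 := ENNReal.rpow_le_rpow h1 hnR.le
  rw [← ENNReal.rpow_mul, ENNReal.mul_rpow_of_nonneg _ _ hnR.le, ← ENNReal.rpow_mul,
    one_div, inv_mul_cancel₀ hnR.ne', ENNReal.rpow_one, ENNReal.rpow_one] at h2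
  refine h2.trans (le_of_eq ?_)
  congr 1
  rw [ENNReal.ofReal_rpow_of_pos (by positivity)]
  congr 1
  rw [Real.mul_rpow hC.le (by positivity), ← Real.rpow_mul hδ.le, Real.rpow_natCast]
  congr 2
  field_simp

theorem sparse_KMC (hn : 2 ≤ n) (h : SparseKMC n) : KMC n := by
  intro ε hε
  obtain ⟨m, rfl⟩ : ∃ m, n = m + 1 := ⟨n - 1, by omega⟩
  have hm1 : 1 ≤ m := by omega
  set N : ℝ := ((m + 1 : ℕ) : ℝ) with hN
  have hN0 : 0 < N := by rw [hN]; positivity
  obtain ⟨C1, hC1, hC1b⟩ := h (N * ε / 2) (ε / 8) (by positivity) (by positivity)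
  obtain ⟨C2, hC2, hC2b⟩ := log_pow_le (m + 1 + 3) (θ := N * ε / 4) (by positivity)
  have hc3 := cst3_pos (n := m + 1) (by omega)
  set σ1 := ((surf (m + 1)) univ).toReal with hσ1
  set D : ℝ := (1 + 1 / (2 / N) ^ m) ^ (m + 1) * σ1 with hD
  have hD0 : 0 ≤ D := by positivity
  set K : ℝ := 2 ^ (m + 1) * (2 * (2 ^ (m + 1) * (D + 2 * cst3 (m + 1) + C1))) * C2 with hK
  have hK0 : 0 < K := by positivity
  refine ⟨K ^ (1 / N), by positivity, ?_⟩
  intro δ hδ hδ1 f hf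
  set L := Real.log (1 / δ) with hL
  have hδinv : 1 ≤ 1 / δ := by rw [le_div_iff₀ hδ]; linarith
  have hL0 : 0 ≤ L := Real.log_nonneg hδinv
  set η : ℝ := ε / 8 with hη
  set a : ℝ := δ ^ η with ha
  have ha0 : 0 < a := by positivity
  have ha1 : a ≤ 1 := Real.rpow_le_one hδ.le hδ1.le (by positivity)
  set B2 : ℝ := C1 * δ ^ (-(N * ε / 2)) with hB2
  have hB20 : 0 ≤ B2 := by positivity
  have hset := set_bound (n := m + 1) rfl hm1 hδ hδ1 ha0 ha1 ha0 hB20
    (fun A hA hs => by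
      have := hC1b δ hδ hδ1 A hA (by simpa using hs)
      simp only [ENNReal.rpow_natCast] at this
      exact this)
  set B1 : ℝ := 2 * cst3 (m + 1) * loss (m + 1) m δ a / a ^ 2 with hB1
  have hl := loss_pos (m + 1) m hδ hδ1.le ha0
  have hB10 : 0 ≤ B1 := by positivity
  have hfun := sets_to_fun (n := m + 1) rfl hδ hδ1 (by positivity) hset f hf
  rw [← hN, ← hL, ← hσ1, ← hD] at hfun
  -- the constant
  have hB1e : B1 = 2 * cst3 (m + 1) * (1 + L) ^ 2 * δ ^ (-(N * ε / 4)) := by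
    rw [hB1]
    unfold loss
    rw [← hL]
    have e1 : -(((m + 1 : ℕ) : ℝ) - 1 - (m:ℝ)) = 0 := by push_cast; ring
    rw [e1, Real.rpow_zero, mul_one]
    have e2 : a ^ (-(2 * (m:ℝ))) / a ^ 2 = δ ^ (-(N * ε / 4)) := by
      rw [← Real.rpow_natCast a 2, ← Real.rpow_sub ha0, ha, ← Real.rpow_mul hδ.le]
      congr 1
      rw [hη, hN]
      push_cast
      ring
    rw [← e2]
    ring
  have hpow1 : 1 ≤ δ ^ (-(N * ε / 2)) := by
    apply Real.one_le_rpow_of_pos_of_le_one_of_nonpos hδ hδ1.le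
    have : 0 ≤ N * ε / 2 := by positivity
    linarith
  have hpow2 : δ ^ (-(N * ε / 4)) ≤ δ ^ (-(N * ε / 2)) := by
    apply Real.rpow_le_rpow_of_exponent_ge hδ hδ1.le
    have : 0 ≤ N * ε := by positivity
    linarith
  have hL1 : 1 ≤ 1 + L := by linarith
  have hconst : (2 * (1 + L)) ^ (m + 1) * (D + 2 * (1 + L) * (2 ^ (m + 1) * (B1 + B2))) ≤
      K * δ ^ (-(N * ε)) := by
    have h1 : D ≤ 2 * (1 + L) * (2 ^ (m + 1) * (D * (1 + L) ^ 2 * δ ^ (-(N * ε / 2)))) := by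
      have e1 : (1:ℝ) ≤ 2 ^ (m + 1) := one_le_pow₀ (by norm_num)
      have e2 : (1:ℝ) ≤ (1 + L) ^ 2 := one_le_pow₀ hL1
      calc D = 1 * (1 * (D * 1 * 1)) := by ring
        _ ≤ 2 * (1 + L) * (2 ^ (m + 1) * (D * (1 + L) ^ 2 * δ ^ (-(N * ε / 2)))) := by
          gcongr
          linarith
    have h2 : B1 ≤ 2 * cst3 (m + 1) * (1 + L) ^ 2 * δ ^ (-(N * ε / 2)) := by
      rw [hB1e]; gcongr
    have h3 : B2 ≤ C1 * (1 + L) ^ 2 * δ ^ (-(N * ε / 2)) := by
      have e2 : (1:ℝ) ≤ (1 + L) ^ 2 := one_le_pow₀ hL1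
      calc B2 = C1 * 1 * δ ^ (-(N * ε / 2)) := by rw [hB2]; ring
        _ ≤ _ := by gcongr
    calc (2 * (1 + L)) ^ (m + 1) * (D + 2 * (1 + L) * (2 ^ (m + 1) * (B1 + B2)))
        ≤ (2 * (1 + L)) ^ (m + 1) * (2 * (1 + L) * (2 ^ (m + 1) *
          (D * (1 + L) ^ 2 * δ ^ (-(N * ε / 2)))) + 2 * (1 + L) * (2 ^ (m + 1) *
          (2 * cst3 (m + 1) * (1 + L) ^ 2 * δ ^ (-(N * ε / 2)) +
            C1 * (1 + L) ^ 2 * δ ^ (-(N * ε / 2))))) := by gcongr
      _ = 2 ^ (m + 1) * (2 * (2 ^ (m + 1) * (D + 2 * cst3 (m + 1) + C1))) *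
          (1 + L) ^ (m + 1 + 3) * δ ^ (-(N * ε / 2)) := by
          rw [mul_pow]; ring
      _ ≤ 2 ^ (m + 1) * (2 * (2 ^ (m + 1) * (D + 2 * cst3 (m + 1) + C1))) *
          (C2 * δ ^ (-(N * ε / 4))) * δ ^ (-(N * ε / 2)) := by
          have := hC2b δ hδ hδ1.le
          gcongr
      _ = K * (δ ^ (-(N * ε / 4)) * δ ^ (-(N * ε / 2))) := by
          rw [hK]; ring
      _ ≤ K * δ ^ (-(N * ε)) := by
          gcongr
          rw [← Real.rpow_add hδ]
          apply Real.rpow_le_rpow_of_exponent_ge hδ hδ1.le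
          have : 0 ≤ N * ε := by positivity
          linarith
  have hfin := hfun.trans (mul_le_mul_left (ENNReal.ofReal_le_ofReal hconst) _)
  have h4 : ∫⁻ e : sphere (0 : EuclideanSpace ℝ (Fin (m + 1))) 1,
      kakeyaMax δ f (e : EuclideanSpace ℝ (Fin (m + 1))) ^ N ∂(surf (m + 1)) ≤
      ENNReal.ofReal (K * δ ^ (-(N * ε))) * ∫⁻ x, ‖f x‖ₑ ^ N := by
    rw [hN]
    simp only [ENNReal.rpow_natCast]
    exact hfin
  have h5 := ENNReal.rpow_le_rpow h4 (by positivity : 0 ≤ 1 / N)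
  rw [ENNReal.mul_rpow_of_nonneg _ _ (by positivity),
    ENNReal.ofReal_rpow_of_pos (by positivity)] at h5
  refine h5.trans (le_of_eq ?_)
  congr 2
  rw [Real.mul_rpow hK0.le (by positivity), ← Real.rpow_mul hδ.le]
  congr 2
  field_simp

theorem equivalence (hn : 2 ≤ n) : KMC n ↔ SparseKMC n := ⟨KMC_sparse hn, sparse_KMC hn⟩

end Pool.Agent.H737.KP
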