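import Pool.Agent.H737.KP.EquivP

set_option autoImplicit false

/-!
Every `L^p` bound for the Kakeya maximal function is equivalent to its restriction to sets which
are sparse in the plates of all dimensions `k ≥ n - 1 - pβ`.
-/

open MeasureTheory Set Filter Topology ENNReal NNReal Metric

namespace Pool.Agent.H737.KP

variable {n : ℕ}

theorem kakeya_cover_le {r : ℝ} {A As : Set (EuclideanSpace ℝ (Fin n))}
    {D : ℕ → Set (EuclideanSpace ℝ (Fin n))} {J : ℕ} (hAs : MeasurableSet As)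
    (hD : ∀ j, MeasurableSet (D j)) (hsub : ∀ y ∈ A, y ∈ As ∨ ∃ j < J, y ∈ D j)
    (e : EuclideanSpace ℝ (Fin n)) :
    kakeyaMax r (A.indicator 1) e ≤ kakeyaMax r (As.indicator 1) e +
      ∑ j ∈ Finset.range J, kakeyaMax r ((D j).indicator 1) e := by
  apply iSup_le
  intro a
  set T := tube r e a with hT
  have hpt : ∀ y, ‖A.indicator (1 : EuclideanSpace ℝ (Fin n) → ℝ) y‖ₑ ≤
      ‖As.indicator (1 : EuclideanSpace ℝ (Fin n) → ℝ) y‖ₑ + ∑ j ∈ Finset.range J,
        ‖(D j).indicator (1 : EuclideanSpace ℝ (Fin n) → ℝ) y‖ₑ := by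
    intro y
    simp only [enorm_indicator]
    by_cases hy : y ∈ A
    · rw [indicator_of_mem hy]
      rcases hsub y hy with h | ⟨j, hj, h⟩
      · rw [indicator_of_mem h]
        exact le_self_add
      · have h1 : (D j).indicator (fun _ => (1:ℝ≥0∞)) y ≤ ∑ j ∈ Finset.range J,
            (D j).indicator (fun _ => (1:ℝ≥0∞)) y :=
          Finset.single_le_sum (f := fun j => (D j).indicator (fun _ => (1:ℝ≥0∞)) y)
            (fun _ _ => zero_le) (Finset.mem_range.2 hj)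
        rw [indicator_of_mem h] at h1
        exact h1.trans le_add_self
    · rw [indicator_of_notMem hy]
      exact zero_le
  have hm0 : Measurable (fun y => ‖As.indicator (1 : EuclideanSpace ℝ (Fin n) → ℝ) y‖ₑ) :=
    (measurable_one.indicator hAs).enorm
  have hmj : ∀ j, Measurable (fun y => ‖(D j).indicator (1 : EuclideanSpace ℝ (Fin n) → ℝ) y‖ₑ) :=
    fun j => (measurable_one.indicator (hD j)).enorm
  calc (volume T)⁻¹ * ∫⁻ y in T, ‖A.indicator (1 : EuclideanSpace ℝ (Fin n) → ℝ) y‖ₑ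
      ≤ (volume T)⁻¹ * ∫⁻ y in T, (‖As.indicator (1 : EuclideanSpace ℝ (Fin n) → ℝ) y‖ₑ +
        ∑ j ∈ Finset.range J, ‖(D j).indicator (1 : EuclideanSpace ℝ (Fin n) → ℝ) y‖ₑ) := by
        refine mul_le_mul_right ?_ _
        exact lintegral_mono hpt
    _ = (volume T)⁻¹ * (∫⁻ y in T, ‖As.indicator (1 : EuclideanSpace ℝ (Fin n) → ℝ) y‖ₑ) +
        ∑ j ∈ Finset.range J, (volume T)⁻¹ *
          ∫⁻ y in T, ‖(D j).indicator (1 : EuclideanSpace ℝ (Fin n) → ℝ) y‖ₑ := by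
        rw [lintegral_add_left hm0, lintegral_finsetSum _ (fun j _ => hmj j), mul_add,
          Finset.mul_sum]
    _ ≤ _ := by
        refine add_le_add ?_ (Finset.sum_le_sum fun j _ => ?_)
        · exact le_iSup (fun a => (volume (tube r e a))⁻¹ * ∫⁻ y in tube r e a,
            ‖As.indicator (1 : EuclideanSpace ℝ (Fin n) → ℝ) y‖ₑ) a
        · exact le_iSup (fun a => (volume (tube r e a))⁻¹ * ∫⁻ y in tube r e a,
            ‖(D j).indicator (1 : EuclideanSpace ℝ (Fin n) → ℝ) y‖ₑ) a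

/-- The estimate for a set from the estimate for its sparse part. -/
theorem set_bound_k (hn : 2 ≤ n) {δ a : ℝ} {κ : ℕ → ℝ} (hδ : 0 < δ) (hδ1 : δ < 1)
    (ha : 0 < a) (ha1 : a ≤ 1) (hκ : ∀ k, 0 < κ k) {p : ℝ} (hp : 1 ≤ p) {B X : ℝ}
    (hB : 0 ≤ B) (hX0 : 0 ≤ X) (Q : ℕ → Prop) (hQ : ∀ k, Q k → 1 ≤ k ∧ k < n)
    (hX : ∀ k, Q k → 2 * cst3 n * loss n k δ a / κ k ^ 2 ≤ X)
    (h : ∀ A : Set (EuclideanSpace ℝ (Fin n)), MeasurableSet A → A ⊆ ball 0 2 →
      (∀ k, Q k → PlateSparse k δ a (κ k) A) →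
      ∫⁻ e : sphere (0 : EuclideanSpace ℝ (Fin n)) 1,
        kakeyaMax δ (A.indicator 1) (e : EuclideanSpace ℝ (Fin n)) ^ p ∂(surf n) ≤
        ENNReal.ofReal B * volume A)
    {A : Set (EuclideanSpace ℝ (Fin n))} (hA : MeasurableSet A) :
    ∫⁻ e : sphere (0 : EuclideanSpace ℝ (Fin n)) 1,
        kakeyaMax δ (A.indicator 1) (e : EuclideanSpace ℝ (Fin n)) ^ p ∂(surf n) ≤
        ENNReal.ofReal (((n:ℝ) + 1) ^ p * (4 ^ n * B + n * X)) * volume A := by
  classical
  have hn1 : 1 ≤ n := by omega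
  have hp0 : 0 < p := by linarith
  set D : ℕ → Set (EuclideanSpace ℝ (Fin n)) := fun k =>
    if Q k then A ∩ hull k δ a (κ k) A else ∅ with hDdef
  have hDm : ∀ k, MeasurableSet (D k) := by
    intro k
    rw [hDdef]
    dsimp only
    split_ifs
    · exact hA.inter (isOpen_hull k δ a (κ k) A).measurableSet
    · exact MeasurableSet.empty
  set U : Set (EuclideanSpace ℝ (Fin n)) := ⋃ k ∈ {k : ℕ | Q k}, hull k δ a (κ k) A with hU
  have hUm : MeasurableSet U := by
    rw [hU]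
    exact (isOpen_biUnion fun k _ => isOpen_hull k δ a (κ k) A).measurableSet
  set As := A \ U with hAs
  have hAsm : MeasurableSet As := hA.diff hUm
  have hcov : ∀ y ∈ A, y ∈ As ∨ ∃ j < n, y ∈ D j := by
    intro y hy
    by_cases hyU : y ∈ U
    · right
      rw [hU] at hyU
      simp only [mem_iUnion, mem_ofPred_eq, exists_prop] at hyU
      obtain ⟨k, hk, hyk⟩ := hyU
      refine ⟨k, (hQ k hk).2, ?_⟩
      rw [hDdef]
      dsimp only
      rw [if_pos hk]
      exact ⟨hy, hyk⟩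
    · left
      exact ⟨hy, hyU⟩
  have hsp : ∀ k, Q k → PlateSparse k δ a (κ k) As := by
    intro k hk
    apply (sparse_diff_hull k δ a (κ k) A).mono
    rw [hAs]
    apply sdiff_subset_sdiff_right
    rw [hU]
    exact subset_biUnion_of_mem (u := fun k => hull k δ a (κ k) A) (show k ∈ {k : ℕ | Q k} from hk)
  have h1 : ∫⁻ e : sphere (0 : EuclideanSpace ℝ (Fin n)) 1,
      kakeyaMax δ (As.indicator 1) (e : EuclideanSpace ℝ (Fin n)) ^ p ∂(surf n) ≤
      ENNReal.ofReal (4 ^ n * B) * volume A := by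
    refine (localise hn1 hδ hδ1.le hp0 hB hAsm ?_).trans (by gcongr; exact sdiff_subset)
    intro t
    have hA'm : MeasurableSet ((fun x => x + t) ⁻¹' (As ∩ ball t 2)) :=
      (hAsm.inter measurableSet_ball).preimage (by fun_prop)
    have h2 := h ((fun x => x + t) ⁻¹' (As ∩ ball t 2)) hA'm ?_ ?_
    · have h3 : volume ((fun x => x + t) ⁻¹' (As ∩ ball t 2)) = volume (As ∩ ball t 2) :=
        (measurePreserving_add_right volume t).measure_preimage
          (hAsm.inter measurableSet_ball).nullMeasurableSet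
      rw [h3] at h2
      refine le_trans (le_of_eq ?_) h2
      apply lintegral_congr
      intro e
      congr 1
      have h4 := kakeya_translate δ ((As ∩ ball t 2).indicator 1) t
        (e : EuclideanSpace ℝ (Fin n))
      rw [← h4]
      rfl
    · rintro x ⟨_, hx⟩
      rw [mem_ball, dist_eq_norm] at hx
      rw [mem_ball_zero_iff]
      simpa using hx
    · intro k hk
      exact sparse_translate ((hsp k hk).mono inter_subset_left) t
  have h2 : ∀ k, ∫⁻ e : sphere (0 : EuclideanSpace ℝ (Fin n)) 1,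
      kakeyaMax δ ((D k).indicator 1) (e : EuclideanSpace ℝ (Fin n)) ^ p ∂(surf n) ≤
      ENNReal.ofReal X * volume A := by
    intro k
    by_cases hk : Q k
    · obtain ⟨hk1, hkn⟩ := hQ k hk
      have hDk : D k = A ∩ hull k δ a (κ k) A := by
        rw [hDdef]
        dsimp only
        rw [if_pos hk]
      rw [hDk]
      have hm : MeasurableSet (A ∩ hull k δ a (κ k) A) :=
        hA.inter (isOpen_hull k δ a (κ k) A).measurableSet
      have h3 := dense_est (n := n) (k := k) (m := n - k) (by omega) hk1 (by omega) hδ hδ1.le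
        ha ha1 (hκ k) hδ (p := p) hp (f := (A ∩ hull k δ a (κ k) A).indicator 1)
        (measurable_one.indicator hm).aemeasurable (dense_inter_hull k δ a (κ k) A)
      rw [lintegral_indicator_one_rpow hm hp0] at h3
      refine h3.trans ?_
      exact mul_le_mul' (ENNReal.ofReal_le_ofReal (hX k hk)) (measure_mono inter_subset_left)
    · have hDk : D k = ∅ := by
        rw [hDdef]
        dsimp only
        rw [if_neg hk]
      rw [hDk]
      have h3 : ∀ e : sphere (0 : EuclideanSpace ℝ (Fin n)) 1,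
          kakeyaMax δ ((∅ : Set (EuclideanSpace ℝ (Fin n))).indicator 1)
            (e : EuclideanSpace ℝ (Fin n)) ^ p = 0 := by
        intro e
        unfold kakeyaMax
        simp [hp0]
      simp_rw [h3]
      simp
  have hKm : ∀ D : Set (EuclideanSpace ℝ (Fin n)), MeasurableSet D →
      Measurable (fun e : sphere (0 : EuclideanSpace ℝ (Fin n)) 1 =>
      kakeyaMax δ (D.indicator 1) (e : EuclideanSpace ℝ (Fin n))) := by
    intro D hD
    exact (measurable_kakeya hδ (measurable_one.indicator hD).aemeasurable).comp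
      measurable_subtype_coe
  calc ∫⁻ e : sphere (0 : EuclideanSpace ℝ (Fin n)) 1,
        kakeyaMax δ (A.indicator 1) (e : EuclideanSpace ℝ (Fin n)) ^ p ∂(surf n)
      ≤ ∫⁻ e : sphere (0 : EuclideanSpace ℝ (Fin n)) 1, (((n:ℝ≥0∞) + 1) ^ p *
        (kakeyaMax δ (As.indicator 1) (e : EuclideanSpace ℝ (Fin n)) ^ p +
          ∑ j ∈ Finset.range n,
            kakeyaMax δ ((D j).indicator 1) (e : EuclideanSpace ℝ (Fin n)) ^ p)) ∂(surf n) := by
        apply lintegral_mono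
        intro e
        dsimp only
        have h4 := kakeya_cover_le (r := δ) hAsm hDm hcov (e : EuclideanSpace ℝ (Fin n))
        have h5 := sum_rpow_le n (kakeyaMax δ (As.indicator 1) (e : EuclideanSpace ℝ (Fin n)))
          (fun j => kakeyaMax δ ((D j).indicator 1) (e : EuclideanSpace ℝ (Fin n))) hp0.le
        exact (ENNReal.rpow_le_rpow h4 hp0.le).trans h5
    _ = ((n:ℝ≥0∞) + 1) ^ p * (∫⁻ e : sphere (0 : EuclideanSpace ℝ (Fin n)) 1,
        kakeyaMax δ (As.indicator 1) (e : EuclideanSpace ℝ (Fin n)) ^ p ∂(surf n) +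
        ∑ j ∈ Finset.range n, ∫⁻ e : sphere (0 : EuclideanSpace ℝ (Fin n)) 1,
          kakeyaMax δ ((D j).indicator 1) (e : EuclideanSpace ℝ (Fin n)) ^ p ∂(surf n)) := by
        have hmA := (hKm As hAsm).pow_const p
        have hmD := fun j => (hKm (D j) (hDm j)).pow_const p
        have hmS : Measurable (fun e : sphere (0 : EuclideanSpace ℝ (Fin n)) 1 =>
            kakeyaMax δ (As.indicator 1) (e : EuclideanSpace ℝ (Fin n)) ^ p +
            ∑ j ∈ Finset.range n,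
              kakeyaMax δ ((D j).indicator 1) (e : EuclideanSpace ℝ (Fin n)) ^ p) :=
          hmA.add (Finset.measurable_sum _ fun j _ => hmD j)
        rw [lintegral_const_mul _ hmS, lintegral_add_left hmA,
          lintegral_finsetSum _ (fun j _ => hmD j)]
    _ ≤ ((n:ℝ≥0∞) + 1) ^ p * (ENNReal.ofReal (4 ^ n * B) * volume A +
        ∑ _j ∈ Finset.range n, ENNReal.ofReal X * volume A) := by
        refine mul_le_mul_right (add_le_add h1 (Finset.sum_le_sum fun j _ => h2 j)) _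
    _ = _ := by
        rw [Finset.sum_const, Finset.card_range, nsmul_eq_mul, ← mul_assoc (n:ℝ≥0∞),
          ← ENNReal.ofReal_natCast n, ← ENNReal.ofReal_mul (by positivity), ← add_mul,
          ← ENNReal.ofReal_add (by positivity) (by positivity), ← mul_assoc,
          ENNReal.ofReal_mul (by positivity : (0:ℝ) ≤ ((n:ℝ) + 1) ^ p)]
        congr 2
        rw [← ENNReal.ofReal_rpow_of_pos (by positivity), ENNReal.ofReal_add (by positivity)
          zero_le_one, ENNReal.ofReal_one]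

/-- The restriction of `KMB` to subsets of a ball which are sparse in the plates of all
dimensions `k ≥ n - 1 - pβ`, with a power gain when `k > n - 1 - pβ`. -/
def SparseKMBk (n : ℕ) (p β : ℝ) : Prop :=
  ∀ ε η : ℝ, 0 < ε → 0 < η → ∃ C : ℝ, 0 < C ∧ ∀ δ : ℝ, 0 < δ → δ < 1 →
    ∀ A : Set (EuclideanSpace ℝ (Fin n)), MeasurableSet A → A ⊆ ball 0 2 →
      (∀ k : ℕ, 1 ≤ k → k < n → (n:ℝ) - 1 - p * β ≤ k →
        PlateSparse k δ (δ ^ η) (δ ^ (η + (p * β - ((n:ℝ) - 1 - k)) / 2)) A) →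
      (∫⁻ e, kakeyaMax δ (A.indicator 1) (e : EuclideanSpace ℝ (Fin n)) ^ p ∂(surf n)) ^ (1 / p) ≤
        ENNReal.ofReal (C * δ ^ (-β - ε)) * volume A ^ (1 / p)

theorem KMB_sparsek {p β : ℝ} (hp : 0 < p) (h : KMB n p β) : SparseKMBk n p β := by
  intro ε η hε hη
  obtain ⟨C, hC, hCb⟩ := h ε hε
  refine ⟨C, hC, ?_⟩
  intro δ hδ hδ1 A hA _ _
  have h1 := hCb δ hδ hδ1 (A.indicator 1) (measurable_one.indicator hA).aemeasurable
  rw [lintegral_indicator_one_rpow hA hp] at h1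
  exact h1

theorem sparse_KMBk (hn : 2 ≤ n) {p β : ℝ} (hp : 1 < p) (hβ : 0 ≤ β) (h : SparseKMBk n p β) :
    KMB n p β := by
  intro ε hε
  obtain ⟨m, hm⟩ : ∃ m, n = m + 1 := ⟨n - 1, by omega⟩
  have hp0 : 0 < p := by linarith
  have hn0 : (0:ℝ) < (n:ℝ) := by
    have : 0 < n := by omega
    exact_mod_cast this
  set θ : ℝ := p * ε with hθ
  have hθ0 : 0 < θ := by positivity
  set η : ℝ := θ / (8 * (n:ℝ)) with hη
  have hη0 : 0 < η := by positivity
  obtain ⟨C1, hC1, hC1b⟩ := h (ε / 2) η (by positivity) hη0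
  obtain ⟨C2, hC2, hC2b⟩ := log_pow_le (⌈p⌉₊ + 3) (θ := θ / 2) (by positivity)
  obtain ⟨C3, hC3, hC3b⟩ := sets_to_fun_p hm hp
  have hc3 := cst3_pos (n := n) (by omega)
  set M : ℝ := 1 + ((n:ℝ) + 1) ^ p * (4 ^ n * C1 ^ p + n * (2 * cst3 n)) with hM
  have hM0 : 0 < M := by positivity
  set K : ℝ := C3 * M * C2 with hK
  have hK0 : 0 < K := by positivity
  refine ⟨K ^ (1 / p), by positivity, ?_⟩
  intro δ hδ hδ1 f hf
  set L := Real.log (1 / δ) with hL
  have hδinv : 1 ≤ 1 / δ := by rw [le_div_iff₀ hδ]; linarith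
  have hL0 : 0 ≤ L := Real.log_nonneg hδinv
  have hL1 : 1 ≤ 1 + L := by linarith
  set a : ℝ := δ ^ η with ha
  have ha0 : 0 < a := by positivity
  have ha1 : a ≤ 1 := Real.rpow_le_one hδ.le hδ1.le hη0.le
  set X : ℝ := δ ^ (-(p * β) - θ / 2) with hX
  have hX0 : 0 < X := by positivity
  have hX1 : 1 ≤ X := by
    apply Real.one_le_rpow_of_pos_of_le_one_of_nonpos hδ hδ1.le
    have : 0 ≤ p * β := by positivity
    linarith
  have hXk : ∀ k : ℕ, 1 ≤ k ∧ k < n ∧ (n:ℝ) - 1 - p * β ≤ k → 2 * cst3 n * loss n k δ a /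
      (δ ^ (η + (p * β - ((n:ℝ) - 1 - k)) / 2)) ^ 2 ≤ 2 * cst3 n * (1 + L) ^ 2 * X := by
    rintro k ⟨hk1, hk2, hk3⟩
    have hkn : (k:ℝ) ≤ n := by exact_mod_cast hk2.le
    have hn1 : (1:ℝ) ≤ n := by
      have : 1 ≤ n := by omega
      exact_mod_cast this
    have e1 : (δ ^ (η + (p * β - ((n:ℝ) - 1 - k)) / 2)) ^ 2 =
        δ ^ (2 * η + (p * β - ((n:ℝ) - 1 - k))) := by
      rw [← Real.rpow_natCast, ← Real.rpow_mul hδ.le]
      congr 1
      push_cast
      ring
    have e2 : a ^ (-(2 * (k:ℝ))) = δ ^ (-(2 * (k:ℝ) * η)) := by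
      rw [ha, ← Real.rpow_mul hδ.le]
      congr 1
      ring
    have e3 : 2 * cst3 n * loss n k δ a / (δ ^ (η + (p * β - ((n:ℝ) - 1 - k)) / 2)) ^ 2 =
        2 * cst3 n * (1 + L) ^ 2 * δ ^ (-(p * β) - 2 * η - 2 * (k:ℝ) * η) := by
      unfold loss
      rw [e1, e2, ← hL]
      have e4 : δ ^ (-(p * β) - 2 * η - 2 * (k:ℝ) * η) =
          δ ^ (-((n:ℝ) - 1 - k)) * δ ^ (-(2 * (k:ℝ) * η)) /
            δ ^ (2 * η + (p * β - ((n:ℝ) - 1 - k))) := by
        rw [← Real.rpow_add hδ, ← Real.rpow_sub hδ]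
        congr 1
        ring
      rw [e4]
      ring
    rw [e3]
    have e5 : δ ^ (-(p * β) - 2 * η - 2 * (k:ℝ) * η) ≤ X := by
      rw [hX]
      apply Real.rpow_le_rpow_of_exponent_ge hδ hδ1.le
      have h1 : 2 * η + 2 * (k:ℝ) * η ≤ 4 * (n:ℝ) * η := by nlinarith
      have h2 : 4 * (n:ℝ) * η = θ / 2 := by
        rw [hη]
        field_simp
        norm_num
      linarith
    gcongr
  set B2 : ℝ := C1 ^ p * X with hB2
  have hB20 : 0 ≤ B2 := by positivity
  have hset := fun (A : Set (EuclideanSpace ℝ (Fin n))) (hA : MeasurableSet A) =>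
    set_bound_k hn hδ hδ1 ha0 ha1
    (κ := fun k => δ ^ (η + (p * β - ((n:ℝ) - 1 - k)) / 2)) (fun k => by positivity) hp.le hB20
    (X := 2 * cst3 n * (1 + L) ^ 2 * X) (by positivity)
    (fun k => 1 ≤ k ∧ k < n ∧ (n:ℝ) - 1 - p * β ≤ k) (fun k hk => ⟨hk.1, hk.2.1⟩) hXk
    (fun A hA hAb hs => by
      have h1 := hC1b δ hδ hδ1 A hA hAb (fun k h1 h2 h3 => hs k ⟨h1, h2, h3⟩)
      have h2 := ENNReal.rpow_le_rpow h1 hp0.le
      rw [← ENNReal.rpow_mul, ENNReal.mul_rpow_of_nonneg _ _ hp0.le, ← ENNReal.rpow_mul,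
        one_div, inv_mul_cancel₀ hp0.ne', ENNReal.rpow_one, ENNReal.rpow_one,
        ENNReal.ofReal_rpow_of_pos (by positivity)] at h2
      refine h2.trans (le_of_eq ?_)
      congr 2
      rw [Real.mul_rpow hC1.le (by positivity), ← Real.rpow_mul hδ.le, hB2, hX]
      congr 2
      rw [hθ]
      ring) hA
  set B1 : ℝ := 2 * cst3 n * (1 + L) ^ 2 * X with hB1
  have hB10 : 0 ≤ B1 := by positivity
  have hfun := hC3b δ hδ hδ1 (((n:ℝ) + 1) ^ p * (4 ^ n * B2 + n * B1)) (by positivity) hset f hf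
  rw [← hL] at hfun
  -- the constant
  have hB1e : B1 ≤ 2 * cst3 n * (1 + L) ^ 2 * X := le_rfl
  have hconst : C3 * (1 + L) ^ (⌈p⌉₊ + 1) * (1 + ((n:ℝ) + 1) ^ p * (4 ^ n * B2 + n * B1)) ≤
      K * δ ^ (-(p * β) - θ) := by
    have hL2 : 1 ≤ (1 + L) ^ 2 := one_le_pow₀ hL1
    have h1 : 1 + ((n:ℝ) + 1) ^ p * (4 ^ n * B2 + n * B1) ≤ M * (1 + L) ^ 2 * X := by
      have g2 : B2 ≤ C1 ^ p * (1 + L) ^ 2 * X := by
        calc B2 = C1 ^ p * 1 * X := by rw [hB2]; ring
          _ ≤ _ := by gcongr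
      have g3 : 1 ≤ (1 + L) ^ 2 * X := by
        calc (1:ℝ) = 1 * 1 := by ring
          _ ≤ _ := by gcongr
      calc 1 + ((n:ℝ) + 1) ^ p * (4 ^ n * B2 + n * B1) ≤ (1 + L) ^ 2 * X +
            ((n:ℝ) + 1) ^ p * (4 ^ n * (C1 ^ p * (1 + L) ^ 2 * X) +
              n * (2 * cst3 n * (1 + L) ^ 2 * X)) := by gcongr
        _ = _ := by rw [hM]; ring
    calc C3 * (1 + L) ^ (⌈p⌉₊ + 1) * (1 + ((n:ℝ) + 1) ^ p * (4 ^ n * B2 + n * B1))
        ≤ C3 * (1 + L) ^ (⌈p⌉₊ + 1) * (M * (1 + L) ^ 2 * X) := by gcongr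
      _ = C3 * M * (1 + L) ^ (⌈p⌉₊ + 3) * X := by ring
      _ ≤ C3 * M * (C2 * δ ^ (-(θ / 2))) * X := by
          have := hC2b δ hδ hδ1.le
          gcongr
      _ = K * (δ ^ (-(θ / 2)) * X) := by rw [hK]; ring
      _ = K * δ ^ (-(p * β) - θ) := by
          rw [hX, ← Real.rpow_add hδ]
          congr 2
          ring
  have h4 := hfun.trans (mul_le_mul_left (ENNReal.ofReal_le_ofReal hconst) _)
  have h5 := ENNReal.rpow_le_rpow h4 (by positivity : 0 ≤ 1 / p)
  rw [ENNReal.mul_rpow_of_nonneg _ _ (by positivity),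
    ENNReal.ofReal_rpow_of_pos (by positivity)] at h5
  refine h5.trans (le_of_eq ?_)
  congr 2
  rw [Real.mul_rpow hK0.le (by positivity), ← Real.rpow_mul hδ.le]
  congr 2
  rw [hθ]
  field_simp

theorem equivalence_k (hn : 2 ≤ n) {p β : ℝ} (hp : 1 < p) (hβ : 0 ≤ β) :
    KMB n p β ↔ SparseKMBk n p β := ⟨KMB_sparsek (by linarith), sparse_KMBk hn hp hβ⟩

end Pool.Agent.H737.KP
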