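import Pool.Agent.H737.KP.Local

set_option autoImplicit false

/-!
Every `L^p` bound for the Kakeya maximal function is equivalent to its restriction to
plate-sparse sets.
-/

open MeasureTheory Set Filter Topology ENNReal NNReal Metric

namespace Pool.Agent.H737.KP

variable {n : ℕ}

/-- The estimate for a set from the estimate for its sparse part. -/
theorem set_bound_p {m : ℕ} (hm : n = m + 1) (hm1 : 1 ≤ m) {δ a κ : ℝ} (hδ : 0 < δ) (hδ1 : δ < 1)
    (ha : 0 < a) (ha1 : a ≤ 1) (hκ : 0 < κ) {p : ℝ} (hp : 1 ≤ p) {B : ℝ} (hB : 0 ≤ B)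
    (h : ∀ A : Set (EuclideanSpace ℝ (Fin n)), MeasurableSet A → A ⊆ ball 0 2 →
      PlateSparse m δ a κ A →
      ∫⁻ e : sphere (0 : EuclideanSpace ℝ (Fin n)) 1,
        kakeyaMax δ (A.indicator 1) (e : EuclideanSpace ℝ (Fin n)) ^ p ∂(surf n) ≤
        ENNReal.ofReal B * volume A)
    {A : Set (EuclideanSpace ℝ (Fin n))} (hA : MeasurableSet A) :
    ∫⁻ e : sphere (0 : EuclideanSpace ℝ (Fin n)) 1,
        kakeyaMax δ (A.indicator 1) (e : EuclideanSpace ℝ (Fin n)) ^ p ∂(surf n) ≤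
        ENNReal.ofReal (2 ^ p * (2 * cst3 n * loss n m δ a / κ ^ 2 + 4 ^ n * B)) * volume A := by
  have hn1 : 1 ≤ n := by omega
  have hp0 : 0 < p := by linarith
  have hc3 := cst3_pos hn1
  have hl := loss_pos n m hδ hδ1.le ha
  set U := hull m δ a κ A with hU
  have hUm : MeasurableSet U := (isOpen_hull m δ a κ A).measurableSet
  set Ap := A ∩ U with hAp
  set As := A \ U with hAs
  have hApm : MeasurableSet Ap := hA.inter hUm
  have hAsm : MeasurableSet As := hA.diff hUm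
  have hun : Ap ∪ As = A := inter_union_sdiff A U
  have hdis : Disjoint Ap As := disjoint_sdiff_inter.symm
  have hsp : PlateSparse m δ a κ As := sparse_diff_hull m δ a κ A
  have h1 : ∫⁻ e : sphere (0 : EuclideanSpace ℝ (Fin n)) 1,
      kakeyaMax δ (As.indicator 1) (e : EuclideanSpace ℝ (Fin n)) ^ p ∂(surf n) ≤
      ENNReal.ofReal (4 ^ n * B) * volume A := by
    refine (localise hn1 hδ hδ1.le hp0 hB hAsm ?_).trans (by gcongr; exact sdiff_subset)
    intro t
    have hA'm : MeasurableSet ((fun x => x + t) ⁻¹' (As ∩ ball t 2)) :=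
      (hAsm.inter measurableSet_ball).preimage (by fun_prop)
    have h2 := h ((fun x => x + t) ⁻¹' (As ∩ ball t 2)) hA'm ?_ ?_
    · have h3 : volume ((fun x => x + t) ⁻¹' (As ∩ ball t 2)) = volume (As ∩ ball t 2) :=
        (measurePreserving_add_right volume t).measure_preimage
          (hAsm.inter measurableSet_ball).nullMeasurableSet
      rw [h3] at h2
      refine le_trans (le_of_eq ?_) h2
      apply lintegral_congr
      intro e
      congr 1
      have h4 := kakeya_translate δ ((As ∩ ball t 2).indicator 1) t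
        (e : EuclideanSpace ℝ (Fin n))
      rw [← h4]
      rfl
    · rintro x ⟨_, hx⟩
      rw [mem_ball, dist_eq_norm] at hx
      rw [mem_ball_zero_iff]
      simpa using hx
    · exact sparse_translate (hsp.mono inter_subset_left) t
  have h2 : ∫⁻ e : sphere (0 : EuclideanSpace ℝ (Fin n)) 1,
      kakeyaMax δ (Ap.indicator 1) (e : EuclideanSpace ℝ (Fin n)) ^ p ∂(surf n) ≤
      ENNReal.ofReal (2 * cst3 n * loss n m δ a / κ ^ 2) * volume A := by
    have h3 := dense_est (k := m) (m := 1) (by omega) hm1 le_rfl hδ hδ1.le ha ha1 hκ hδ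
      (p := p) hp (f := Ap.indicator 1)
      (measurable_one.indicator hApm).aemeasurable (dense_inter_hull m δ a κ A)
    rw [lintegral_indicator_one_rpow hApm hp0] at h3
    refine h3.trans ?_
    gcongr
    exact inter_subset_left
  have hKm : ∀ D : Set (EuclideanSpace ℝ (Fin n)), MeasurableSet D →
      Measurable (fun e : sphere (0 : EuclideanSpace ℝ (Fin n)) 1 =>
      kakeyaMax δ (D.indicator 1) (e : EuclideanSpace ℝ (Fin n))) := by
    intro D hD
    exact (measurable_kakeya hδ (measurable_one.indicator hD).aemeasurable).comp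
      measurable_subtype_coe
  calc ∫⁻ e : sphere (0 : EuclideanSpace ℝ (Fin n)) 1,
        kakeyaMax δ (A.indicator 1) (e : EuclideanSpace ℝ (Fin n)) ^ p ∂(surf n)
      ≤ ∫⁻ e : sphere (0 : EuclideanSpace ℝ (Fin n)) 1, (2:ℝ≥0∞) ^ p *
        (kakeyaMax δ (Ap.indicator 1) (e : EuclideanSpace ℝ (Fin n)) ^ p +
          kakeyaMax δ (As.indicator 1) (e : EuclideanSpace ℝ (Fin n)) ^ p) ∂(surf n) := by
        apply lintegral_mono
        intro e
        dsimp only
        have h4 := kakeya_add_le (r := δ) hApm hAsm hdis (e : EuclideanSpace ℝ (Fin n))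
        rw [hun] at h4
        have h5 := sum_rpow_le 1 (kakeyaMax δ (Ap.indicator 1) (e : EuclideanSpace ℝ (Fin n)))
          (fun _ => kakeyaMax δ (As.indicator 1) (e : EuclideanSpace ℝ (Fin n))) hp0.le
        simp only [Finset.sum_range_one, Nat.cast_one] at h5
        calc kakeyaMax δ (A.indicator 1) (e : EuclideanSpace ℝ (Fin n)) ^ p
            ≤ (kakeyaMax δ (Ap.indicator 1) (e : EuclideanSpace ℝ (Fin n)) +
              kakeyaMax δ (As.indicator 1) (e : EuclideanSpace ℝ (Fin n))) ^ p := by gcongr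
          _ ≤ _ := by
              refine h5.trans (le_of_eq ?_)
              norm_num
    _ = (2:ℝ≥0∞) ^ p * (∫⁻ e : sphere (0 : EuclideanSpace ℝ (Fin n)) 1,
        kakeyaMax δ (Ap.indicator 1) (e : EuclideanSpace ℝ (Fin n)) ^ p ∂(surf n) +
        ∫⁻ e : sphere (0 : EuclideanSpace ℝ (Fin n)) 1,
          kakeyaMax δ (As.indicator 1) (e : EuclideanSpace ℝ (Fin n)) ^ p ∂(surf n)) := by
        have hmA := (hKm Ap hApm).pow_const p
        have hmB := (hKm As hAsm).pow_const p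
        have hmS : Measurable (fun e : sphere (0 : EuclideanSpace ℝ (Fin n)) 1 =>
            kakeyaMax δ (Ap.indicator 1) (e : EuclideanSpace ℝ (Fin n)) ^ p +
            kakeyaMax δ (As.indicator 1) (e : EuclideanSpace ℝ (Fin n)) ^ p) := hmA.add hmB
        rw [lintegral_const_mul _ hmS, lintegral_add_left hmA]
    _ ≤ (2:ℝ≥0∞) ^ p * (ENNReal.ofReal (2 * cst3 n * loss n m δ a / κ ^ 2) * volume A +
        ENNReal.ofReal (4 ^ n * B) * volume A) := by gcongr
    _ = _ := by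
        rw [← add_mul, ← ENNReal.ofReal_add (by positivity) (by positivity), ← mul_assoc]
        congr 1
        rw [ENNReal.ofReal_mul (by positivity), ← ENNReal.ofReal_rpow_of_pos (by norm_num)]
        norm_num

/-- The bound of the Kakeya maximal function on `L^p` with loss `δ^{-β-ε}`. -/
def KMB (n : ℕ) (p β : ℝ) : Prop :=
  ∀ ε : ℝ, 0 < ε → ∃ C : ℝ, 0 < C ∧ ∀ δ : ℝ, 0 < δ → δ < 1 →
    ∀ f : EuclideanSpace ℝ (Fin n) → ℝ, AEMeasurable f volume →
      (∫⁻ e, kakeyaMax δ f (e : EuclideanSpace ℝ (Fin n)) ^ p ∂(surf n)) ^ (1 / p) ≤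
        ENNReal.ofReal (C * δ ^ (-β - ε)) * (∫⁻ y, ‖f y‖ₑ ^ p) ^ (1 / p)

/-- Its restriction to plate-sparse subsets of a ball. -/
def SparseKMB (n : ℕ) (p β : ℝ) : Prop :=
  ∀ ε η : ℝ, 0 < ε → 0 < η → ∃ C : ℝ, 0 < C ∧ ∀ δ : ℝ, 0 < δ → δ < 1 →
    ∀ A : Set (EuclideanSpace ℝ (Fin n)), MeasurableSet A → A ⊆ ball 0 2 →
      PlateSparse (n - 1) δ (δ ^ η) (δ ^ η) A →
      (∫⁻ e, kakeyaMax δ (A.indicator 1) (e : EuclideanSpace ℝ (Fin n)) ^ p ∂(surf n)) ^ (1 / p) ≤
        ENNReal.ofReal (C * δ ^ (-β - ε)) * volume A ^ (1 / p)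

theorem KMB_sparse {p β : ℝ} (hp : 0 < p) (h : KMB n p β) : SparseKMB n p β := by
  intro ε η hε hη
  obtain ⟨C, hC, hCb⟩ := h ε hε
  refine ⟨C, hC, ?_⟩
  intro δ hδ hδ1 A hA _ _
  have h1 := hCb δ hδ hδ1 (A.indicator 1) (measurable_one.indicator hA).aemeasurable
  rw [lintegral_indicator_one_rpow hA hp] at h1
  exact h1

theorem sparse_KMB (hn : 2 ≤ n) {p β : ℝ} (hp : 1 < p) (hβ : 0 ≤ β) (h : SparseKMB n p β) :
    KMB n p β := by
  intro ε hε
  obtain ⟨m, rfl⟩ : ∃ m, n = m + 1 := ⟨n - 1, by omega⟩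
  have hm1 : 1 ≤ m := by omega
  have hp0 : 0 < p := by linarith
  have hm0 : (0:ℝ) < (m:ℝ) + 1 := by positivity
  set θ : ℝ := p * ε with hθ
  have hθ0 : 0 < θ := by positivity
  set η : ℝ := θ / (8 * ((m:ℝ) + 1)) with hη
  have hη0 : 0 < η := by positivity
  obtain ⟨C1, hC1, hC1b⟩ := h (ε / 2) η (by positivity) hη0
  obtain ⟨C2, hC2, hC2b⟩ := log_pow_le (⌈p⌉₊ + 3) (θ := θ / 2) (by positivity)
  obtain ⟨C3, hC3, hC3b⟩ := sets_to_fun_p (n := m + 1) rfl hp
  have hc3 := cst3_pos (n := m + 1) (by omega)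
  set M : ℝ := 1 + 2 ^ p * (2 * cst3 (m + 1) + 4 ^ (m + 1) * C1 ^ p) with hM
  have hM0 : 0 < M := by positivity
  set K : ℝ := C3 * M * C2 with hK
  have hK0 : 0 < K := by positivity
  refine ⟨K ^ (1 / p), by positivity, ?_⟩
  intro δ hδ hδ1 f hf
  set L := Real.log (1 / δ) with hL
  have hδinv : 1 ≤ 1 / δ := by rw [le_div_iff₀ hδ]; linarith
  have hL0 : 0 ≤ L := Real.log_nonneg hδinv
  have hL1 : 1 ≤ 1 + L := by linarith
  set a : ℝ := δ ^ η with ha
  have ha0 : 0 < a := by positivity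
  have ha1 : a ≤ 1 := Real.rpow_le_one hδ.le hδ1.le hη0.le
  set X : ℝ := δ ^ (-(p * β) - θ / 2) with hX
  have hX0 : 0 < X := by positivity
  have hX1 : 1 ≤ X := by
    apply Real.one_le_rpow_of_pos_of_le_one_of_nonpos hδ hδ1.le
    have : 0 ≤ p * β := by positivity
    linarith
  set B2 : ℝ := C1 ^ p * X with hB2
  have hB20 : 0 ≤ B2 := by positivity
  have hset := fun (A : Set (EuclideanSpace ℝ (Fin (m + 1)))) (hA : MeasurableSet A) =>
    set_bound_p (n := m + 1) rfl hm1 hδ hδ1 ha0 ha1 ha0 hp.le hB20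
    (fun A hA hAb hs => by
      have h1 := hC1b δ hδ hδ1 A hA hAb (by simpa using hs)
      have h2 := ENNReal.rpow_le_rpow h1 hp0.le
      rw [← ENNReal.rpow_mul, ENNReal.mul_rpow_of_nonneg _ _ hp0.le, ← ENNReal.rpow_mul,
        one_div, inv_mul_cancel₀ hp0.ne', ENNReal.rpow_one, ENNReal.rpow_one,
        ENNReal.ofReal_rpow_of_pos (by positivity)] at h2
      refine h2.trans (le_of_eq ?_)
      congr 2
      rw [Real.mul_rpow hC1.le (by positivity), ← Real.rpow_mul hδ.le, hB2, hX]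
      congr 2
      rw [hθ]
      ring) hA
  set B1 : ℝ := 2 * cst3 (m + 1) * loss (m + 1) m δ a / a ^ 2 with hB1
  have hl := loss_pos (m + 1) m hδ hδ1.le ha0
  have hB10 : 0 ≤ B1 := by positivity
  have hfun := hC3b δ hδ hδ1 (2 ^ p * (B1 + 4 ^ (m + 1) * B2)) (by positivity) hset f hf
  rw [← hL] at hfun
  -- the constant
  have hB1e : B1 = 2 * cst3 (m + 1) * (1 + L) ^ 2 * δ ^ (-(θ / 4)) := by
    rw [hB1]
    unfold loss
    rw [← hL]
    have e1 : -(((m + 1 : ℕ) : ℝ) - 1 - (m:ℝ)) = 0 := by push_cast; ring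
    rw [e1, Real.rpow_zero, mul_one]
    have e2 : a ^ (-(2 * (m:ℝ))) / a ^ 2 = δ ^ (-(θ / 4)) := by
      rw [← Real.rpow_natCast a 2, ← Real.rpow_sub ha0, ha, ← Real.rpow_mul hδ.le]
      congr 1
      rw [hη]
      push_cast
      field_simp
      ring
    rw [← e2]
    ring
  have hpow : δ ^ (-(θ / 4)) ≤ X := by
    apply Real.rpow_le_rpow_of_exponent_ge hδ hδ1.le
    have : 0 ≤ p * β := by positivity
    linarith
  have hconst : C3 * (1 + L) ^ (⌈p⌉₊ + 1) * (1 + 2 ^ p * (B1 + 4 ^ (m + 1) * B2)) ≤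
      K * δ ^ (-(p * β) - θ) := by
    have hL2 : 1 ≤ (1 + L) ^ 2 := one_le_pow₀ hL1
    have h1 : 1 + 2 ^ p * (B1 + 4 ^ (m + 1) * B2) ≤ M * (1 + L) ^ 2 * X := by
      have g1 : B1 ≤ 2 * cst3 (m + 1) * (1 + L) ^ 2 * X := by rw [hB1e]; gcongr
      have g2 : B2 ≤ C1 ^ p * (1 + L) ^ 2 * X := by
        calc B2 = C1 ^ p * 1 * X := by rw [hB2]; ring
          _ ≤ _ := by gcongr
      have g3 : 1 ≤ (1 + L) ^ 2 * X := by
        calc (1:ℝ) = 1 * 1 := by ring
          _ ≤ _ := by gcongr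
      calc 1 + 2 ^ p * (B1 + 4 ^ (m + 1) * B2) ≤ (1 + L) ^ 2 * X +
            2 ^ p * (2 * cst3 (m + 1) * (1 + L) ^ 2 * X +
              4 ^ (m + 1) * (C1 ^ p * (1 + L) ^ 2 * X)) := by gcongr
        _ = _ := by rw [hM]; ring
    calc C3 * (1 + L) ^ (⌈p⌉₊ + 1) * (1 + 2 ^ p * (B1 + 4 ^ (m + 1) * B2))
        ≤ C3 * (1 + L) ^ (⌈p⌉₊ + 1) * (M * (1 + L) ^ 2 * X) := by gcongr
      _ = C3 * M * (1 + L) ^ (⌈p⌉₊ + 3) * X := by ring
      _ ≤ C3 * M * (C2 * δ ^ (-(θ / 2))) * X := by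
          have := hC2b δ hδ hδ1.le
          gcongr
      _ = K * (δ ^ (-(θ / 2)) * X) := by rw [hK]; ring
      _ = K * δ ^ (-(p * β) - θ) := by
          rw [hX, ← Real.rpow_add hδ]
          congr 2
          ring
  have h4 := hfun.trans (mul_le_mul_left (ENNReal.ofReal_le_ofReal hconst) _)
  have h5 := ENNReal.rpow_le_rpow h4 (by positivity : 0 ≤ 1 / p)
  rw [ENNReal.mul_rpow_of_nonneg _ _ (by positivity),
    ENNReal.ofReal_rpow_of_pos (by positivity)] at h5
  refine h5.trans (le_of_eq ?_)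
  congr 2
  rw [Real.mul_rpow hK0.le (by positivity), ← Real.rpow_mul hδ.le]
  congr 2
  rw [hθ]
  field_simp

theorem equivalence_p (hn : 2 ≤ n) {p β : ℝ} (hp : 1 < p) (hβ : 0 ≤ β) :
    KMB n p β ↔ SparseKMB n p β := ⟨KMB_sparse (by linarith), sparse_KMB hn hp hβ⟩

end Pool.Agent.H737.KP
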