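import Pool.Agent.H737.KP.SetsP
import Pool.Agent.H737.KP.Equiv

set_option autoImplicit false

/-!
Localisation of the estimates for sets.
-/

open MeasureTheory Set Filter Topology ENNReal NNReal Metric

namespace Pool.Agent.H737.KP

variable {n : ℕ}

theorem tube_subset_ball {δ : ℝ} (hδ1 : δ ≤ 1) {e a t : EuclideanSpace ℝ (Fin n)} (he : ‖e‖ = 1)
    (ht : t ∈ ball a (1 / 2)) : tube δ e a ⊆ ball t 2 := by
  intro y hy
  obtain ⟨h1, h2⟩ := hy
  rw [mem_ball, dist_eq_norm] at ht ⊢
  have h3 : ‖y - a‖ ≤ 1 / 2 + δ := by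
    calc ‖y - a‖ = ‖(inner ℝ (y - a) e : ℝ) • e + ((y - a) - (inner ℝ (y - a) e : ℝ) • e)‖ := by
          congr 1; abel
      _ ≤ ‖(inner ℝ (y - a) e : ℝ) • e‖ + ‖(y - a) - (inner ℝ (y - a) e : ℝ) • e‖ :=
          norm_add_le _ _
      _ ≤ 1 / 2 + δ := by
          rw [norm_smul, he, mul_one, Real.norm_eq_abs]
          linarith
  calc ‖y - t‖ = ‖(y - a) - (t - a)‖ := by congr 1; abel
    _ ≤ ‖y - a‖ + ‖t - a‖ := norm_sub_le _ _
    _ < 2 := by linarith

theorem enorm_indicator (A : Set (EuclideanSpace ℝ (Fin n))) (y : EuclideanSpace ℝ (Fin n)) :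
    ‖A.indicator (1 : EuclideanSpace ℝ (Fin n) → ℝ) y‖ₑ =
      A.indicator (fun _ => (1:ℝ≥0∞)) y := by
  by_cases h : y ∈ A
  · simp [h]
  · simp [h]

theorem measurable_local {r : ℝ} (hr : 0 < r) {A : Set (EuclideanSpace ℝ (Fin n))}
    (hA : MeasurableSet A) :
    Measurable (fun q : EuclideanSpace ℝ (Fin n) × EuclideanSpace ℝ (Fin n) =>
      kakeyaMax r ((A ∩ ball q.1 2).indicator 1) q.2) := by
  simp_rw [kakeya_eq hr]
  apply Measurable.mul
  · apply Measurable.inv
    have h1 := lowerSemicontinuous_psi (n := n) r (g := fun _ => 1) measurable_const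
    exact h1.measurable.comp (by fun_prop)
  · apply LowerSemicontinuous.measurable
    apply lowerSemicontinuous_iSup
    intro a
    have hre : ∀ q : EuclideanSpace ℝ (Fin n) × EuclideanSpace ℝ (Fin n),
        psi r (fun y => ‖(A ∩ ball q.1 2).indicator (1 : EuclideanSpace ℝ (Fin n) → ℝ) y‖ₑ)
          (a, q.2) = ∫⁻ y, (otube r q.2 a ∩ ball q.1 2).indicator
            (A.indicator (fun _ => (1:ℝ≥0∞))) y := by
      intro q
      unfold psi
      apply lintegral_congr
      intro y
      dsimp only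
      by_cases h1 : y ∈ otube r q.2 a
      · rw [indicator_of_mem h1, enorm_indicator]
        by_cases h2 : y ∈ ball q.1 2
        · rw [indicator_of_mem (show y ∈ otube r q.2 a ∩ ball q.1 2 from ⟨h1, h2⟩)]
          by_cases h3 : y ∈ A
          · rw [indicator_of_mem (show y ∈ A ∩ ball q.1 2 from ⟨h3, h2⟩), indicator_of_mem h3]
          · rw [indicator_of_notMem (show y ∉ A ∩ ball q.1 2 from fun h => h3 h.1),
              indicator_of_notMem h3]
        · rw [indicator_of_notMem (show y ∉ A ∩ ball q.1 2 from fun h => h2 h.2),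
            indicator_of_notMem (show y ∉ otube r q.2 a ∩ ball q.1 2 from fun h => h2 h.2)]
      · rw [indicator_of_notMem h1,
          indicator_of_notMem (show y ∉ otube r q.2 a ∩ ball q.1 2 from fun h => h1 h.1)]
    have hfun : (fun q : EuclideanSpace ℝ (Fin n) × EuclideanSpace ℝ (Fin n) =>
        psi r (fun y => ‖(A ∩ ball q.1 2).indicator (1 : EuclideanSpace ℝ (Fin n) → ℝ) y‖ₑ)
          (a, q.2)) = fun q => ∫⁻ y, (otube r q.2 a ∩ ball q.1 2).indicator
            (A.indicator (fun _ => (1:ℝ≥0∞))) y := funext hre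
    rw [hfun, lowerSemicontinuous_iff_le_liminf]
    intro q
    calc ∫⁻ y, (otube r q.2 a ∩ ball q.1 2).indicator (A.indicator (fun _ => (1:ℝ≥0∞))) y
        ≤ ∫⁻ y, liminf (fun q' : EuclideanSpace ℝ (Fin n) × EuclideanSpace ℝ (Fin n) =>
          (otube r q'.2 a ∩ ball q'.1 2).indicator (A.indicator (fun _ => (1:ℝ≥0∞))) y) (𝓝 q) := by
          apply lintegral_mono
          intro y
          have hopen : IsOpen {q : EuclideanSpace ℝ (Fin n) × EuclideanSpace ℝ (Fin n) |
              y ∈ otube r q.2 a ∩ ball q.1 2} := by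
            have h1 := (isOpen_otube_set r y).preimage
              (f := fun q : EuclideanSpace ℝ (Fin n) × EuclideanSpace ℝ (Fin n) => (a, q.2))
              (by fun_prop)
            have h2 : IsOpen {q : EuclideanSpace ℝ (Fin n) × EuclideanSpace ℝ (Fin n) |
                y ∈ ball q.1 2} := by
              have : {q : EuclideanSpace ℝ (Fin n) × EuclideanSpace ℝ (Fin n) |
                y ∈ ball q.1 2} = {q | dist y q.1 < 2} := by
                ext q'; simp
              rw [this]
              exact isOpen_lt (by fun_prop) continuous_const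
            exact h1.inter h2
          have h1 : LowerSemicontinuous (fun q' : EuclideanSpace ℝ (Fin n) ×
              EuclideanSpace ℝ (Fin n) => (otube r q'.2 a ∩ ball q'.1 2).indicator
                (A.indicator (fun _ => (1:ℝ≥0∞))) y) := by
            have h2 := hopen.lowerSemicontinuous_indicator
              (y := A.indicator (fun _ => (1:ℝ≥0∞)) y) (zero_le)
            have h3 : (fun q' : EuclideanSpace ℝ (Fin n) × EuclideanSpace ℝ (Fin n) =>
                (otube r q'.2 a ∩ ball q'.1 2).indicator (A.indicator (fun _ => (1:ℝ≥0∞))) y) =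
                {q : EuclideanSpace ℝ (Fin n) × EuclideanSpace ℝ (Fin n) |
                  y ∈ otube r q.2 a ∩ ball q.1 2}.indicator
                  (fun _ => A.indicator (fun _ => (1:ℝ≥0∞)) y) := by
              ext q'
              by_cases h : y ∈ otube r q'.2 a ∩ ball q'.1 2
              · rw [indicator_of_mem h, indicator_of_mem (show q' ∈ {q : EuclideanSpace ℝ (Fin n) ×
                  EuclideanSpace ℝ (Fin n) | y ∈ otube r q.2 a ∩ ball q.1 2} from h)]
              · rw [indicator_of_notMem h, indicator_of_notMem (show q' ∉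
                  {q : EuclideanSpace ℝ (Fin n) × EuclideanSpace ℝ (Fin n) |
                    y ∈ otube r q.2 a ∩ ball q.1 2} from h)]
            rw [h3]
            exact h2
          exact h1.le_liminf q
      _ ≤ liminf (fun q' : EuclideanSpace ℝ (Fin n) × EuclideanSpace ℝ (Fin n) =>
          ∫⁻ y, (otube r q'.2 a ∩ ball q'.1 2).indicator (A.indicator (fun _ => (1:ℝ≥0∞))) y)
            (𝓝 q) :=
          lintegral_liminf_le (fun q' => (measurable_const.indicator hA).indicator
            ((isOpen_otube _ _ _).inter isOpen_ball).measurableSet)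

theorem localise (hn : 1 ≤ n) {δ p B : ℝ} (hδ : 0 < δ) (hδ1 : δ ≤ 1) (hp : 0 < p) (hB : 0 ≤ B)
    {A : Set (EuclideanSpace ℝ (Fin n))} (hA : MeasurableSet A)
    (h : ∀ t : EuclideanSpace ℝ (Fin n), ∫⁻ e : sphere (0 : EuclideanSpace ℝ (Fin n)) 1,
      kakeyaMax δ ((A ∩ ball t 2).indicator 1) (e : EuclideanSpace ℝ (Fin n)) ^ p ∂(surf n) ≤
      ENNReal.ofReal B * volume (A ∩ ball t 2)) :
    ∫⁻ e : sphere (0 : EuclideanSpace ℝ (Fin n)) 1,
      kakeyaMax δ (A.indicator 1) (e : EuclideanSpace ℝ (Fin n)) ^ p ∂(surf n) ≤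
      ENNReal.ofReal (4 ^ n * B) * volume A := by
  have : Nontrivial (EuclideanSpace ℝ (Fin n)) :=
    Module.nontrivial_of_finrank_pos (R := ℝ) (by rw [finrank_euclideanSpace, Fintype.card_fin]; omega)
  set v := volume (ball (0 : EuclideanSpace ℝ (Fin n)) (1 / 2)) with hv
  have hv0 : v ≠ 0 := (measure_ball_pos volume _ (by norm_num)).ne'
  have hvt : v ≠ ∞ := measure_ball_lt_top.ne
  have hball2 : ∀ x : EuclideanSpace ℝ (Fin n), volume (ball x 2) = ENNReal.ofReal (4 ^ n) * v := by
    intro x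
    have h1 := Measure.addHaar_ball_mul (volume : Measure (EuclideanSpace ℝ (Fin n))) x
      (r := 4) (by norm_num) (1 / 2)
    rw [finrank_euclideanSpace, Fintype.card_fin] at h1
    rw [hv, ← h1]
    norm_num
  -- pointwise
  have hpt : ∀ e : sphere (0 : EuclideanSpace ℝ (Fin n)) 1,
      kakeyaMax δ (A.indicator 1) (e : EuclideanSpace ℝ (Fin n)) ^ p ≤
      v⁻¹ * ∫⁻ t, kakeyaMax δ ((A ∩ ball t 2).indicator 1) (e : EuclideanSpace ℝ (Fin n)) ^ p := by
    intro e
    have he : ‖(e : EuclideanSpace ℝ (Fin n))‖ = 1 := by simp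
    set I := ∫⁻ t, kakeyaMax δ ((A ∩ ball t 2).indicator 1) (e : EuclideanSpace ℝ (Fin n)) ^ p
      with hI
    rw [← ENNReal.le_rpow_inv_iff hp]
    apply iSup_le
    intro a
    rw [ENNReal.le_rpow_inv_iff hp]
    set T := tube δ (e : EuclideanSpace ℝ (Fin n)) a with hT
    have hTm : MeasurableSet T := (isClosed_tube _ _ _).measurableSet
    have h1 : ∀ t ∈ ball a (1 / 2), ((volume T)⁻¹ *
        ∫⁻ y in T, ‖A.indicator (1 : EuclideanSpace ℝ (Fin n) → ℝ) y‖ₑ) ^ p ≤
        kakeyaMax δ ((A ∩ ball t 2).indicator 1) (e : EuclideanSpace ℝ (Fin n)) ^ p := by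
      intro t ht
      have hsub := tube_subset_ball hδ1 he ht
      apply ENNReal.rpow_le_rpow _ hp.le
      have h2 : ∫⁻ y in T, ‖A.indicator (1 : EuclideanSpace ℝ (Fin n) → ℝ) y‖ₑ =
          ∫⁻ y in T, ‖(A ∩ ball t 2).indicator (1 : EuclideanSpace ℝ (Fin n) → ℝ) y‖ₑ := by
        apply setLIntegral_congr_fun hTm
        intro y hy
        dsimp only
        rw [enorm_indicator, enorm_indicator]
        by_cases h3 : y ∈ A
        · rw [indicator_of_mem h3, indicator_of_mem (show y ∈ A ∩ ball t 2 from ⟨h3, hsub hy⟩)]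
        · rw [indicator_of_notMem h3,
            indicator_of_notMem (show y ∉ A ∩ ball t 2 from fun h => h3 h.1)]
      rw [h2]
      exact le_iSup (fun a => (volume (tube δ (e : EuclideanSpace ℝ (Fin n)) a))⁻¹ *
        ∫⁻ y in tube δ (e : EuclideanSpace ℝ (Fin n)) a,
          ‖(A ∩ ball t 2).indicator (1 : EuclideanSpace ℝ (Fin n) → ℝ) y‖ₑ) a
    calc ((volume T)⁻¹ * ∫⁻ y in T, ‖A.indicator (1 : EuclideanSpace ℝ (Fin n) → ℝ) y‖ₑ) ^ p
        = v⁻¹ * (((volume T)⁻¹ *
          ∫⁻ y in T, ‖A.indicator (1 : EuclideanSpace ℝ (Fin n) → ℝ) y‖ₑ) ^ p *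
          volume (ball a (1 / 2))) := by
          rw [Measure.addHaar_ball_center, ← hv, mul_comm _ v, ← mul_assoc,
            ENNReal.inv_mul_cancel hv0 hvt, one_mul]
      _ = v⁻¹ * ∫⁻ _t in ball a (1 / 2), ((volume T)⁻¹ *
          ∫⁻ y in T, ‖A.indicator (1 : EuclideanSpace ℝ (Fin n) → ℝ) y‖ₑ) ^ p := by
          rw [setLIntegral_const]
      _ ≤ v⁻¹ * ∫⁻ t in ball a (1 / 2),
          kakeyaMax δ ((A ∩ ball t 2).indicator 1) (e : EuclideanSpace ℝ (Fin n)) ^ p := by
          refine mul_le_mul_right ?_ _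
          exact setLIntegral_mono' measurableSet_ball h1
      _ ≤ v⁻¹ * I := by
          refine mul_le_mul_right ?_ _
          exact setLIntegral_le_lintegral _ _
  have hmeas : Measurable (fun q : sphere (0 : EuclideanSpace ℝ (Fin n)) 1 ×
      EuclideanSpace ℝ (Fin n) =>
      kakeyaMax δ ((A ∩ ball q.2 2).indicator 1) (q.1 : EuclideanSpace ℝ (Fin n)) ^ p) := by
    apply Measurable.pow_const
    exact (measurable_local hδ hA).comp
      (f := fun q : sphere (0 : EuclideanSpace ℝ (Fin n)) 1 × EuclideanSpace ℝ (Fin n) =>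
        (q.2, (q.1 : EuclideanSpace ℝ (Fin n)))) (by fun_prop)
  have : SFinite (surf n) := by
    unfold surf
    infer_instance
  have hvol : ∫⁻ t : EuclideanSpace ℝ (Fin n), volume (A ∩ ball t 2) =
      volume A * (ENNReal.ofReal (4 ^ n) * v) := by
    have h1 : ∀ t : EuclideanSpace ℝ (Fin n), volume (A ∩ ball t 2) =
        ∫⁻ x, A.indicator (fun _ => (1:ℝ≥0∞)) x *
          ({q : EuclideanSpace ℝ (Fin n) × EuclideanSpace ℝ (Fin n) |
            dist q.2 q.1 < 2}.indicator (fun _ => (1:ℝ≥0∞)) (t, x)) := by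
      intro t
      rw [← lintegral_indicator_one (hA.inter measurableSet_ball)]
      apply lintegral_congr
      intro x
      by_cases h2 : x ∈ A
      · by_cases h3 : x ∈ ball t 2
        · rw [indicator_of_mem (show x ∈ A ∩ ball t 2 from ⟨h2, h3⟩), indicator_of_mem h2,
            indicator_of_mem (show (t, x) ∈ {q : EuclideanSpace ℝ (Fin n) ×
              EuclideanSpace ℝ (Fin n) | dist q.2 q.1 < 2} from h3)]
          simp
        · rw [indicator_of_notMem (show x ∉ A ∩ ball t 2 from fun h => h3 h.2),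
            indicator_of_notMem (show (t, x) ∉ {q : EuclideanSpace ℝ (Fin n) ×
              EuclideanSpace ℝ (Fin n) | dist q.2 q.1 < 2} from h3), mul_zero]
      · rw [indicator_of_notMem (show x ∉ A ∩ ball t 2 from fun h => h2 h.1),
          indicator_of_notMem h2, zero_mul]
    have hset : MeasurableSet {q : EuclideanSpace ℝ (Fin n) × EuclideanSpace ℝ (Fin n) |
        dist q.2 q.1 < 2} := (isOpen_lt (by fun_prop) continuous_const).measurableSet
    simp_rw [h1]
    rw [lintegral_lintegral_swap]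
    · have h4 : ∀ x : EuclideanSpace ℝ (Fin n), ∫⁻ t : EuclideanSpace ℝ (Fin n),
          A.indicator (fun _ => (1:ℝ≥0∞)) x *
          ({q : EuclideanSpace ℝ (Fin n) × EuclideanSpace ℝ (Fin n) |
            dist q.2 q.1 < 2}.indicator (fun _ => (1:ℝ≥0∞)) (t, x)) =
          A.indicator (fun _ => (1:ℝ≥0∞)) x * (ENNReal.ofReal (4 ^ n) * v) := by
        intro x
        have hm1 : Measurable (fun t : EuclideanSpace ℝ (Fin n) =>
            ({q : EuclideanSpace ℝ (Fin n) × EuclideanSpace ℝ (Fin n) |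
            dist q.2 q.1 < 2}.indicator (fun _ => (1:ℝ≥0∞)) (t, x))) :=
          (measurable_const.indicator hset).comp (by fun_prop)
        rw [lintegral_const_mul _ hm1, ← hball2 x,
          ← lintegral_indicator_one (measurableSet_ball (x := x) (ε := 2))]
        congr 1
        apply lintegral_congr
        intro t
        by_cases h3 : t ∈ ball x 2
        · rw [indicator_of_mem h3, indicator_of_mem (show (t, x) ∈ {q : EuclideanSpace ℝ (Fin n) ×
              EuclideanSpace ℝ (Fin n) | dist q.2 q.1 < 2} from by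
              rw [mem_ball, dist_comm] at h3; exact h3)]
          simp
        · rw [indicator_of_notMem h3, indicator_of_notMem (show (t, x) ∉ {q :
              EuclideanSpace ℝ (Fin n) × EuclideanSpace ℝ (Fin n) | dist q.2 q.1 < 2} from by
              rw [mem_ball, dist_comm] at h3; exact h3)]
      simp_rw [h4]
      rw [lintegral_mul_const _ (measurable_const.indicator hA)]
      congr 1
      exact lintegral_indicator_one hA
    · apply Measurable.aemeasurable
      apply Measurable.mul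
      · exact (measurable_const.indicator hA).comp measurable_snd
      · exact measurable_const.indicator hset
  calc ∫⁻ e : sphere (0 : EuclideanSpace ℝ (Fin n)) 1,
        kakeyaMax δ (A.indicator 1) (e : EuclideanSpace ℝ (Fin n)) ^ p ∂(surf n)
      ≤ ∫⁻ e : sphere (0 : EuclideanSpace ℝ (Fin n)) 1, (v⁻¹ * ∫⁻ t,
        kakeyaMax δ ((A ∩ ball t 2).indicator 1) (e : EuclideanSpace ℝ (Fin n)) ^ p) ∂(surf n) :=
        lintegral_mono hpt
    _ = v⁻¹ * ∫⁻ e : sphere (0 : EuclideanSpace ℝ (Fin n)) 1, (∫⁻ t,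
        kakeyaMax δ ((A ∩ ball t 2).indicator 1) (e : EuclideanSpace ℝ (Fin n)) ^ p)
          ∂(surf n) := by
        rw [lintegral_const_mul' _ _ (ENNReal.inv_ne_top.2 hv0)]
    _ = v⁻¹ * ∫⁻ t, (∫⁻ e : sphere (0 : EuclideanSpace ℝ (Fin n)) 1,
        kakeyaMax δ ((A ∩ ball t 2).indicator 1) (e : EuclideanSpace ℝ (Fin n)) ^ p
          ∂(surf n)) := by
        rw [lintegral_lintegral_swap hmeas.aemeasurable]
    _ ≤ v⁻¹ * ∫⁻ t : EuclideanSpace ℝ (Fin n), ENNReal.ofReal B * volume (A ∩ ball t 2) := by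
        refine mul_le_mul_right ?_ _
        exact lintegral_mono h
    _ = v⁻¹ * (ENNReal.ofReal B * (volume A * (ENNReal.ofReal (4 ^ n) * v))) := by
        rw [lintegral_const_mul' _ _ ENNReal.ofReal_ne_top, hvol]
    _ = (v⁻¹ * v) * ((ENNReal.ofReal (4 ^ n) * ENNReal.ofReal B) * volume A) := by ring
    _ = _ := by
        rw [ENNReal.inv_mul_cancel hv0 hvt, one_mul, ← ENNReal.ofReal_mul (by positivity)]

theorem kakeya_translate (r : ℝ) (f : EuclideanSpace ℝ (Fin n) → ℝ)
    (t e : EuclideanSpace ℝ (Fin n)) :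
    kakeyaMax r (fun x => f (x + t)) e = kakeyaMax r f e := by
  have key : ∀ a : EuclideanSpace ℝ (Fin n), (volume (tube r e a))⁻¹ *
      ∫⁻ y in tube r e a, ‖f (y + t)‖ₑ = (volume (tube r e (a + t)))⁻¹ *
      ∫⁻ y in tube r e (a + t), ‖f y‖ₑ := by
    intro a
    have h1 : tube r e a = (fun y => y + t) ⁻¹' (tube r e (a + t)) := by
      ext y
      simp [tube]
    have h2 : volume (tube r e a) = volume (tube r e (a + t)) := by
      rw [h1, (measurePreserving_add_right volume t).measure_preimage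
        (isClosed_tube r e _).measurableSet.nullMeasurableSet]
    rw [h2]
    congr 1
    rw [h1]
    exact (measurePreserving_add_right volume t).setLIntegral_comp_preimage_emb
      (MeasurableEquiv.addRight t).measurableEmbedding (fun y => ‖f y‖ₑ) _
  unfold kakeyaMax
  simp_rw [key]
  exact (Equiv.addRight t).iSup_congr (fun a => rfl)

theorem sparse_translate {k : ℕ} {δ a κ : ℝ} {A : Set (EuclideanSpace ℝ (Fin n))}
    (h : PlateSparse k δ a κ A) (t : EuclideanSpace ℝ (Fin n)) :
    PlateSparse k δ a κ ((fun x => x + t) ⁻¹' A) := by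
  intro V c ρ R hV h1 h2 h3 h4
  have h5 := h V (c + t) ρ R hV h1 h2 h3 h4
  have h6 : disc ρ R V c = (fun x => x + t) ⁻¹' (disc ρ R V (c + t)) := by
    ext y
    simp [disc]
  rw [h6, ← preimage_inter]
  have hemb := (MeasurableEquiv.addRight t).measurableEmbedding
    (α := EuclideanSpace ℝ (Fin n))
  have e1 : ∀ S : Set (EuclideanSpace ℝ (Fin n)), volume ((fun x => x + t) ⁻¹' S) = volume S :=
    fun S => (measurePreserving_add_right volume t).measure_preimage_emb hemb S
  rw [e1, e1]
  exact h5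

theorem PlateSparse.mono {k : ℕ} {δ a κ : ℝ} {A B : Set (EuclideanSpace ℝ (Fin n))}
    (h : PlateSparse k δ a κ A) (hBA : B ⊆ A) : PlateSparse k δ a κ B := by
  intro V c ρ R hV h1 h2 h3 h4
  exact (measure_mono (inter_subset_inter_right _ hBA)).trans (h V c ρ R hV h1 h2 h3 h4)

end Pool.Agent.H737.KP
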