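import Pool.Agent.H737.KP.Comp

set_option autoImplicit false

/-!
Estimates in `L^p`: the composition of the two maximal functions for `p ≥ 2`, and the Kakeya maximal
function on plate-dense functions for `p ≥ 1`.
-/

open MeasureTheory Set Filter Topology ENNReal NNReal Metric

namespace Pool.Agent.H737.KP

variable {n : ℕ}

/-- The closed tube of length `1` and radius `r` with centre `a` and axis direction `e`. -/
def tube (r : ℝ) (e a : EuclideanSpace ℝ (Fin n)) : Set (EuclideanSpace ℝ (Fin n)) :=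
  {y | |inner ℝ (y - a) e| ≤ 1 / 2 ∧ ‖(y - a) - (inner ℝ (y - a) e : ℝ) • e‖ ≤ r}

/-- The Kakeya maximal function. -/
noncomputable def kakeyaMax (r : ℝ) (f : EuclideanSpace ℝ (Fin n) → ℝ)
    (e : EuclideanSpace ℝ (Fin n)) : ℝ≥0∞ :=
  ⨆ a : EuclideanSpace ℝ (Fin n), (volume (tube r e a))⁻¹ * ∫⁻ y in tube r e a, ‖f y‖ₑ

/-- The surface measure of the unit sphere. -/
noncomputable def surf (n : ℕ) : Measure (sphere (0 : EuclideanSpace ℝ (Fin n)) 1) :=
  (volume : Measure (EuclideanSpace ℝ (Fin n))).toSphere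

theorem isClosed_tube (r : ℝ) (e b : EuclideanSpace ℝ (Fin n)) : IsClosed (tube r e b) := by
  have h1 : Continuous (fun y : EuclideanSpace ℝ (Fin n) => |inner ℝ (y - b) e|) := by fun_prop
  have h2 : Continuous (fun y : EuclideanSpace ℝ (Fin n) =>
    ‖(y - b) - (inner ℝ (y - b) e : ℝ) • e‖) := by fun_prop
  exact (isClosed_le h1 continuous_const).inter (isClosed_le h2 continuous_const)

theorem tube_shift {r : ℝ} {e b : EuclideanSpace ℝ (Fin n)} (he : ‖e‖ = 1)
    (y : EuclideanSpace ℝ (Fin n)) (τ : ℝ) :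
    (y + τ • e ∈ tube r e b) ↔ |inner ℝ (y - b) e + τ| ≤ 1 / 2 ∧
      ‖(y - b) - (inner ℝ (y - b) e : ℝ) • e‖ ≤ r := by
  have h1 : y + τ • e - b = (y - b) + τ • e := by abel
  have h2 : inner ℝ (y + τ • e - b) e = inner ℝ (y - b) e + τ := by
    rw [h1, inner_add_left, inner_smul_left, real_inner_self_eq_norm_sq, he]
    simp
  have h3 : (y + τ • e - b) - (inner ℝ (y + τ • e - b) e : ℝ) • e =
      (y - b) - (inner ℝ (y - b) e : ℝ) • e := by
    rw [h2, h1, add_smul]; abel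
  unfold tube
  rw [mem_ofPred_eq, h3, h2]

/-- The average over a tube is at most twice the largest average over the unit segments. -/
theorem lintegral_tube_le {r : ℝ} {e b : EuclideanSpace ℝ (Fin n)} (he : ‖e‖ = 1)
    {g : EuclideanSpace ℝ (Fin n) → ℝ≥0∞} (hg : Measurable g) :
    ∫⁻ y in tube r e b, g y ≤ 2 * volume (tube r e b) * segMax g e := by
  classical
  set T := tube r e b with hT
  set Q := segMax g e with hQ
  have hTm : MeasurableSet T := (isClosed_tube r e b).measurableSet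
  have hTg : Measurable (T.indicator g) := hg.indicator hTm
  set F : EuclideanSpace ℝ (Fin n) → ℝ → ℝ≥0∞ := fun y τ => T.indicator g (y + τ • e) with hF
  have hFm : Measurable (fun q : EuclideanSpace ℝ (Fin n) × ℝ => F q.1 q.2) :=
    hTg.comp (by fun_prop)
  have h1 : ∫⁻ y in T, g y = ∫⁻ τ in Icc (0:ℝ) 1, ∫⁻ y, F y τ := by
    have h2 : ∀ τ : ℝ, ∫⁻ y, F y τ = ∫⁻ y in T, g y := by
      intro τ
      have h3 := lintegral_add_right_eq_self (μ := (volume : Measure (EuclideanSpace ℝ (Fin n))))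
        (T.indicator g) (τ • e)
      rw [lintegral_indicator hTm] at h3
      exact h3
    simp only [h2]
    rw [setLIntegral_const, Real.volume_Icc]
    simp
  have hsw : ∫⁻ τ in Icc (0:ℝ) 1, ∫⁻ y, F y τ = ∫⁻ y, ∫⁻ τ in Icc (0:ℝ) 1, F y τ :=
    (lintegral_lintegral_swap hFm.aemeasurable).symm
  rw [h1, hsw]
  have h4 : ∀ y, ∫⁻ τ in Icc (0:ℝ) 1, F y τ ≤ (T.indicator 1 y + T.indicator 1 (y + e)) * Q := by
    intro y
    have hle : ∫⁻ τ in Icc (0:ℝ) 1, F y τ ≤ Q := by
      calc ∫⁻ τ in Icc (0:ℝ) 1, F y τ ≤ ∫⁻ τ in Icc (0:ℝ) 1, g (y + τ • e) := by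
            apply lintegral_mono
            intro τ
            exact indicator_le_self _ _ _
        _ ≤ Q := le_iSup (fun z : EuclideanSpace ℝ (Fin n) => seg g z e) y
    by_cases hy : y ∈ T ∨ y + e ∈ T
    · refine hle.trans ?_
      have : (1:ℝ≥0∞) ≤ T.indicator 1 y + T.indicator 1 (y + e) := by
        rcases hy with hy | hy
        · rw [indicator_of_mem hy]; simp
        · rw [indicator_of_mem hy]; simp
      calc Q = 1 * Q := (one_mul _).symm
        _ ≤ _ := by gcongr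
    · push Not at hy
      have h5 : ∀ τ ∈ Icc (0:ℝ) 1, F y τ = 0 := by
        intro τ hτ
        simp only [hF]
        apply indicator_of_notMem
        intro h6
        rw [hT, tube_shift he] at h6
        obtain ⟨h7, h8⟩ := h6
        rw [abs_le] at h7
        by_cases h9 : -(1/2) ≤ inner ℝ (y - b) e
        · apply hy.1
          have : y + (0:ℝ) • e ∈ tube r e b := by
            rw [tube_shift he]
            refine ⟨?_, h8⟩
            rw [abs_le]
            constructor <;> linarith [hτ.1, hτ.2]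
          simpa using this
        · apply hy.2
          push Not at h9
          have : y + (1:ℝ) • e ∈ tube r e b := by
            rw [tube_shift he]
            refine ⟨?_, h8⟩
            rw [abs_le]
            constructor <;> linarith [hτ.1, hτ.2]
          simpa using this
      rw [setLIntegral_congr_fun measurableSet_Icc h5]
      simp
  have h10 : ∫⁻ y, T.indicator (1 : EuclideanSpace ℝ (Fin n) → ℝ≥0∞) (y + e) = volume T := by
    have := lintegral_add_right_eq_self (μ := (volume : Measure (EuclideanSpace ℝ (Fin n))))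
        (T.indicator (1 : EuclideanSpace ℝ (Fin n) → ℝ≥0∞)) e
    rw [lintegral_indicator_one hTm] at this
    exact this
  have hTi : Measurable (T.indicator (1 : EuclideanSpace ℝ (Fin n) → ℝ≥0∞)) :=
    measurable_one.indicator hTm
  calc ∫⁻ y, ∫⁻ τ in Icc (0:ℝ) 1, F y τ
      ≤ ∫⁻ y, (T.indicator 1 y + T.indicator 1 (y + e)) * Q := lintegral_mono h4
    _ = (∫⁻ y, (T.indicator 1 y + T.indicator 1 (y + e))) * Q := by
        rw [lintegral_mul_const]
        exact hTi.add (hTi.comp (measurable_add_const e))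
    _ = 2 * volume T * Q := by
        rw [lintegral_add_left hTi, lintegral_indicator_one hTm, h10, two_mul]

theorem volume_tube_lt_top {r : ℝ} {e a : EuclideanSpace ℝ (Fin n)} (he : ‖e‖ = 1) :
    volume (tube r e a) < ∞ := by
  have : tube r e a ⊆ closedBall a (1 / 2 + r) := by
    rintro y ⟨h1, h2⟩
    rw [mem_closedBall, dist_eq_norm]
    calc ‖y - a‖ = ‖(inner ℝ (y - a) e : ℝ) • e + ((y - a) - (inner ℝ (y - a) e : ℝ) • e)‖ := by
          congr 1; abel
      _ ≤ ‖(inner ℝ (y - a) e : ℝ) • e‖ + ‖(y - a) - (inner ℝ (y - a) e : ℝ) • e‖ :=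
          norm_add_le _ _
      _ ≤ 1 / 2 + r := by
          rw [norm_smul, he, mul_one, Real.norm_eq_abs]
          linarith
  exact (measure_mono this).trans_lt measure_closedBall_lt_top

theorem volume_tube_ne_zero {r : ℝ} (hr : 0 < r) {e a : EuclideanSpace ℝ (Fin n)} (he : ‖e‖ = 1) :
    volume (tube r e a) ≠ 0 := by
  have h1 : ball a (min (1/2) (r/2)) ⊆ tube r e a := by
    intro y hy
    rw [mem_ball, dist_eq_norm, lt_min_iff] at hy
    have h2 : |inner ℝ (y - a) e| ≤ ‖y - a‖ := by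
      have := abs_real_inner_le_norm (y - a) e
      rwa [he, mul_one] at this
    refine ⟨by linarith [hy.1], ?_⟩
    calc ‖(y - a) - (inner ℝ (y - a) e : ℝ) • e‖ ≤ ‖y - a‖ + ‖(inner ℝ (y - a) e : ℝ) • e‖ :=
          norm_sub_le _ _
      _ ≤ ‖y - a‖ + ‖y - a‖ := by
          rw [norm_smul, he, mul_one, Real.norm_eq_abs]; gcongr
      _ ≤ r := by linarith [hy.2]
  exact (lt_of_lt_of_le (measure_ball_pos volume a (by positivity)) (measure_mono h1)).ne'

/-- Jensen's inequality for averages over a set. -/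
theorem avg_rpow_le {T : Set (EuclideanSpace ℝ (Fin n))} (hT0 : volume T ≠ 0) (hTt : volume T ≠ ∞)
    {q : ℝ} (hq : 1 ≤ q) {g : EuclideanSpace ℝ (Fin n) → ℝ≥0∞} (hg : AEMeasurable g) :
    ((volume T)⁻¹ * ∫⁻ y in T, g y) ^ q ≤ (volume T)⁻¹ * ∫⁻ y in T, g y ^ q := by
  rcases hq.eq_or_lt with rfl | hq1
  · simp
  have hq0 : 0 < q := by linarith
  have hpq : q.HolderConjugate q.conjExponent := Real.HolderConjugate.conjExponent hq1
  have h1 := ENNReal.lintegral_mul_le_Lp_mul_Lq (volume.restrict T) hpq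
    hg.restrict (aemeasurable_const (b := (1:ℝ≥0∞)))
  simp only [Pi.mul_apply, mul_one, ENNReal.one_rpow, lintegral_const, Measure.restrict_apply_univ,
    one_mul] at h1
  have h2 : ∫⁻ y in T, g y ≤ (∫⁻ y in T, g y ^ q) ^ (1 / q) * volume T ^ (1 - 1 / q) := by
    have h3 : 1 / q.conjExponent = 1 - 1 / q := by
      have := hpq.inv_add_inv_eq_one
      rw [one_div, one_div]; linarith
    rw [h3] at h1
    exact h1
  calc ((volume T)⁻¹ * ∫⁻ y in T, g y) ^ q
      ≤ ((volume T)⁻¹ * ((∫⁻ y in T, g y ^ q) ^ (1 / q) * volume T ^ (1 - 1 / q))) ^ q := by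
        gcongr
    _ = (volume T)⁻¹ * ∫⁻ y in T, g y ^ q := by
        rw [ENNReal.mul_rpow_of_nonneg _ _ hq0.le, ENNReal.mul_rpow_of_nonneg _ _ hq0.le,
          ← ENNReal.rpow_mul, ← ENNReal.rpow_mul, one_div, inv_mul_cancel₀ hq0.ne',
          ENNReal.rpow_one, ENNReal.inv_rpow, ← ENNReal.rpow_neg]
        have h4 : (1 - q⁻¹) * q = q - 1 := by field_simp
        rw [h4, mul_left_comm, ← ENNReal.rpow_add _ _ hT0 hTt, mul_comm]
        have h5 : -q + (q - 1) = -1 := by ring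
        rw [h5, ENNReal.rpow_neg_one]

theorem pmax_congr {k : ℕ} {δ a : ℝ} {g g' : EuclideanSpace ℝ (Fin n) → ℝ≥0∞}
    (h : g =ᵐ[volume] g') (x : EuclideanSpace ℝ (Fin n)) : pmax k δ a g x = pmax k δ a g' x := by
  unfold pmax pavg
  have : ∀ (ρ R : ℝ) (V : Submodule ℝ (EuclideanSpace ℝ (Fin n))) (c : EuclideanSpace ℝ (Fin n)),
      ∫⁻ y in disc ρ R V c, g y = ∫⁻ y in disc ρ R V c, g' y := by
    intro ρ R V c
    exact lintegral_congr_ae (ae_restrict_of_ae h)
  simp_rw [this]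

theorem volume_disc_ne_zero {k m : ℕ} (hkm : k + m = n) (hk : 1 ≤ k) (hm : 1 ≤ m) {ρ R : ℝ}
    (hρ : 0 < ρ) (hρR : ρ ≤ R) (V : Submodule ℝ (EuclideanSpace ℝ (Fin n)))
    (hV : Module.finrank ℝ V = k) (c : EuclideanSpace ℝ (Fin n)) : volume (disc ρ R V c) ≠ 0 := by
  have hn : (0:ℝ) < n := by
    have : 0 < n := by omega
    exact_mod_cast this
  have hR : 0 < R := by linarith
  have h1 := le_volume_disc hkm hk hm hρ V hV hρR c
  have h2 : 0 < ENNReal.ofReal ((2 / (n:ℝ)) ^ n * (R ^ k * ρ ^ m)) :=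
    ENNReal.ofReal_pos.2 (by positivity)
  exact (h2.trans_le h1).ne'

theorem pmax_rpow_le {k m : ℕ} (hkm : k + m = n) (hk : 1 ≤ k) (hm : 1 ≤ m) {δ a : ℝ} (hδ : 0 < δ)
    {q : ℝ} (hq : 1 ≤ q) {g : EuclideanSpace ℝ (Fin n) → ℝ≥0∞} (hg : AEMeasurable g)
    (x : EuclideanSpace ℝ (Fin n)) :
    pmax k δ a g x ^ q ≤ pmax k δ a (fun y => g y ^ q) x := by
  have hq0 : 0 < q := by linarith
  rw [← ENNReal.rpow_le_rpow_iff (z := q⁻¹) (by positivity), ← ENNReal.rpow_mul,
    mul_inv_cancel₀ hq0.ne', ENNReal.rpow_one]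
  apply pmax_le
  intro V hV ρ R hρ hρR haR hR1 c hx
  have h0 := volume_disc_ne_zero hkm hk hm (hδ.trans_le hρ) hρR V hV c
  have h1 : pavg ρ R g V c ^ q ≤ pmax k δ a (fun y => g y ^ q) x :=
    (avg_rpow_le h0 (volume_disc_lt_top ρ R V c).ne hq hg).trans (le_pmax V hV hρ hρR haR hR1 hx)
  rw [← ENNReal.rpow_le_rpow_iff (z := q⁻¹) (by positivity), ← ENNReal.rpow_mul,
    mul_inv_cancel₀ hq0.ne', ENNReal.rpow_one] at h1
  exact h1

/-- The total constant. -/
noncomputable def cst3 (n : ℕ) : ℝ := 1 + cst n * (4 * cst2 n)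

theorem cst3_pos (hn : 1 ≤ n) : 0 < cst3 n := by
  have h1 := cst_pos hn
  have h2 : 0 ≤ cst2 n := by unfold cst2; positivity
  unfold cst3
  positivity

/-- The loss in `δ` and in the radius `a`. -/
noncomputable def loss (n k : ℕ) (δ a : ℝ) : ℝ :=
  (1 + Real.log (1 / δ)) ^ 2 * δ ^ (-((n:ℝ) - 1 - k)) * a ^ (-(2 * (k:ℝ)))

theorem loss_pos (n k : ℕ) {δ a : ℝ} (hδ : 0 < δ) (hδ1 : δ ≤ 1) (ha : 0 < a) :
    0 < loss n k δ a := by
  have hlog : 0 ≤ Real.log (1 / δ) := Real.log_nonneg (by rw [le_div_iff₀ hδ]; linarith)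
  unfold loss
  positivity

theorem const_le {k m : ℕ} (hkm : k + m = n) (hn : 1 ≤ n) {δ a : ℝ} (hδ : 0 < δ) (ha : 0 < a) :
    ENNReal.ofReal (cst n * (δ / δ ^ m) * ((a ^ k)⁻¹) ^ 2) *
      ENNReal.ofReal (4 * cst2 n * (1 + Real.log (1 / δ)) ^ 2)
      ≤ ENNReal.ofReal (cst3 n * loss n k δ a) := by
  have h1 := cst_pos hn
  have h2 : 0 ≤ cst2 n := by unfold cst2; positivity
  have h3 : δ / δ ^ m = δ ^ (-((n:ℝ) - 1 - k)) := by
    have : -((n:ℝ) - 1 - k) = 1 - m := by
      rw [← hkm]; push_cast; ring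
    rw [this, Real.rpow_sub hδ, Real.rpow_one, Real.rpow_natCast]
  have h4 : 0 ≤ δ ^ (-((n:ℝ) - 1 - k)) := by positivity
  have h6 : ((a ^ k)⁻¹) ^ 2 = a ^ (-(2 * (k:ℝ))) := by
    rw [Real.rpow_neg ha.le, mul_comm, Real.rpow_mul ha.le, Real.rpow_natCast, inv_pow]
    congr 1
    norm_cast
  rw [← ENNReal.ofReal_mul (by positivity), h3, h6]
  apply ENNReal.ofReal_le_ofReal
  unfold loss
  have h5 : 0 ≤ (1 + Real.log (1 / δ)) ^ 2 * δ ^ (-((n:ℝ) - 1 - k)) * a ^ (-(2 * (k:ℝ))) := by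
    positivity
  calc cst n * δ ^ (-((n:ℝ) - 1 - k)) * a ^ (-(2 * (k:ℝ))) *
        (4 * cst2 n * (1 + Real.log (1 / δ)) ^ 2)
      = (cst n * (4 * cst2 n)) * ((1 + Real.log (1 / δ)) ^ 2 * δ ^ (-((n:ℝ) - 1 - k)) *
        a ^ (-(2 * (k:ℝ)))) := by ring
    _ ≤ _ := by
      gcongr
      unfold cst3
      linarith

/-- **The composition of the Kakeya maximal function with the plate maximal function**, `p ≥ 2`. -/
theorem comp_p {k m : ℕ} (hkm : k + m = n) (hk : 1 ≤ k) (hm : 1 ≤ m) {δ a : ℝ} (hδ : 0 < δ)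
    (hδ1 : δ ≤ 1) (ha : 0 < a) (ha1 : a ≤ 1) {p : ℝ} (hp : 2 ≤ p)
    (f : EuclideanSpace ℝ (Fin n) → ℝ≥0∞) (hf : AEMeasurable f) :
    ∫⁻ e : sphere (0 : EuclideanSpace ℝ (Fin n)) 1, segMax (fun x => pmax k δ a f x ^ p) e
      ∂(surf n) ≤ ENNReal.ofReal (cst3 n * loss n k δ a) * ∫⁻ x, f x ^ p := by
  have hn : 1 ≤ n := by omega
  by_cases hfin : ∫⁻ x, f x ^ p = ∞
  · rw [hfin, ENNReal.mul_top]
    · exact le_top
    · apply (ENNReal.ofReal_pos.2 _).ne'
      have := cst3_pos hn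
      have := loss_pos n k hδ hδ1 ha
      positivity
  set g : EuclideanSpace ℝ (Fin n) → ℝ≥0∞ := fun x => hf.mk f x ^ (p / 2) with hg
  have hgm : Measurable g := hf.measurable_mk.pow_const _
  have hfg : (fun x => f x ^ (p / 2)) =ᵐ[volume] g := by
    filter_upwards [hf.ae_eq_mk] with x hx
    rw [hg]
    dsimp only
    rw [hx]
  have hg2 : ∫⁻ x, g x ^ 2 = ∫⁻ x, f x ^ p := by
    apply lintegral_congr_ae
    filter_upwards [hf.ae_eq_mk] with x hx
    rw [hg]
    dsimp only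
    rw [hx, ← ENNReal.rpow_two, ← ENNReal.rpow_mul]
    congr 1
    ring
  have h1 := comp_ineq hkm hk hm hδ hδ1 ha ha1 g hgm (by rw [hg2]; exact hfin)
  rw [hg2] at h1
  refine le_trans ?_ (h1.trans ?_)
  · apply lintegral_mono
    intro e
    apply iSup_mono
    intro z
    apply lintegral_mono
    intro s
    dsimp only
    have h2 := pmax_rpow_le (a := a) hkm hk hm hδ (by linarith : 1 ≤ p / 2) hf
      (z + s • (e : EuclideanSpace ℝ (Fin n)))
    rw [pmax_congr hfg] at h2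
    calc pmax k δ a f (z + s • (e : EuclideanSpace ℝ (Fin n))) ^ p
        = (pmax k δ a f (z + s • (e : EuclideanSpace ℝ (Fin n))) ^ (p / 2)) ^ 2 := by
          rw [← ENNReal.rpow_two, ← ENNReal.rpow_mul]
          congr 1
          ring
      _ ≤ _ := by gcongr
  · gcongr
    exact const_le hkm hn hδ ha

end Pool.Agent.H737.KP
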