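import Pool.Agent.H737.KP.Dense

set_option autoImplicit false

/-!
Measurability of the Kakeya maximal function, and lower bounds for the volume of a tube.
-/

open MeasureTheory Set Filter Topology ENNReal NNReal Metric

namespace Pool.Agent.H737.KP

variable {n : ℕ}

/-- The open tube. -/
def otube (r : ℝ) (e a : EuclideanSpace ℝ (Fin n)) : Set (EuclideanSpace ℝ (Fin n)) :=
  {y | |inner ℝ (y - a) e| < 1 / 2 ∧ ‖(y - a) - (inner ℝ (y - a) e : ℝ) • e‖ < r}

theorem isOpen_otube_set (r : ℝ) (y : EuclideanSpace ℝ (Fin n)) :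
    IsOpen {q : EuclideanSpace ℝ (Fin n) × EuclideanSpace ℝ (Fin n) | y ∈ otube r q.2 q.1} := by
  unfold otube
  simp only [mem_ofPred_eq]
  refine IsOpen.and ?_ ?_
  · exact isOpen_lt (by fun_prop) continuous_const
  · exact isOpen_lt (by fun_prop) continuous_const

theorem isOpen_otube (r : ℝ) (e a : EuclideanSpace ℝ (Fin n)) : IsOpen (otube r e a) := by
  unfold otube
  refine IsOpen.and ?_ ?_
  · exact isOpen_lt (by fun_prop) continuous_const
  · exact isOpen_lt (by fun_prop) continuous_const

theorem convex_otube (r : ℝ) (e a : EuclideanSpace ℝ (Fin n)) : Convex ℝ (otube r e a) := by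
  set L1 : EuclideanSpace ℝ (Fin n) →ₗ[ℝ] ℝ := (innerₗ (EuclideanSpace ℝ (Fin n))).flip e with hL1
  have h1 : ∀ y, L1 y = inner ℝ y e := fun y => rfl
  set L2 : EuclideanSpace ℝ (Fin n) →ₗ[ℝ] EuclideanSpace ℝ (Fin n) :=
    LinearMap.id - L1.smulRight e with hL2
  have h2 : ∀ y, L2 y = y - (inner ℝ y e : ℝ) • e := fun y => rfl
  have h3 : otube r e a = (L1 ⁻¹' ball (L1 a) (1 / 2)) ∩ (L2 ⁻¹' ball (L2 a) r) := by
    ext y
    rw [mem_inter_iff, mem_preimage, mem_preimage, mem_ball, mem_ball, dist_eq_norm, dist_eq_norm,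
      ← map_sub, ← map_sub, h1, h2, Real.norm_eq_abs]
    rfl
  rw [h3]
  exact ((convex_ball _ _).linear_preimage L1).inter ((convex_ball _ _).linear_preimage L2)

theorem tube_ae_eq {r : ℝ} (hr : 0 < r) (e a : EuclideanSpace ℝ (Fin n)) :
    (tube r e a : Set (EuclideanSpace ℝ (Fin n))) =ᵐ[volume] (otube r e a : Set _) := by
  have hsub : otube r e a ⊆ tube r e a := fun y hy => ⟨hy.1.le, hy.2.le⟩
  have hcl : tube r e a ⊆ closure (otube r e a) := by
    intro y hy
    have h1 : Tendsto (fun t : ℝ => a + t • (y - a)) (𝓝[<] 1) (𝓝 (a + (1:ℝ) • (y - a))) := by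
      apply tendsto_nhdsWithin_of_tendsto_nhds
      exact (by fun_prop : Continuous fun t : ℝ => a + t • (y - a)).tendsto 1
    rw [one_smul, add_sub_cancel] at h1
    apply mem_closure_of_tendsto h1
    have h2 : ∀ᶠ t : ℝ in 𝓝[<] 1, 0 < t := by
      apply nhdsWithin_le_nhds
      exact lt_mem_nhds one_pos
    filter_upwards [h2, self_mem_nhdsWithin] with t ht0 ht1
    have ht1' : t < 1 := ht1
    have e1 : a + t • (y - a) - a = t • (y - a) := by abel
    refine ⟨?_, ?_⟩
    · rw [e1, real_inner_smul_left, abs_mul, abs_of_pos ht0]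
      have := hy.1
      have h0 : 0 ≤ |inner ℝ (y - a) e| := abs_nonneg _
      nlinarith
    · rw [e1, real_inner_smul_left]
      have e2 : t • (y - a) - (t * inner ℝ (y - a) e : ℝ) • e =
          t • ((y - a) - (inner ℝ (y - a) e : ℝ) • e) := by
        rw [smul_sub t (y - a), smul_smul]
      rw [e2, norm_smul, Real.norm_eq_abs, abs_of_pos ht0]
      have := hy.2
      have h0 : 0 ≤ ‖(y - a) - (inner ℝ (y - a) e : ℝ) • e‖ := norm_nonneg _
      nlinarith
  have hnull : volume (tube r e a \ otube r e a) = 0 := by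
    refine measure_mono_null ?_ ((convex_otube r e a).addHaar_frontier volume)
    rw [frontier, (isOpen_otube r e a).interior_eq]
    exact sdiff_subset_sdiff_left hcl
  apply Filter.EventuallyLE.antisymm
  · exact (ae_le_set.2 hnull)
  · exact hsub.eventuallyLE

/-- The integral of `g` over the open tube. -/
noncomputable def psi (r : ℝ) (g : EuclideanSpace ℝ (Fin n) → ℝ≥0∞)
    (q : EuclideanSpace ℝ (Fin n) × EuclideanSpace ℝ (Fin n)) : ℝ≥0∞ :=
  ∫⁻ y, (otube r q.2 q.1).indicator g y

theorem lowerSemicontinuous_psi (r : ℝ) {g : EuclideanSpace ℝ (Fin n) → ℝ≥0∞}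
    (hg : Measurable g) : LowerSemicontinuous (psi r g) := by
  rw [lowerSemicontinuous_iff_le_liminf]
  intro q
  calc psi r g q ≤ ∫⁻ y, liminf (fun q' : EuclideanSpace ℝ (Fin n) × EuclideanSpace ℝ (Fin n) =>
        (otube r q'.2 q'.1).indicator g y) (𝓝 q) := by
        apply lintegral_mono
        intro y
        have h1 : LowerSemicontinuous (fun q' : EuclideanSpace ℝ (Fin n) ×
            EuclideanSpace ℝ (Fin n) => (otube r q'.2 q'.1).indicator g y) := by
          have h2 := (isOpen_otube_set r y).lowerSemicontinuous_indicator (y := g y) (zero_le)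
          have h3 : (fun q' : EuclideanSpace ℝ (Fin n) × EuclideanSpace ℝ (Fin n) =>
              (otube r q'.2 q'.1).indicator g y) =
              {q : EuclideanSpace ℝ (Fin n) × EuclideanSpace ℝ (Fin n) |
                y ∈ otube r q.2 q.1}.indicator (fun _ => g y) := by
            ext q'
            by_cases h : y ∈ otube r q'.2 q'.1
            · rw [indicator_of_mem h, indicator_of_mem (show q' ∈ {q : EuclideanSpace ℝ (Fin n) ×
                EuclideanSpace ℝ (Fin n) | y ∈ otube r q.2 q.1} from h)]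
            · rw [indicator_of_notMem h, indicator_of_notMem (show q' ∉
                {q : EuclideanSpace ℝ (Fin n) × EuclideanSpace ℝ (Fin n) |
                  y ∈ otube r q.2 q.1} from h)]
          rw [h3]
          exact h2
        exact h1.le_liminf q
    _ ≤ liminf (fun q' => psi r g q') (𝓝 q) :=
        lintegral_liminf_le (fun q' => hg.indicator (isOpen_otube _ _ _).measurableSet)

theorem kakeya_eq {r : ℝ} (hr : 0 < r) (f : EuclideanSpace ℝ (Fin n) → ℝ)
    (e : EuclideanSpace ℝ (Fin n)) :
    kakeyaMax r f e = (psi r (fun _ => 1) (0, e))⁻¹ * ⨆ a, psi r (fun y => ‖f y‖ₑ) (a, e) := by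
  unfold kakeyaMax
  rw [ENNReal.mul_iSup]
  congr 1
  ext a
  have hvol : volume (tube r e a) = psi r (fun _ => 1) (0, e) := by
    have h1 : tube r e a = (fun y => y - a) ⁻¹' (tube r e 0) := by
      ext y
      simp [tube]
    rw [h1, (measurePreserving_sub_right volume a).measure_preimage
      (isClosed_tube r e 0).measurableSet.nullMeasurableSet, measure_congr (tube_ae_eq hr e 0)]
    unfold psi
    rw [lintegral_indicator (isOpen_otube _ _ _).measurableSet]
    simp
  rw [hvol]
  congr 1
  unfold psi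
  rw [lintegral_indicator (isOpen_otube _ _ _).measurableSet]
  exact setLIntegral_congr (tube_ae_eq hr e a)

theorem kakeya_congr {r : ℝ} {f g : EuclideanSpace ℝ (Fin n) → ℝ} (h : f =ᵐ[volume] g)
    (e : EuclideanSpace ℝ (Fin n)) : kakeyaMax r f e = kakeyaMax r g e := by
  unfold kakeyaMax
  congr 1
  ext a
  congr 1
  apply lintegral_congr_ae
  apply ae_restrict_of_ae
  filter_upwards [h] with y hy
  rw [hy]

theorem measurable_kakeya {r : ℝ} (hr : 0 < r) {f : EuclideanSpace ℝ (Fin n) → ℝ}
    (hf : AEMeasurable f) :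
    Measurable (fun e : EuclideanSpace ℝ (Fin n) => kakeyaMax r f e) := by
  have h0 : (fun e : EuclideanSpace ℝ (Fin n) => kakeyaMax r f e) =
      fun e => kakeyaMax r (hf.mk f) e := by
    ext e
    exact kakeya_congr hf.ae_eq_mk e
  rw [h0]
  simp_rw [kakeya_eq hr]
  apply Measurable.mul
  · apply Measurable.inv
    have h1 := lowerSemicontinuous_psi (n := n) r (g := fun _ => 1) measurable_const
    exact h1.measurable.comp (by fun_prop)
  · have h2 := lowerSemicontinuous_psi r (hf.measurable_mk.enorm)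
    have h3 : LowerSemicontinuous (fun e : EuclideanSpace ℝ (Fin n) =>
        ⨆ a, psi r (fun y => ‖hf.mk f y‖ₑ) (a, e)) := by
      apply lowerSemicontinuous_iSup
      intro a
      exact h2.comp (by fun_prop)
    exact h3.measurable

/-- Lower bound for the volume of a tube. -/
theorem le_volume_tube {m : ℕ} (hm : n = m + 1) {r : ℝ} (hr : 0 < r)
    (e a : EuclideanSpace ℝ (Fin n)) (he : ‖e‖ = 1) :
    ENNReal.ofReal ((2 / n) ^ m * r ^ m) ≤ volume (tube r e a) := by
  subst hm
  have hon : Orthonormal ℝ (({0} : Set (Fin (m + 1))).domRestrict (fun _ => e)) := by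
    rw [orthonormal_iff_ite]
    rintro ⟨i, hi⟩ ⟨j, hj⟩
    simp only [mem_singleton_iff] at hi hj
    subst hi; subst hj
    change (inner ℝ e e : ℝ) = _
    rw [real_inner_self_eq_norm_sq, he]
    simp
  obtain ⟨b, hb⟩ := hon.exists_orthonormalBasis_extension_of_card_eq (by simp)
  have hb0 : b 0 = e := hb 0 rfl
  refine le_trans ?_ (box_le_volume b a (Fin.cons (1 / 2) (fun _ => r / (m + 1 : ℕ))) _ ?_)
  · rw [Fin.prod_univ_succ]
    simp only [Fin.cons_zero, Fin.cons_succ, Finset.prod_const, Finset.card_univ, Fintype.card_fin]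
    rw [← ENNReal.ofReal_pow (by positivity)]
    norm_num
    apply ENNReal.ofReal_le_ofReal
    apply le_of_eq
    rw [← mul_pow]
    congr 1
    ring
  · intro y hy
    set v := y - a with hv
    have hv0 : (inner ℝ v e : ℝ) = inner ℝ (b 0) v := by
      rw [hb0, real_inner_comm]
    have hsum : v = (inner ℝ (b 0) v : ℝ) • e + ∑ i : Fin m, (inner ℝ (b i.succ) v : ℝ) • b i.succ := by
      conv_lhs => rw [← b.sum_repr' v]
      rw [Fin.sum_univ_succ, hb0]
    refine ⟨?_, ?_⟩
    · have := hy 0
      rw [← hv, hv0]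
      simpa using this.le
    · rw [← hv]
      have h1 : v - (inner ℝ v e : ℝ) • e = ∑ i : Fin m, (inner ℝ (b i.succ) v : ℝ) • b i.succ := by
        rw [hv0]
        nth_rewrite 1 [hsum]
        abel
      rw [h1]
      calc ‖∑ i : Fin m, (inner ℝ (b i.succ) v : ℝ) • b i.succ‖
          ≤ ∑ i : Fin m, ‖(inner ℝ (b i.succ) v : ℝ) • b i.succ‖ := norm_sum_le _ _
        _ ≤ ∑ i : Fin m, r / (m + 1 : ℕ) := by
            apply Finset.sum_le_sum
            intro i _
            rw [norm_smul, b.norm_eq_one, mul_one, Real.norm_eq_abs]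
            have := hy i.succ
            simp only [Fin.cons_succ] at this
            exact this.le
        _ = m * (r / (m + 1 : ℕ)) := by simp
        _ ≤ r := by
            rw [mul_div_assoc', div_le_iff₀ (by positivity)]
            push_cast
            nlinarith

end Pool.Agent.H737.KP
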