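import Mathlib

set_option autoImplicit false

/-!
Plates: neighbourhoods of unit discs of dimension `k`. Volumes of plates and of their intersections.
-/

open MeasureTheory Set Filter Topology ENNReal NNReal Metric

namespace Pool.Agent.H737.KP

variable {n : ℕ}

/-- The `δ`-plate of centre `c` and direction `V`: the points at distance less than `δ` from the
affine subspace `c + V` and at distance less than one from `c`. -/
def plate (δ : ℝ) (V : Submodule ℝ (EuclideanSpace ℝ (Fin n))) (c : EuclideanSpace ℝ (Fin n)) :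
    Set (EuclideanSpace ℝ (Fin n)) :=
  {x | (∃ v ∈ V, ‖x - c - v‖ < δ) ∧ ‖x - c‖ < 1}

theorem isOpen_plate (δ : ℝ) (V : Submodule ℝ (EuclideanSpace ℝ (Fin n)))
    (c : EuclideanSpace ℝ (Fin n)) : IsOpen (plate δ V c) := by
  have h1 : plate δ V c = (⋃ v : V, {x : EuclideanSpace ℝ (Fin n) | ‖x - c - v‖ < δ}) ∩
      {x | ‖x - c‖ < 1} := by
    ext x
    simp [plate]
  rw [h1]
  refine IsOpen.inter (isOpen_iUnion fun v => ?_) ?_
  · exact isOpen_lt (by fun_prop) continuous_const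
  · exact isOpen_lt (by fun_prop) continuous_const

theorem plate_subset_ball (δ : ℝ) (V : Submodule ℝ (EuclideanSpace ℝ (Fin n)))
    (c : EuclideanSpace ℝ (Fin n)) : plate δ V c ⊆ ball c 1 := by
  rintro x ⟨-, hx⟩
  simpa [mem_ball, dist_eq_norm] using hx

theorem volume_plate_lt_top (δ : ℝ) (V : Submodule ℝ (EuclideanSpace ℝ (Fin n)))
    (c : EuclideanSpace ℝ (Fin n)) : volume (plate δ V c) < ∞ :=
  (measure_mono (plate_subset_ball δ V c)).trans_lt measure_ball_lt_top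

/-- An orthonormal basis adapted to a subspace and to a unit vector of it. -/
theorem exists_basis {k m : ℕ} (hkm : k + m = n) (hk : 1 ≤ k)
    (V : Submodule ℝ (EuclideanSpace ℝ (Fin n))) (hV : Module.finrank ℝ V = k)
    (u : EuclideanSpace ℝ (Fin n)) (hu : u ∈ V) (hu1 : ‖u‖ = 1) :
    ∃ (b : OrthonormalBasis (Fin k ⊕ Fin m) ℝ (EuclideanSpace ℝ (Fin n))) (i₀ : Fin k),
      (∀ i, b (Sum.inl i) ∈ V) ∧ (∀ j, ∀ v ∈ V, inner ℝ (b (Sum.inr j)) v = (0:ℝ)) ∧
      b (Sum.inl i₀) = u := by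
  classical
  set i₀ : Fin k := ⟨0, hk⟩ with hi₀
  set u' : V := ⟨u, hu⟩ with hu'
  have hon : Orthonormal ℝ (({i₀} : Set (Fin k)).domRestrict (fun _ => u')) := by
    rw [orthonormal_iff_ite]
    rintro ⟨i, hi⟩ ⟨j, hj⟩
    simp only [mem_singleton_iff] at hi hj
    subst hi; subst hj
    change (inner ℝ u' u' : ℝ) = _
    rw [real_inner_self_eq_norm_sq]
    simp [hu', hu1]
  obtain ⟨bV, hbV⟩ := hon.exists_orthonormalBasis_extension_of_card_eq (by simp [hV])
  have hbV0 : bV i₀ = u' := hbV i₀ rfl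
  set w : Fin k ⊕ Fin m → EuclideanSpace ℝ (Fin n) :=
    Sum.elim (fun i => (bV i : EuclideanSpace ℝ (Fin n))) (fun _ => 0) with hw
  have hon2 : Orthonormal ℝ ((range (Sum.inl : Fin k → Fin k ⊕ Fin m)).domRestrict w) := by
    rw [orthonormal_iff_ite]
    rintro ⟨i, hi⟩ ⟨j, hj⟩
    obtain ⟨i', rfl⟩ := id hi
    obtain ⟨j', rfl⟩ := id hj
    have h1 : (inner ℝ (w (Sum.inl i')) (w (Sum.inl j')) : ℝ) = if i' = j' then 1 else 0 := by
      simp only [hw, Sum.elim_inl]
      have := (orthonormal_iff_ite.1 bV.orthonormal) i' j'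
      rw [Submodule.coe_inner] at this
      exact this
    refine Eq.trans h1 ?_
    by_cases h : i' = j'
    · subst h
      rw [if_pos rfl, if_pos rfl]
    · rw [if_neg h, if_neg]
      intro h2
      exact h (Sum.inl_injective (congrArg Subtype.val h2))
  obtain ⟨b, hb⟩ := hon2.exists_orthonormalBasis_extension_of_card_eq (by simp [hkm])
  have hbl : ∀ i, b (Sum.inl i) = bV i := fun i => hb (Sum.inl i) ⟨i, rfl⟩
  refine ⟨b, i₀, ?_, ?_, ?_⟩
  · intro i
    rw [hbl i]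
    exact (bV i).2
  · intro j v hv
    have h1 : v = ∑ i, (inner ℝ (bV i) (⟨v, hv⟩ : V) : ℝ) • (bV i : EuclideanSpace ℝ (Fin n)) := by
      have := bV.sum_repr' (⟨v, hv⟩ : V)
      have h2 := congrArg (fun t : V => (t : EuclideanSpace ℝ (Fin n))) this
      simp only [Submodule.coe_sum, Submodule.coe_smul] at h2
      exact h2.symm
    rw [h1, inner_sum]
    apply Finset.sum_eq_zero
    intro i _
    rw [inner_smul_right, ← hbl i]
    have := (orthonormal_iff_ite.1 b.orthonormal) (Sum.inr j) (Sum.inl i)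
    rw [this]
    simp
  · rw [hbl i₀, hbV0]

theorem measurePreserving_coord {ι : Type*} [Fintype ι]
    (b : OrthonormalBasis ι ℝ (EuclideanSpace ℝ (Fin n))) (c : EuclideanSpace ℝ (Fin n)) :
    MeasurePreserving (fun y : EuclideanSpace ℝ (Fin n) => (b.repr (y - c)).ofLp)
      volume volume := by
  have h1 : MeasurePreserving (fun y : EuclideanSpace ℝ (Fin n) => y - c) volume volume :=
    measurePreserving_sub_right volume c
  have h2 := b.measurePreserving_repr
  have h3 := PiLp.volume_preserving_ofLp ι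
  exact h3.comp (h2.comp h1)

/-- The volume of a set is at most the volume of a box which contains its coordinates. -/
theorem volume_le_box {ι : Type*} [Fintype ι]
    (b : OrthonormalBasis ι ℝ (EuclideanSpace ℝ (Fin n))) (c : EuclideanSpace ℝ (Fin n))
    (lo hi : ι → ℝ) (A : Set (EuclideanSpace ℝ (Fin n)))
    (hA : ∀ y ∈ A, ∀ i, lo i ≤ inner ℝ (b i) (y - c) ∧ inner ℝ (b i) (y - c) ≤ hi i) :
    volume A ≤ ∏ i, ENNReal.ofReal (hi i - lo i) := by
  set B : Set (ι → ℝ) := Set.pi univ (fun i => Icc (lo i) (hi i)) with hB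
  have hBm : MeasurableSet B := MeasurableSet.univ_pi (fun i => measurableSet_Icc)
  have hvolB : volume B = ∏ i, ENNReal.ofReal (hi i - lo i) := by
    rw [hB, volume_pi_pi]
    simp only [Real.volume_Icc]
  rw [← hvolB, ← (measurePreserving_coord b c).measure_preimage hBm.nullMeasurableSet]
  apply measure_mono
  intro y hy
  simp only [mem_preimage, hB, mem_univ_pi, mem_Icc]
  intro i
  rw [b.repr_apply_apply]
  exact hA y hy i

/-- The volume of a set is at least the volume of a box of coordinates contained in it. -/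
theorem box_le_volume {ι : Type*} [Fintype ι]
    (b : OrthonormalBasis ι ℝ (EuclideanSpace ℝ (Fin n))) (c : EuclideanSpace ℝ (Fin n))
    (r : ι → ℝ) (A : Set (EuclideanSpace ℝ (Fin n)))
    (hA : ∀ y, (∀ i, |inner ℝ (b i) (y - c)| < r i) → y ∈ A) :
    ∏ i, ENNReal.ofReal (2 * r i) ≤ volume A := by
  set B : Set (ι → ℝ) := Set.pi univ (fun i => Ioo (-(r i)) (r i)) with hB
  have hBm : MeasurableSet B := MeasurableSet.univ_pi (fun i => measurableSet_Ioo)
  have hvolB : volume B = ∏ i, ENNReal.ofReal (2 * r i) := by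
    rw [hB, volume_pi_pi]
    simp only [Real.volume_Ioo]
    congr 1
    ext i
    congr 1
    ring
  rw [← hvolB, ← (measurePreserving_coord b c).measure_preimage hBm.nullMeasurableSet]
  apply measure_mono
  intro y hy
  simp only [mem_preimage, hB, mem_univ_pi, mem_Ioo] at hy
  apply hA
  intro i
  have := hy i
  rw [b.repr_apply_apply] at this
  rw [abs_lt]
  exact this

theorem mem_plate_coord {δ : ℝ} {V : Submodule ℝ (EuclideanSpace ℝ (Fin n))}
    {c y : EuclideanSpace ℝ (Fin n)} (hy : y ∈ plate δ V c)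
    {w : EuclideanSpace ℝ (Fin n)} (hw : ∀ v ∈ V, inner ℝ w v = (0:ℝ)) (hw1 : ‖w‖ = 1) :
    |inner ℝ w (y - c)| < δ := by
  obtain ⟨⟨v, hv, h1⟩, h2⟩ := hy
  have h3 : inner ℝ w (y - c) = inner ℝ w (y - c - v) := by
    rw [inner_sub_right w (y - c) v, hw v hv, sub_zero]
  rw [h3]
  calc |inner ℝ w (y - c - v)| ≤ ‖w‖ * ‖y - c - v‖ := abs_real_inner_le_norm _ _
    _ < δ := by rw [hw1, one_mul]; exact h1

theorem volume_plate_le {k m : ℕ} (hkm : k + m = n) (hk : 1 ≤ k) {δ : ℝ} (hδ : 0 < δ)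
    (V : Submodule ℝ (EuclideanSpace ℝ (Fin n))) (hV : Module.finrank ℝ V = k)
    (c : EuclideanSpace ℝ (Fin n)) : volume (plate δ V c) ≤ ENNReal.ofReal (2 ^ n * δ ^ m) := by
  have hpos : 0 < Module.finrank ℝ V := by omega
  have : Nontrivial V := Module.finrank_pos_iff.1 hpos
  obtain ⟨u, hu⟩ := exists_norm_eq V (zero_le_one)
  obtain ⟨b, i₀, hb1, hb2, -⟩ := exists_basis hkm hk V hV (u : EuclideanSpace ℝ (Fin n)) u.2
    (by simpa using hu)
  refine (volume_le_box b c (Sum.elim (fun _ => -1) (fun _ => -δ))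
    (Sum.elim (fun _ => 1) (fun _ => δ)) (plate δ V c) ?_).trans ?_
  · intro y hy i
    rcases i with i | j
    · simp only [Sum.elim_inl]
      rw [← abs_le]
      calc |inner ℝ (b (Sum.inl i)) (y - c)| ≤ ‖b (Sum.inl i)‖ * ‖y - c‖ :=
            abs_real_inner_le_norm _ _
        _ ≤ 1 := by rw [b.norm_eq_one, one_mul]; exact hy.2.le
    · simp only [Sum.elim_inr]
      rw [← abs_le]
      exact (mem_plate_coord hy (hb2 j) (b.norm_eq_one _)).le
  · rw [Fintype.prod_sum_type]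
    simp only [Sum.elim_inl, Sum.elim_inr, Finset.prod_const, Finset.card_univ, Fintype.card_fin]
    rw [← ENNReal.ofReal_pow (by norm_num), ← ENNReal.ofReal_pow (by linarith),
      ← ENNReal.ofReal_mul (by positivity)]
    apply ENNReal.ofReal_le_ofReal
    rw [← hkm, pow_add]
    have : (1 - -1 : ℝ) = 2 := by norm_num
    have h2 : δ - -δ = 2 * δ := by ring
    rw [this, h2, mul_pow]
    nlinarith

/-- The plate of thickness `ρ`, radius `R`, centre `c` and direction `V`. -/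
def disc (ρ R : ℝ) (V : Submodule ℝ (EuclideanSpace ℝ (Fin n))) (c : EuclideanSpace ℝ (Fin n)) :
    Set (EuclideanSpace ℝ (Fin n)) :=
  {x | (∃ v ∈ V, ‖x - c - v‖ < ρ) ∧ ‖x - c‖ < R}

theorem isOpen_disc (ρ R : ℝ) (V : Submodule ℝ (EuclideanSpace ℝ (Fin n)))
    (c : EuclideanSpace ℝ (Fin n)) : IsOpen (disc ρ R V c) := by
  have h1 : disc ρ R V c = (⋃ v : V, {x : EuclideanSpace ℝ (Fin n) | ‖x - c - v‖ < ρ}) ∩
      {x | ‖x - c‖ < R} := by
    ext x
    simp [disc]
  rw [h1]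
  refine IsOpen.inter (isOpen_iUnion fun v => ?_) ?_
  · exact isOpen_lt (by fun_prop) continuous_const
  · exact isOpen_lt (by fun_prop) continuous_const

theorem disc_subset {ρ R : ℝ} (hR : R ≤ 1) (V : Submodule ℝ (EuclideanSpace ℝ (Fin n)))
    (c : EuclideanSpace ℝ (Fin n)) : disc ρ R V c ⊆ plate ρ V c :=
  fun _ hx => ⟨hx.1, hx.2.trans_le hR⟩

theorem volume_disc_lt_top (ρ R : ℝ) (V : Submodule ℝ (EuclideanSpace ℝ (Fin n)))
    (c : EuclideanSpace ℝ (Fin n)) : volume (disc ρ R V c) < ∞ := by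
  have h : disc ρ R V c ⊆ ball c R := by
    rintro x ⟨-, hx⟩
    simpa [mem_ball, dist_eq_norm] using hx
  exact (measure_mono h).trans_lt measure_ball_lt_top

theorem le_volume_disc {k m : ℕ} (hkm : k + m = n) (hk : 1 ≤ k) (hm : 1 ≤ m) {ρ R : ℝ}
    (hρ : 0 < ρ) (V : Submodule ℝ (EuclideanSpace ℝ (Fin n))) (hV : Module.finrank ℝ V = k)
    (hρR : ρ ≤ R) (c : EuclideanSpace ℝ (Fin n)) :
    ENNReal.ofReal ((2 / n) ^ n * (R ^ k * ρ ^ m)) ≤ volume (disc ρ R V c) := by
  have hpos : 0 < Module.finrank ℝ V := by omega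
  have : Nontrivial V := Module.finrank_pos_iff.1 hpos
  obtain ⟨u, hu⟩ := exists_norm_eq V (zero_le_one)
  obtain ⟨b, i₀, hb1, hb2, -⟩ := exists_basis hkm hk V hV (u : EuclideanSpace ℝ (Fin n)) u.2
    (by simpa using hu)
  have hR : 0 < R := by linarith
  have hn : (0:ℝ) < n := by
    have : 0 < n := by omega
    exact_mod_cast this
  refine le_trans ?_ (box_le_volume b c (Sum.elim (fun _ => R / n) (fun _ => ρ / n)) _ ?_)
  · rw [Fintype.prod_sum_type]
    simp only [Sum.elim_inl, Sum.elim_inr, Finset.prod_const, Finset.card_univ, Fintype.card_fin]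
    rw [← ENNReal.ofReal_pow (by positivity), ← ENNReal.ofReal_pow (by positivity),
      ← ENNReal.ofReal_mul (by positivity)]
    apply ENNReal.ofReal_le_ofReal
    have h1 : (2 / (n:ℝ)) ^ n = (2 / (n:ℝ)) ^ k * (2 / (n:ℝ)) ^ m := by
      rw [← pow_add, hkm]
    rw [h1]
    have h2 : 2 * (R / (n:ℝ)) = (2 / n) * R := by ring
    have h3 : 2 * (ρ / (n:ℝ)) = (2 / n) * ρ := by ring
    rw [h2, h3, mul_pow, mul_pow]
    apply le_of_eq
    ring
  · intro y hy
    set v := y - c with hv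
    have hsum : v = (∑ i, (inner ℝ (b (Sum.inl i)) v : ℝ) • b (Sum.inl i)) +
        ∑ j, (inner ℝ (b (Sum.inr j)) v : ℝ) • b (Sum.inr j) := by
      conv_lhs => rw [← b.sum_repr' v]
      rw [Fintype.sum_sum_type]
    have hnl : ‖∑ i, (inner ℝ (b (Sum.inl i)) v : ℝ) • b (Sum.inl i)‖ < k * (R / n) := by
      calc ‖∑ i, (inner ℝ (b (Sum.inl i)) v : ℝ) • b (Sum.inl i)‖
          ≤ ∑ i, ‖(inner ℝ (b (Sum.inl i)) v : ℝ) • b (Sum.inl i)‖ := norm_sum_le _ _
        _ < ∑ i : Fin k, (R / n : ℝ) := by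
            apply Finset.sum_lt_sum_of_nonempty ⟨i₀, Finset.mem_univ _⟩
            intro i _
            rw [norm_smul, b.norm_eq_one, mul_one, Real.norm_eq_abs]
            exact hy (Sum.inl i)
        _ = k * (R / n) := by simp
    have hnr : ‖∑ j, (inner ℝ (b (Sum.inr j)) v : ℝ) • b (Sum.inr j)‖ < m * (ρ / n) := by
      calc ‖∑ j, (inner ℝ (b (Sum.inr j)) v : ℝ) • b (Sum.inr j)‖
          ≤ ∑ j, ‖(inner ℝ (b (Sum.inr j)) v : ℝ) • b (Sum.inr j)‖ := norm_sum_le _ _
        _ < ∑ j : Fin m, (ρ / n : ℝ) := by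
            apply Finset.sum_lt_sum_of_nonempty ⟨⟨0, hm⟩, Finset.mem_univ _⟩
            intro i _
            rw [norm_smul, b.norm_eq_one, mul_one, Real.norm_eq_abs]
            exact hy (Sum.inr i)
        _ = m * (ρ / n) := by simp
    have hkmR : (k:ℝ) + m = n := by exact_mod_cast hkm
    refine ⟨⟨∑ i, (inner ℝ (b (Sum.inl i)) v : ℝ) • b (Sum.inl i), ?_, ?_⟩, ?_⟩
    · exact Submodule.sum_mem _ fun i _ => Submodule.smul_mem _ _ (hb1 i)
    · rw [← hv]
      have : v - ∑ i, (inner ℝ (b (Sum.inl i)) v : ℝ) • b (Sum.inl i) =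
          ∑ j, (inner ℝ (b (Sum.inr j)) v : ℝ) • b (Sum.inr j) := by
        nth_rewrite 1 [hsum]
        abel
      rw [this]
      refine hnr.trans_le ?_
      rw [mul_div_assoc', div_le_iff₀ hn]
      have : (m:ℝ) ≤ n := by rw [← hkmR]; linarith [Nat.cast_nonneg (α := ℝ) k]
      nlinarith
    · rw [← hv]
      calc ‖v‖ = ‖(∑ i, (inner ℝ (b (Sum.inl i)) v : ℝ) • b (Sum.inl i)) +
        ∑ j, (inner ℝ (b (Sum.inr j)) v : ℝ) • b (Sum.inr j)‖ := by rw [← hsum]
        _ ≤ _ := norm_add_le _ _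
        _ < k * (R / n) + m * (ρ / n) := add_lt_add hnl hnr
        _ ≤ k * (R / n) + m * (R / n) := by gcongr
        _ = R := by
          rw [← add_mul, hkmR]
          field_simp

/-- The volume of the intersection of a thin plate with a thick plate, in terms of the size `s` of
the projection of a unit normal vector of the thick plate onto the direction of the thin plate. -/
theorem volume_box_le {k m : ℕ} (hkm : k + m = n) (hk : 1 ≤ k) {ρ ρ' : ℝ} (hρ : 0 < ρ)
    (hρρ : ρ ≤ ρ') (V V' : Submodule ℝ (EuclideanSpace ℝ (Fin n)))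
    (hV : Module.finrank ℝ V = k) (c c' ν : EuclideanSpace ℝ (Fin n))
    (hν : ∀ v ∈ V', inner ℝ ν v = (0:ℝ)) (hν1 : ‖ν‖ = 1) (hspos : 0 < ‖V.starProjection ν‖) :
    volume (plate ρ V c ∩ plate ρ' V' c') ≤
      ENNReal.ofReal (6 * ρ' / ‖V.starProjection ν‖ * 2 ^ (k - 1) * (2 ^ m * ρ ^ m)) := by
  have hρ'0 : 0 < ρ' := by linarith
  set q := V.starProjection ν with hq
  set s := ‖q‖ with hs
  have hqV : q ∈ V := V.starProjection_apply_mem ν
  have hqi : ∀ v ∈ V, inner ℝ ν v = (inner ℝ q v : ℝ) := by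
    intro v hv
    have := V.starProjection_inner_eq_zero ν v hv
    rw [inner_sub_left] at this
    linarith
  have hs1 : s ≤ 1 := by
    rw [← hν1]
    exact V.norm_starProjection_apply_le ν
  set u := s⁻¹ • q with hu
  have huV : u ∈ V := Submodule.smul_mem _ _ hqV
  have hu1 : ‖u‖ = 1 := by
    rw [hu, norm_smul, norm_inv, Real.norm_eq_abs, abs_of_pos hspos, ← hs]
    exact inv_mul_cancel₀ hspos.ne'
  have hqu : q = s • u := by
    rw [hu, smul_smul, mul_inv_cancel₀ hspos.ne', one_smul]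
  obtain ⟨b, i₀, hb1, hb2, hb3⟩ := exists_basis hkm hk V hV u huV hu1
  set τ : ℝ := inner ℝ ν (c' - c) with hτ
  have key : ∀ y ∈ plate ρ V c ∩ plate ρ' V' c', |s * inner ℝ u (y - c) - τ| ≤ 3 * ρ' := by
    rintro y ⟨hy, hy'⟩
    obtain ⟨⟨vy, hvy, hvyr⟩, hyc⟩ := id hy
    set ry := y - c - vy with hry
    have hyd : y - c = vy + ry := by rw [hry]; abel
    have h1 : (inner ℝ ν (y - c) : ℝ) = s * inner ℝ u vy + inner ℝ ν ry := by
      rw [hyd, inner_add_right, hqi _ hvy, hqu, real_inner_smul_left]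
    have h2 : (inner ℝ u (y - c) : ℝ) = inner ℝ u vy + inner ℝ u ry := by
      rw [hyd, inner_add_right]
    have h3 : (inner ℝ ν (y - c) : ℝ) = inner ℝ ν (y - c') + τ := by
      rw [hτ, ← inner_add_right]
      congr 1; abel
    have h4 : |inner ℝ ν (y - c')| < ρ' := mem_plate_coord hy' hν hν1
    have h5 : |inner ℝ u ry| ≤ ρ := by
      calc |inner ℝ u ry| ≤ ‖u‖ * ‖ry‖ := abs_real_inner_le_norm _ _
        _ ≤ ρ := by rw [hu1, one_mul]; exact hvyr.le
    have h6 : |inner ℝ ν ry| ≤ ρ := by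
      calc |inner ℝ ν ry| ≤ ‖ν‖ * ‖ry‖ := abs_real_inner_le_norm _ _
        _ ≤ ρ := by rw [hν1, one_mul]; exact hvyr.le
    have h7 : s * inner ℝ u (y - c) - τ = inner ℝ ν (y - c') + s * inner ℝ u ry - inner ℝ ν ry := by
      rw [h2]
      linarith
    have h8 : |s * inner ℝ u ry| ≤ ρ := by
      rw [abs_mul, abs_of_pos hspos]
      calc s * |inner ℝ u ry| ≤ 1 * ρ := by gcongr
        _ = ρ := one_mul _
    rw [h7, abs_le]
    rw [abs_lt] at h4
    rw [abs_le] at h6 h8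
    constructor <;> linarith [h4.1, h4.2, h6.1, h6.2, h8.1, h8.2]
  refine (volume_le_box b c
    (Sum.elim (fun i => if i = i₀ then (τ - 3 * ρ') / s else -1) (fun _ => -ρ))
    (Sum.elim (fun i => if i = i₀ then (τ + 3 * ρ') / s else 1) (fun _ => ρ))
    (plate ρ V c ∩ plate ρ' V' c') ?_).trans ?_
  · intro y hy i
    rcases i with i | j
    · simp only [Sum.elim_inl]
      by_cases hi : i = i₀
      · rw [if_pos hi, if_pos hi, hi, hb3, div_le_iff₀ hspos, le_div_iff₀ hspos]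
        have := key y hy
        rw [abs_le] at this
        constructor <;> linarith [this.1, this.2]
      · rw [if_neg hi, if_neg hi, ← abs_le]
        calc |inner ℝ (b (Sum.inl i)) (y - c)| ≤ ‖b (Sum.inl i)‖ * ‖y - c‖ :=
              abs_real_inner_le_norm _ _
          _ ≤ 1 := by rw [b.norm_eq_one, one_mul]; exact hy.1.2.le
    · simp only [Sum.elim_inr]
      rw [← abs_le]
      exact (mem_plate_coord hy.1 (hb2 j) (b.norm_eq_one _)).le
  · rw [Fintype.prod_sum_type]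
    simp only [Sum.elim_inl, Sum.elim_inr, Finset.prod_const, Finset.card_univ, Fintype.card_fin]
    have hp : ∏ i : Fin k, ENNReal.ofReal ((if i = i₀ then (τ + 3 * ρ') / s else 1) -
        (if i = i₀ then (τ - 3 * ρ') / s else -1)) =
        ENNReal.ofReal (6 * ρ' / s * 2 ^ (k - 1)) := by
      rw [← Finset.mul_prod_erase _ _ (Finset.mem_univ i₀)]
      rw [if_pos rfl, if_pos rfl]
      have h1 : ∏ i ∈ Finset.univ.erase i₀,
          ENNReal.ofReal ((if i = i₀ then (τ + 3 * ρ') / s else 1) -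
          (if i = i₀ then (τ - 3 * ρ') / s else -1)) =
          ∏ i ∈ Finset.univ.erase i₀, (ENNReal.ofReal 2) := by
        apply Finset.prod_congr rfl
        intro i hi
        have hne : i ≠ i₀ := Finset.ne_of_mem_erase hi
        rw [if_neg hne, if_neg hne]
        norm_num
      rw [h1, Finset.prod_const, Finset.card_erase_of_mem (Finset.mem_univ _), Finset.card_univ,
        Fintype.card_fin, ← ENNReal.ofReal_pow (by norm_num), ← ENNReal.ofReal_mul]
      · congr 2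
        ring
      · have e1 : (τ + 3 * ρ') / s - (τ - 3 * ρ') / s = 6 * ρ' / s := by ring
        change 0 ≤ (τ + 3 * ρ') / s - (τ - 3 * ρ') / s
        rw [e1]
        positivity
    rw [hp, ← ENNReal.ofReal_pow (by linarith), ← ENNReal.ofReal_mul (by positivity)]
    apply ENNReal.ofReal_le_ofReal
    have h2 : ρ - -ρ = 2 * ρ := by ring
    rw [h2, mul_pow]

theorem two_pow_eq {k m : ℕ} (hkm : k + m = n) (hk : 1 ≤ k) :
    (2:ℝ) ^ n = 2 * 2 ^ (k - 1) * 2 ^ m := by
  rw [← pow_succ', ← pow_add]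
  congr 1
  omega

/-- The intersection of a plate `P ∋ x` with a plate of larger thickness. -/
theorem volume_inter_thin {k m : ℕ} (hkm : k + m = n) (hk : 1 ≤ k) {ρ ρ' : ℝ} (hρ : 0 < ρ)
    (hρρ : ρ ≤ ρ') (hρ1 : ρ' ≤ 1) (V V' : Submodule ℝ (EuclideanSpace ℝ (Fin n)))
    (hV : Module.finrank ℝ V = k) (c c' ν : EuclideanSpace ℝ (Fin n))
    (hν : ∀ v ∈ V', inner ℝ ν v = (0:ℝ)) (hν1 : ‖ν‖ = 1) {x : EuclideanSpace ℝ (Fin n)}
    (hx : x ∈ plate ρ V c) :
    volume (plate ρ V c ∩ plate ρ' V' c') ≤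
      ENNReal.ofReal (56 * 2 ^ n * ρ ^ m * (ρ' / (ρ' + |inner ℝ ν (x - c')|))) := by
  rcases (plate ρ V c ∩ plate ρ' V' c').eq_empty_or_nonempty with hem | ⟨z, hz, hz'⟩
  · rw [hem, measure_empty]; exact zero_le
  have hρ'0 : 0 < ρ' := by linarith
  set d := |inner ℝ ν (x - c')| with hd
  have hd0 : 0 ≤ d := abs_nonneg _
  by_cases hsm : d < 6 * ρ'
  · refine (measure_mono inter_subset_left).trans ((volume_plate_le hkm hk hρ V hV c).trans ?_)
    apply ENNReal.ofReal_le_ofReal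
    have h1 : (1:ℝ) ≤ 56 * (ρ' / (ρ' + d)) := by
      rw [← mul_div_assoc, le_div_iff₀ (by positivity)]
      linarith
    calc 2 ^ n * ρ ^ m = 2 ^ n * ρ ^ m * 1 := (mul_one _).symm
      _ ≤ 2 ^ n * ρ ^ m * (56 * (ρ' / (ρ' + d))) := by gcongr
      _ = _ := by ring
  push Not at hsm
  set q := V.starProjection ν with hq
  set s := ‖q‖ with hs
  have hqV : q ∈ V := V.starProjection_apply_mem ν
  have hqi : ∀ v ∈ V, inner ℝ ν v = (inner ℝ q v : ℝ) := by
    intro v hv
    have := V.starProjection_inner_eq_zero ν v hv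
    rw [inner_sub_left] at this
    linarith
  obtain ⟨⟨v, hv, hvr⟩, hxc⟩ := id hx
  obtain ⟨⟨w, hw, hwr⟩, hzc⟩ := id hz
  have hpV : v - w ∈ V := Submodule.sub_mem _ hv hw
  set r := (x - c - v) - (z - c - w) with hr
  have hrn : ‖r‖ < 2 * ρ := (norm_sub_le _ _).trans_lt (by linarith)
  have hxz : x - z = (v - w) + r := by rw [hr]; abel
  have hpn : ‖v - w‖ ≤ 4 := by
    have : v - w = (x - c) - (z - c) - r := by rw [hr]; abel
    rw [this]
    calc ‖(x - c) - (z - c) - r‖ ≤ ‖(x - c) - (z - c)‖ + ‖r‖ := norm_sub_le _ _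
      _ ≤ ‖x - c‖ + ‖z - c‖ + ‖r‖ := by gcongr; exact norm_sub_le _ _
      _ ≤ 4 := by linarith
  have hzc' : |inner ℝ ν (z - c')| < ρ' := mem_plate_coord hz' hν hν1
  have hds : d ≤ 4 * s + 3 * ρ' := by
    have h1 : (inner ℝ ν (x - c') : ℝ) = inner ℝ q (v - w) + inner ℝ ν r + inner ℝ ν (z - c') := by
      rw [← hqi _ hpV, ← inner_add_right, ← inner_add_right]
      congr 1
      rw [← hxz]; abel
    have h2 : |inner ℝ q (v - w)| ≤ 4 * s := by
      calc |inner ℝ q (v - w)| ≤ ‖q‖ * ‖v - w‖ := abs_real_inner_le_norm _ _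
        _ ≤ s * 4 := by rw [hs]; gcongr
        _ = 4 * s := by ring
    have h3 : |inner ℝ ν r| ≤ 2 * ρ := by
      calc |inner ℝ ν r| ≤ ‖ν‖ * ‖r‖ := abs_real_inner_le_norm _ _
        _ ≤ 2 * ρ := by rw [hν1, one_mul]; exact hrn.le
    rw [hd, h1]
    calc |inner ℝ q (v - w) + inner ℝ ν r + inner ℝ ν (z - c')|
        ≤ |inner ℝ q (v - w)| + |inner ℝ ν r| + |inner ℝ ν (z - c')| := abs_add_three _ _ _
      _ ≤ _ := by linarith
  have hsd : d / 8 ≤ s := by linarith
  have hdpos : 0 < d := by linarith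
  have hspos : 0 < s := by linarith
  refine (volume_box_le hkm hk hρ hρρ V V' hV c c' ν hν hν1 hspos).trans ?_
  apply ENNReal.ofReal_le_ofReal
  rw [two_pow_eq hkm hk, ← hq, ← hs]
  have h3 : 6 * ρ' / s ≤ 56 * (ρ' / (ρ' + d)) := by
    rw [← mul_div_assoc, div_le_div_iff₀ hspos (by positivity)]
    nlinarith
  calc 6 * ρ' / s * 2 ^ (k - 1) * (2 ^ m * ρ ^ m)
      ≤ 56 * (ρ' / (ρ' + d)) * 2 ^ (k - 1) * (2 ^ m * ρ ^ m) := by gcongr
    _ ≤ 2 * (56 * (ρ' / (ρ' + d)) * 2 ^ (k - 1) * (2 ^ m * ρ ^ m)) := by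
        have : 0 ≤ 56 * (ρ' / (ρ' + d)) * 2 ^ (k - 1) * (2 ^ m * ρ ^ m) := by positivity
        linarith
    _ = 56 * (2 * 2 ^ (k - 1) * 2 ^ m) * ρ ^ m * (ρ' / (ρ' + d)) := by ring

/-- The intersection of a plate `P ∋ x` with a plate of smaller thickness. -/
theorem volume_inter_thick {k m : ℕ} (hkm : k + m = n) (hk : 1 ≤ k) {ρ ρ' : ℝ} (hρ' : 0 < ρ')
    (hρρ : ρ' ≤ ρ) (hρ1 : ρ ≤ 1) (V V' : Submodule ℝ (EuclideanSpace ℝ (Fin n)))
    (hV : Module.finrank ℝ V = k) (hV' : Module.finrank ℝ V' = k)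
    (c c' ν : EuclideanSpace ℝ (Fin n))
    (hν : ∀ v ∈ V', inner ℝ ν v = (0:ℝ)) (hν1 : ‖ν‖ = 1) {x : EuclideanSpace ℝ (Fin n)}
    (hx : x ∈ plate ρ V c) :
    volume (plate ρ V c ∩ plate ρ' V' c') ≤
      ENNReal.ofReal (56 * 2 ^ n * ρ' ^ m * (ρ / (ρ + |inner ℝ ν (x - c')|))) := by
  rcases (plate ρ V c ∩ plate ρ' V' c').eq_empty_or_nonempty with hem | ⟨z, hz, hz'⟩
  · rw [hem, measure_empty]; exact zero_le
  have hρ0 : 0 < ρ := by linarith
  set d := |inner ℝ ν (x - c')| with hd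
  have hd0 : 0 ≤ d := abs_nonneg _
  by_cases hsm : d ≤ 6 * ρ
  · refine (measure_mono inter_subset_right).trans
      ((volume_plate_le hkm hk hρ' V' hV' c').trans ?_)
    apply ENNReal.ofReal_le_ofReal
    have h1 : (1:ℝ) ≤ 56 * (ρ / (ρ + d)) := by
      rw [← mul_div_assoc, le_div_iff₀ (by positivity)]
      linarith
    calc 2 ^ n * ρ' ^ m = 2 ^ n * ρ' ^ m * 1 := (mul_one _).symm
      _ ≤ 2 ^ n * ρ' ^ m * (56 * (ρ / (ρ + d))) := by gcongr
      _ = _ := by ring
  push Not at hsm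
  obtain ⟨⟨v, hv, hvr⟩, hxc⟩ := id hx
  obtain ⟨⟨w, hw, hwr⟩, hzc⟩ := id hz
  have hpV : v - w ∈ V := Submodule.sub_mem _ hv hw
  set r := (x - c - v) - (z - c - w) with hr
  have hrn : ‖r‖ < 2 * ρ := (norm_sub_le _ _).trans_lt (by linarith)
  have hxz : x - z = (v - w) + r := by rw [hr]; abel
  have hpn : ‖v - w‖ ≤ 4 := by
    have : v - w = (x - c) - (z - c) - r := by rw [hr]; abel
    rw [this]
    calc ‖(x - c) - (z - c) - r‖ ≤ ‖(x - c) - (z - c)‖ + ‖r‖ := norm_sub_le _ _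
      _ ≤ ‖x - c‖ + ‖z - c‖ + ‖r‖ := by gcongr; exact norm_sub_le _ _
      _ ≤ 4 := by linarith
  have hzc' : |inner ℝ ν (z - c')| < ρ' := mem_plate_coord hz' hν hν1
  have h1 : (inner ℝ ν (x - c') : ℝ) = inner ℝ ν (v - w) + inner ℝ ν r + inner ℝ ν (z - c') := by
    rw [← inner_add_right, ← inner_add_right]
    congr 1
    rw [← hxz]; abel
  have h3 : |inner ℝ ν r| ≤ 2 * ρ := by
    calc |inner ℝ ν r| ≤ ‖ν‖ * ‖r‖ := abs_real_inner_le_norm _ _
      _ ≤ 2 * ρ := by rw [hν1, one_mul]; exact hrn.le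
  have hdle : d ≤ |inner ℝ ν (v - w)| + 2 * ρ + ρ' := by
    rw [hd, h1]
    calc |inner ℝ ν (v - w) + inner ℝ ν r + inner ℝ ν (z - c')|
        ≤ |inner ℝ ν (v - w)| + |inner ℝ ν r| + |inner ℝ ν (z - c')| := abs_add_three _ _ _
      _ ≤ _ := by linarith
  have hd8 : d ≤ 7 := by
    have h2 : |inner ℝ ν (v - w)| ≤ 4 := by
      calc |inner ℝ ν (v - w)| ≤ ‖ν‖ * ‖v - w‖ := abs_real_inner_le_norm _ _
        _ ≤ 4 := by rw [hν1, one_mul]; exact hpn
    linarith
  -- a vector of `V'` far from `V`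
  obtain ⟨u', hu'V, hu'⟩ : ∃ u' ∈ V', d / 16 * ‖u'‖ ≤ ‖u' - V.starProjection u'‖ ∧ u' ≠ 0 := by
    by_contra hcon
    push Not at hcon
    have hlt : ∀ u' ∈ V', u' ≠ 0 → ‖u' - V.starProjection u'‖ < d / 16 * ‖u'‖ := by
      intro u' hu' hne
      by_contra h
      exact hne (hcon u' hu' (not_lt.1 h))
    -- the projection of `V'` to `V` is bijective
    set L : V' →ₗ[ℝ] V := (V.orthogonalProjectionOnto : EuclideanSpace ℝ (Fin n) →L[ℝ] V).toLinearMap ∘ₗ
      V'.subtype with hL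
    have hLc : ∀ y : V', ((L y : V) : EuclideanSpace ℝ (Fin n)) =
        V.starProjection (y : EuclideanSpace ℝ (Fin n)) := by
      intro y
      rfl
    have hinj : Function.Injective L := by
      rw [← LinearMap.ker_eq_bot, LinearMap.ker_eq_bot']
      intro y hy
      by_contra hne
      have hy0 : (y : EuclideanSpace ℝ (Fin n)) ≠ 0 := fun h => hne (Subtype.ext h)
      have h5 := hlt y y.2 hy0
      have h6 : V.starProjection (y : EuclideanSpace ℝ (Fin n)) = 0 := by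
        rw [← hLc y, hy]; rfl
      rw [h6, sub_zero] at h5
      have h7 : 0 < ‖(y : EuclideanSpace ℝ (Fin n))‖ := norm_pos_iff.2 hy0
      nlinarith
    have hsurj : Function.Surjective L :=
      (LinearMap.injective_iff_surjective_of_finrank_eq_finrank (by rw [hV, hV'])).1 hinj
    obtain ⟨y, hy⟩ := hsurj ⟨v - w, hpV⟩
    have hyp : V.starProjection (y : EuclideanSpace ℝ (Fin n)) = v - w := by
      rw [← hLc y, hy]
    by_cases hy0 : (y : EuclideanSpace ℝ (Fin n)) = 0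
    · have : v - w = 0 := by rw [← hyp, hy0, map_zero]
      rw [this, inner_zero_right, abs_zero] at hdle
      linarith
    have h5 := hlt y y.2 hy0
    rw [hyp] at h5
    have h6 : ‖(y : EuclideanSpace ℝ (Fin n))‖ ≤ 8 := by
      have h7 : ‖(y : EuclideanSpace ℝ (Fin n))‖ ≤ ‖v - w‖ +
          ‖(y : EuclideanSpace ℝ (Fin n)) - (v - w)‖ := by
        calc ‖(y : EuclideanSpace ℝ (Fin n))‖ =
            ‖(v - w) + ((y : EuclideanSpace ℝ (Fin n)) - (v - w))‖ := by congr 1; abel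
          _ ≤ _ := norm_add_le _ _
      have h8 : 0 ≤ ‖(y : EuclideanSpace ℝ (Fin n))‖ := norm_nonneg _
      nlinarith
    have h9 : |inner ℝ ν (v - w)| ≤ d / 2 := by
      have h10 : (inner ℝ ν (v - w) : ℝ) = -inner ℝ ν ((y : EuclideanSpace ℝ (Fin n)) - (v - w)) := by
        rw [inner_sub_right ν (y : EuclideanSpace ℝ (Fin n)) (v - w), hν y y.2]
        ring
      rw [h10, abs_neg]
      calc |inner ℝ ν ((y : EuclideanSpace ℝ (Fin n)) - (v - w))|
          ≤ ‖ν‖ * ‖(y : EuclideanSpace ℝ (Fin n)) - (v - w)‖ := abs_real_inner_le_norm _ _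
        _ = ‖(y : EuclideanSpace ℝ (Fin n)) - (v - w)‖ := by rw [hν1, one_mul]
        _ ≤ d / 16 * ‖(y : EuclideanSpace ℝ (Fin n))‖ := h5.le
        _ ≤ d / 16 * 8 := by gcongr
        _ = d / 2 := by ring
    linarith
  obtain ⟨hu'1, hu'0⟩ := hu'
  have hu'p : 0 < ‖u'‖ := norm_pos_iff.2 hu'0
  have hdpos : 0 < d := by linarith
  set t := u' - V.starProjection u' with ht
  have htp : 0 < ‖t‖ := lt_of_lt_of_le (by positivity) hu'1
  set ω := ‖t‖⁻¹ • t with hω
  have hω1 : ‖ω‖ = 1 := by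
    rw [hω, norm_smul, norm_inv, norm_norm]
    exact inv_mul_cancel₀ htp.ne'
  have htV : ∀ v ∈ V, inner ℝ t v = (0:ℝ) := fun v hv => V.starProjection_inner_eq_zero u' v hv
  have hωV : ∀ v ∈ V, inner ℝ ω v = (0:ℝ) := by
    intro v hv
    rw [hω, real_inner_smul_left, htV v hv, mul_zero]
  have hωu : (inner ℝ ω u' : ℝ) = ‖t‖ := by
    have h5 : t + V.starProjection u' = u' := by rw [ht]; abel
    calc (inner ℝ ω u' : ℝ) = inner ℝ ω (t + V.starProjection u') := by rw [h5]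
      _ = ‖t‖ := by
        rw [inner_add_right, hωV _ (V.starProjection_apply_mem u'), add_zero, hω,
          real_inner_smul_left, real_inner_self_eq_norm_sq, sq, ← mul_assoc,
          inv_mul_cancel₀ htp.ne', one_mul]
  have hsb : d / 16 ≤ ‖V'.starProjection ω‖ := by
    have h5 : (inner ℝ ω u' : ℝ) = inner ℝ (V'.starProjection ω) u' := by
      have := V'.starProjection_inner_eq_zero ω u' hu'V
      rw [inner_sub_left] at this
      linarith
    have h6 : ‖t‖ ≤ ‖V'.starProjection ω‖ * ‖u'‖ := by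
      rw [← hωu, h5]
      exact real_inner_le_norm _ _
    have h7 : d / 16 * ‖u'‖ ≤ ‖V'.starProjection ω‖ * ‖u'‖ := hu'1.trans h6
    exact le_of_mul_le_mul_right h7 hu'p
  have hspos : 0 < ‖V'.starProjection ω‖ := lt_of_lt_of_le (by positivity) hsb
  rw [inter_comm]
  refine (volume_box_le hkm hk hρ' hρρ V' V hV' c' c ω hωV hω1 hspos).trans ?_
  apply ENNReal.ofReal_le_ofReal
  rw [two_pow_eq hkm hk]
  set s := ‖V'.starProjection ω‖ with hs
  have h3 : 6 * ρ / s ≤ 112 * (ρ / (ρ + d)) := by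
    rw [← mul_div_assoc, div_le_div_iff₀ hspos (by positivity)]
    nlinarith
  calc 6 * ρ / s * 2 ^ (k - 1) * (2 ^ m * ρ' ^ m)
      ≤ 112 * (ρ / (ρ + d)) * 2 ^ (k - 1) * (2 ^ m * ρ' ^ m) := by gcongr
    _ = 56 * (2 * 2 ^ (k - 1) * 2 ^ m) * ρ' ^ m * (ρ / (ρ + d)) := by ring

end Pool.Agent.H737.KP
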