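import Mathlib

set_option autoImplicit false

/-!
A weighted covering inequality: the maximal function of the averages over the sets of a family,
in `L^2` of a measure `μ` for which the correlations of the sets are integrable.
-/

open MeasureTheory Set Filter Topology ENNReal NNReal Metric

namespace Pool.Agent.H737.KP

/-- Measurable choice of the index of the largest among finitely many functions. -/
theorem argmax {X : Type*} [MeasurableSpace X] (F : ℕ → X → ℝ≥0∞) (hF : ∀ j, Measurable (F j))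
    (J : ℕ) : ∃ idx : X → ℕ, Measurable idx ∧ (∀ x, idx x ≤ J) ∧
      ∀ x, ∀ j ≤ J, F j x ≤ F (idx x) x := by
  induction J with
  | zero =>
    refine ⟨fun _ => 0, measurable_const, fun _ => le_rfl, ?_⟩
    intro x j hj
    obtain rfl : j = 0 := by omega
    exact le_rfl
  | succ J ih =>
    classical
    obtain ⟨idx, h1, h2, h3⟩ := ih
    have hm : Measurable (fun x => F (idx x) x) := by
      have hu : Measurable (fun q : X × ℕ => F q.2 q.1) :=
        measurable_from_prod_countable_left fun j => hF j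
      exact hu.comp (measurable_id.prodMk h1)
    refine ⟨fun x => if F (idx x) x < F (J + 1) x then J + 1 else idx x, ?_, ?_, ?_⟩
    · exact Measurable.ite (measurableSet_lt hm (hF _)) measurable_const h1
    · intro x
      dsimp only
      split_ifs
      · exact le_rfl
      · exact (h2 x).trans (Nat.le_succ J)
    · intro x j hj
      dsimp only
      split_ifs with h
      · rcases Nat.lt_or_ge j (J + 1) with h4 | h4
        · exact (h3 x j (by omega)).trans h.le
        · obtain rfl : j = J + 1 := by omega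
          exact le_rfl
      · rcases Nat.lt_or_ge j (J + 1) with h4 | h4
        · exact h3 x j (by omega)
        · obtain rfl : j = J + 1 := by omega
          exact not_lt.1 h

theorem two_mul_le_sq_add_sq (a b : ℝ≥0∞) : 2 * (a * b) ≤ a ^ 2 + b ^ 2 := by
  rcases le_total a b with h | h
  · obtain ⟨c, rfl⟩ := exists_add_of_le h
    calc 2 * (a * (a + c)) = a ^ 2 + (a ^ 2 + 2 * a * c) := by ring
      _ ≤ a ^ 2 + (a ^ 2 + 2 * a * c) + c ^ 2 := le_self_add
      _ = a ^ 2 + (a + c) ^ 2 := by ring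
  · obtain ⟨c, rfl⟩ := exists_add_of_le h
    calc 2 * ((b + c) * b) = b ^ 2 + (b ^ 2 + 2 * b * c) := by ring
      _ ≤ b ^ 2 + (b ^ 2 + 2 * b * c) + c ^ 2 := le_self_add
      _ = (b + c) ^ 2 + b ^ 2 := by ring

/-- The finite form of the inequality. -/
theorem finite_ineq {X : Type*} [MeasurableSpace X] (lam μ : Measure X) [IsFiniteMeasure μ]
    (P : ℕ → Set X) (hP : ∀ j, MeasurableSet (P j)) (hP0 : ∀ j, lam (P j) ≠ 0)
    (hPt : ∀ j, lam (P j) ≠ ∞) (w : ℕ → X → ℝ≥0∞) (hwm : ∀ j, Measurable (w j)) (Λ : ℝ≥0∞)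
    (hw : ∀ j l, ∀ x ∈ P l, lam (P j ∩ P l) * (lam (P j))⁻¹ * (lam (P l))⁻¹ ≤ w j x)
    (hΛ : ∀ j, ∫⁻ x, w j x ∂μ ≤ Λ) (g : X → ℝ≥0∞) (hg : Measurable g)
    (hg2 : ∫⁻ x, g x ^ 2 ∂lam ≠ ∞) (J : ℕ) (idx : X → ℕ) (hidx : Measurable idx)
    (hJ : ∀ x, idx x ≤ J) :
    ∫⁻ x, ((P (idx x)).indicator
      (fun _ => (lam (P (idx x)))⁻¹ * ∫⁻ y in P (idx x), g y ∂lam) x) ^ 2 ∂μ ≤
      Λ * ∫⁻ x, g x ^ 2 ∂lam := by
  classical
  set p : ℕ → ℝ≥0∞ := fun j => (lam (P j))⁻¹ with hp
  set a : ℕ → ℝ≥0∞ := fun j => p j * ∫⁻ y in P j, g y ∂lam with ha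
  set D : ℕ → Set X := fun j => idx ⁻¹' {j} ∩ P j with hD
  have hDm : ∀ j, MeasurableSet (D j) := fun j => (hidx (measurableSet_singleton j)).inter (hP j)
  have hDP : ∀ j, D j ⊆ P j := fun j => inter_subset_right
  set Q : ℝ≥0∞ := ∫⁻ x, ((P (idx x)).indicator (fun _ => a (idx x)) x) ^ 2 ∂μ with hQ
  change Q ≤ Λ * ∫⁻ x, g x ^ 2 ∂lam
  set R := Finset.range (J + 1) with hR
  -- the integral as a finite sum
  have hQs : Q = ∑ j ∈ R, a j ^ 2 * μ (D j) := by
    have h1 : ∀ x, ((P (idx x)).indicator (fun _ => a (idx x)) x) ^ 2 =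
        ∑ j ∈ R, (D j).indicator (fun _ => a j ^ 2) x := by
      intro x
      rw [Finset.sum_eq_single_of_mem (idx x)
        (Finset.mem_range.2 (Nat.lt_succ_of_le (hJ x)))]
      · by_cases hx : x ∈ P (idx x)
        · rw [indicator_of_mem hx, indicator_of_mem (show x ∈ D (idx x) from ⟨rfl, hx⟩)]
        · rw [indicator_of_notMem hx, indicator_of_notMem (fun h => hx h.2)]
          simp
      · intro j _ hj
        apply indicator_of_notMem
        rintro ⟨h, -⟩
        exact hj (by simpa using h.symm)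
    rw [hQ]
    simp_rw [h1]
    rw [lintegral_finsetSum _ (fun j _ => measurable_const.indicator (hDm j))]
    apply Finset.sum_congr rfl
    intro j _
    rw [lintegral_indicator_const (hDm j)]
  -- finiteness
  have hafin : ∀ j, a j ≠ ∞ := by
    intro j
    apply ENNReal.mul_ne_top (ENNReal.inv_ne_top.2 (hP0 j))
    have h1 : ∫⁻ y in P j, g y ∂lam ≤ ∫⁻ y in P j, (1 + g y ^ 2) ∂lam := by
      apply lintegral_mono
      intro y
      dsimp only
      rcases le_total (g y) 1 with h | h
      · exact h.trans le_self_add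
      · calc g y = g y * 1 := (mul_one _).symm
          _ ≤ g y * g y := by gcongr
          _ = g y ^ 2 := (sq _).symm
          _ ≤ 1 + g y ^ 2 := le_add_self
    refine (h1.trans_lt ?_).ne
    rw [lintegral_add_left measurable_const, setLIntegral_const, one_mul]
    refine ENNReal.add_lt_top.2 ⟨(hPt j).lt_top, ?_⟩
    exact (setLIntegral_le_lintegral _ _).trans_lt hg2.lt_top
  have hQfin : Q ≠ ∞ := by
    rw [hQs]
    apply ENNReal.sum_ne_top.2
    intro j _
    exact ENNReal.mul_ne_top (ENNReal.pow_ne_top (hafin j)) (measure_ne_top _ _)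
  -- the dual function
  set B : ℕ → ℝ≥0∞ := fun j => a j * μ (D j) * p j with hB
  set G : X → ℝ≥0∞ := fun x => ∑ j ∈ R, B j * (P j).indicator 1 x with hG
  have hGm : Measurable G := by
    apply Finset.measurable_sum
    intro j _
    exact (measurable_one.indicator (hP j)).const_mul _
  have hQG : Q = ∫⁻ x, g x * G x ∂lam := by
    rw [hQs]
    have h1 : ∀ x, g x * G x = ∑ j ∈ R, B j * (P j).indicator g x := by
      intro x
      simp only [hG]
      rw [Finset.mul_sum]
      apply Finset.sum_congr rfl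
      intro j _
      by_cases hx : x ∈ P j
      · rw [indicator_of_mem hx, indicator_of_mem hx]; simp only [Pi.one_apply]; ring
      · rw [indicator_of_notMem hx, indicator_of_notMem hx]; simp
    simp_rw [h1]
    rw [lintegral_finsetSum _ (fun j _ => (hg.indicator (hP j)).const_mul _)]
    apply Finset.sum_congr rfl
    intro j _
    rw [lintegral_const_mul _ (hg.indicator (hP j)), lintegral_indicator (hP j)]
    simp only [hB, ha]
    ring
  have hG2 : ∫⁻ x, G x ^ 2 ∂lam = ∑ j ∈ R, ∑ l ∈ R, B j * B l * lam (P j ∩ P l) := by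
    have h1 : ∀ x, G x ^ 2 = ∑ j ∈ R, ∑ l ∈ R, (P j ∩ P l).indicator (fun _ => B j * B l) x := by
      intro x
      simp only [hG]
      rw [sq, Finset.sum_mul_sum]
      apply Finset.sum_congr rfl
      intro j _
      apply Finset.sum_congr rfl
      intro l _
      by_cases hx : x ∈ P j
      · by_cases hx' : x ∈ P l
        · rw [indicator_of_mem hx, indicator_of_mem hx', indicator_of_mem (mem_inter hx hx')]
          simp
        · rw [indicator_of_notMem hx', indicator_of_notMem (fun h : x ∈ P j ∩ P l => hx' h.2)]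
          simp
      · rw [indicator_of_notMem hx, indicator_of_notMem (fun h : x ∈ P j ∩ P l => hx h.1)]
        simp
    simp_rw [h1]
    rw [lintegral_finsetSum]
    · apply Finset.sum_congr rfl
      intro j _
      rw [lintegral_finsetSum]
      · apply Finset.sum_congr rfl
        intro l _
        rw [lintegral_indicator_const ((hP j).inter (hP l))]
      · exact fun l _ => measurable_const.indicator ((hP j).inter (hP l))
    · intro j _
      exact Finset.measurable_sum _ fun l _ => measurable_const.indicator ((hP j).inter (hP l))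
  set M : ℕ → ℕ → ℝ≥0∞ := fun j l => μ (D j) * μ (D l) * (lam (P j ∩ P l) * p j * p l) with hM
  have hMsymm : ∀ j l, M j l = M l j := by
    intro j l
    simp only [hM]
    rw [inter_comm (P j) (P l)]
    ring
  have hMrow : ∀ j, ∑ l ∈ R, M j l ≤ μ (D j) * Λ := by
    intro j
    have h1 : ∀ l, M j l ≤ μ (D j) * ∫⁻ x, (D l).indicator (w j) x ∂μ := by
      intro l
      simp only [hM]
      rw [mul_assoc]
      gcongr
      rw [lintegral_indicator (hDm l)]
      calc μ (D l) * (lam (P j ∩ P l) * p j * p l)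
          = ∫⁻ _ in D l, (lam (P j ∩ P l) * p j * p l) ∂μ := by
            rw [setLIntegral_const, mul_comm]
        _ ≤ ∫⁻ x in D l, w j x ∂μ := by
            apply setLIntegral_mono' (hDm l)
            intro x hx
            exact hw j l x (hDP l hx)
    calc ∑ l ∈ R, M j l ≤ ∑ l ∈ R, μ (D j) * ∫⁻ x, (D l).indicator (w j) x ∂μ :=
          Finset.sum_le_sum fun l _ => h1 l
      _ = μ (D j) * ∫⁻ x, ∑ l ∈ R, (D l).indicator (w j) x ∂μ := by
          rw [← Finset.mul_sum, lintegral_finsetSum _ (fun l _ => (hwm j).indicator (hDm l))]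
      _ ≤ μ (D j) * ∫⁻ x, w j x ∂μ := by
          gcongr with x
          calc ∑ l ∈ R, (D l).indicator (w j) x = (D (idx x)).indicator (w j) x := by
                apply Finset.sum_eq_single_of_mem (idx x)
                  (Finset.mem_range.2 (Nat.lt_succ_of_le (hJ x)))
                intro l _ hl
                apply indicator_of_notMem
                rintro ⟨h, -⟩
                exact hl (by simpa using h.symm)
            _ ≤ w j x := indicator_le_self _ _ _
      _ ≤ μ (D j) * Λ := by gcongr; exact hΛ j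
  have hGQ : ∫⁻ x, G x ^ 2 ∂lam ≤ Λ * Q := by
    rw [hG2]
    have h1 : ∀ j l, B j * B l * lam (P j ∩ P l) = a j * a l * M j l := by
      intro j l
      simp only [hB, hM]
      ring
    simp_rw [h1]
    have h2 : 2 * ∑ j ∈ R, ∑ l ∈ R, a j * a l * M j l ≤ 2 * ∑ j ∈ R, ∑ l ∈ R, a j ^ 2 * M j l := by
      have h3 : ∑ j ∈ R, ∑ l ∈ R, a l ^ 2 * M j l = ∑ j ∈ R, ∑ l ∈ R, a j ^ 2 * M j l := by
        rw [Finset.sum_comm]
        apply Finset.sum_congr rfl
        intro j _
        apply Finset.sum_congr rfl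
        intro l _
        rw [hMsymm]
      calc 2 * ∑ j ∈ R, ∑ l ∈ R, a j * a l * M j l
          = ∑ j ∈ R, ∑ l ∈ R, 2 * (a j * a l) * M j l := by
            rw [Finset.mul_sum]
            apply Finset.sum_congr rfl
            intro j _
            rw [Finset.mul_sum]
            apply Finset.sum_congr rfl
            intro l _
            ring
        _ ≤ ∑ j ∈ R, ∑ l ∈ R, (a j ^ 2 + a l ^ 2) * M j l := by
            apply Finset.sum_le_sum
            intro j _
            apply Finset.sum_le_sum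
            intro l _
            gcongr
            exact two_mul_le_sq_add_sq (a j) (a l)
        _ = 2 * ∑ j ∈ R, ∑ l ∈ R, a j ^ 2 * M j l := by
            simp_rw [add_mul, Finset.sum_add_distrib]
            rw [h3, two_mul]
    have h4 := (ENNReal.mul_le_mul_iff_right (a := 2) (by norm_num) (by norm_num)).1 h2
    refine h4.trans ?_
    calc ∑ j ∈ R, ∑ l ∈ R, a j ^ 2 * M j l = ∑ j ∈ R, a j ^ 2 * ∑ l ∈ R, M j l := by
          simp_rw [Finset.mul_sum]
      _ ≤ ∑ j ∈ R, a j ^ 2 * (μ (D j) * Λ) := by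
          apply Finset.sum_le_sum
          intro j _
          gcongr
          exact hMrow j
      _ = Λ * Q := by
          rw [hQs, Finset.mul_sum]
          apply Finset.sum_congr rfl
          intro j _
          ring
  -- Cauchy-Schwarz
  have hCS : Q ^ 2 ≤ (∫⁻ x, g x ^ 2 ∂lam) * ∫⁻ x, G x ^ 2 ∂lam := by
    have h1 := ENNReal.lintegral_mul_le_Lp_mul_Lq lam Real.HolderConjugate.two_two
      hg.aemeasurable hGm.aemeasurable
    have h2 : Q ≤ (∫⁻ x, g x ^ (2:ℝ) ∂lam) ^ (1 / 2 : ℝ) * (∫⁻ x, G x ^ (2:ℝ) ∂lam) ^ (1 / 2 : ℝ) := by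
      rw [hQG]; exact h1
    simp only [ENNReal.rpow_two] at h2
    calc Q ^ 2 ≤ ((∫⁻ x, g x ^ 2 ∂lam) ^ (1 / 2 : ℝ) * (∫⁻ x, G x ^ 2 ∂lam) ^ (1 / 2 : ℝ)) ^ 2 := by
          gcongr
      _ = _ := by
          rw [mul_pow, ← ENNReal.rpow_two, ← ENNReal.rpow_two, ← ENNReal.rpow_mul,
            ← ENNReal.rpow_mul]
          norm_num
  have hfin : Q ^ 2 ≤ (Λ * ∫⁻ x, g x ^ 2 ∂lam) * Q := by
    calc Q ^ 2 ≤ (∫⁻ x, g x ^ 2 ∂lam) * ∫⁻ x, G x ^ 2 ∂lam := hCS
      _ ≤ (∫⁻ x, g x ^ 2 ∂lam) * (Λ * Q) := by gcongr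
      _ = _ := by ring
  by_cases hQ0 : Q = 0
  · rw [hQ0]; exact zero_le
  · rw [sq] at hfin
    exact (ENNReal.mul_le_mul_iff_left hQ0 hQfin).1 hfin

/-- **The weighted covering inequality** for the maximal function of a sequence of sets. -/
theorem abstract_ineq {X : Type*} [MeasurableSpace X] (lam μ : Measure X) [IsFiniteMeasure μ]
    (P : ℕ → Set X) (hP : ∀ j, MeasurableSet (P j)) (hP0 : ∀ j, lam (P j) ≠ 0)
    (hPt : ∀ j, lam (P j) ≠ ∞) (w : ℕ → X → ℝ≥0∞) (hwm : ∀ j, Measurable (w j)) (Λ : ℝ≥0∞)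
    (hw : ∀ j l, ∀ x ∈ P l, lam (P j ∩ P l) * (lam (P j))⁻¹ * (lam (P l))⁻¹ ≤ w j x)
    (hΛ : ∀ j, ∫⁻ x, w j x ∂μ ≤ Λ) (g : X → ℝ≥0∞) (hg : Measurable g)
    (hg2 : ∫⁻ x, g x ^ 2 ∂lam ≠ ∞) :
    ∫⁻ x, (⨆ j, (P j).indicator (fun _ => (lam (P j))⁻¹ * ∫⁻ y in P j, g y ∂lam) x) ^ 2 ∂μ ≤
      Λ * ∫⁻ x, g x ^ 2 ∂lam := by
  classical
  set F : ℕ → X → ℝ≥0∞ := fun j =>
    (P j).indicator (fun _ => (lam (P j))⁻¹ * ∫⁻ y in P j, g y ∂lam) with hF
  have hFm : ∀ j, Measurable (F j) := fun j => measurable_const.indicator (hP j)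
  have h1 : ∀ x, (⨆ j, F j x) ^ 2 = ⨆ J, (partialSups (fun j => F j x) J) ^ 2 := by
    intro x
    rw [← ENNReal.iSup_pow, iSup_partialSups_eq]
  change ∫⁻ x, (⨆ j, F j x) ^ 2 ∂μ ≤ _
  simp_rw [h1]
  rw [lintegral_iSup]
  · apply iSup_le
    intro J
    obtain ⟨idx, hm, hJ, hmax⟩ := argmax F hFm J
    refine le_trans (lintegral_mono ?_) (finite_ineq lam μ P hP hP0 hPt w hwm Λ hw hΛ g hg hg2 J
      idx hm hJ)
    intro x
    dsimp only
    gcongr
    apply partialSups_le
    intro j hj
    exact hmax x j hj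
  · intro J
    have : Measurable (fun x => partialSups (fun j => F j x) J) := by
      induction J with
      | zero => simpa using hFm 0
      | succ J ih =>
        simp only [partialSups_add_one]
        exact ih.sup (hFm _)
    exact this.pow_const 2
  · intro J J' hJ x
    dsimp only
    gcongr

end Pool.Agent.H737.KP
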