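import Pool.Agent.H737.KP.Plate
import Pool.Agent.H737.KP.Weight

set_option autoImplicit false

/-!
The maximal function of the averages over the `k`-plates of thickness at least `δ` and of radius
between `a` and `1`: semicontinuity, and the inequality in `L^2` of a measure which is not
concentrated near hyperplanes.
-/

open MeasureTheory Set Filter Topology ENNReal NNReal Metric

namespace Pool.Agent.H737.KP

variable {n : ℕ}

/-- The average of `g` over a plate. -/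
noncomputable def pavg (ρ R : ℝ) (g : EuclideanSpace ℝ (Fin n) → ℝ≥0∞)
    (V : Submodule ℝ (EuclideanSpace ℝ (Fin n))) (c : EuclideanSpace ℝ (Fin n)) : ℝ≥0∞ :=
  (volume (disc ρ R V c))⁻¹ * ∫⁻ y in disc ρ R V c, g y

/-- The supremum of the averages of `g` over the `k`-plates of thickness at least `δ` and radius
between `a` and `1` (and at least the thickness) which contain `x`. -/
noncomputable def pmax (k : ℕ) (δ a : ℝ) (g : EuclideanSpace ℝ (Fin n) → ℝ≥0∞)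
    (x : EuclideanSpace ℝ (Fin n)) : ℝ≥0∞ :=
  ⨆ (V : Submodule ℝ (EuclideanSpace ℝ (Fin n))) (_ : Module.finrank ℝ V = k)
    (ρ : ℝ) (R : ℝ) (_ : δ ≤ ρ) (_ : ρ ≤ R) (_ : a ≤ R) (_ : R ≤ 1)
    (c : EuclideanSpace ℝ (Fin n)) (_ : x ∈ disc ρ R V c), pavg ρ R g V c

theorem pmax_le {k : ℕ} {δ a : ℝ} {g : EuclideanSpace ℝ (Fin n) → ℝ≥0∞}
    {x : EuclideanSpace ℝ (Fin n)} {y : ℝ≥0∞}
    (h : ∀ V : Submodule ℝ (EuclideanSpace ℝ (Fin n)), Module.finrank ℝ V = k → ∀ ρ R, δ ≤ ρ →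
      ρ ≤ R → a ≤ R → R ≤ 1 → ∀ c, x ∈ disc ρ R V c → pavg ρ R g V c ≤ y) :
    pmax k δ a g x ≤ y := by
  apply iSup_le; intro V
  apply iSup_le; intro hV
  apply iSup_le; intro ρ
  apply iSup_le; intro R
  apply iSup_le; intro h1
  apply iSup_le; intro h2
  apply iSup_le; intro h3
  apply iSup_le; intro h4
  apply iSup_le; intro c
  apply iSup_le; intro hx
  exact h V hV ρ R h1 h2 h3 h4 c hx

theorem le_pmax {k : ℕ} {δ a : ℝ} {g : EuclideanSpace ℝ (Fin n) → ℝ≥0∞}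
    {x : EuclideanSpace ℝ (Fin n)} (V : Submodule ℝ (EuclideanSpace ℝ (Fin n)))
    (hV : Module.finrank ℝ V = k) {ρ R : ℝ} (h1 : δ ≤ ρ) (h2 : ρ ≤ R) (h3 : a ≤ R) (h4 : R ≤ 1)
    {c : EuclideanSpace ℝ (Fin n)}
    (hx : x ∈ disc ρ R V c) : pavg ρ R g V c ≤ pmax k δ a g x :=
  le_iSup_of_le V (le_iSup_of_le hV (le_iSup_of_le ρ (le_iSup_of_le R (le_iSup_of_le h1
    (le_iSup_of_le h2 (le_iSup_of_le h3 (le_iSup_of_le h4
    (le_iSup_of_le c (le_iSup_of_le hx le_rfl)))))))))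

theorem exists_submodule {k : ℕ} (hk : k ≤ n) :
    ∃ V : Submodule ℝ (EuclideanSpace ℝ (Fin n)), Module.finrank ℝ V = k := by
  set v : Fin k → EuclideanSpace ℝ (Fin n) := fun i =>
    EuclideanSpace.basisFun (Fin n) ℝ (Fin.castLE hk i) with hv
  have hli : LinearIndependent ℝ v := by
    have h1 := (EuclideanSpace.basisFun (Fin n) ℝ).orthonormal.linearIndependent
    exact h1.comp _ (Fin.castLE_injective hk)
  refine ⟨Submodule.span ℝ (range v), ?_⟩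
  rw [finrank_span_eq_card hli]
  simp

/-- The parameters of the plates. -/
abbrev Par (n k : ℕ) (δ a : ℝ) : Type :=
  {q : Submodule ℝ (EuclideanSpace ℝ (Fin n)) × EuclideanSpace ℝ (Fin n) × ℝ × ℝ //
    Module.finrank ℝ q.1 = k ∧ δ ≤ q.2.2.1 ∧ q.2.2.1 ≤ q.2.2.2 ∧ a ≤ q.2.2.2 ∧ q.2.2.2 ≤ 1}

theorem exists_seq {k : ℕ} (hk : k ≤ n) {δ a : ℝ} (hδ1 : δ ≤ 1) (ha1 : a ≤ 1)
    (g : EuclideanSpace ℝ (Fin n) → ℝ≥0∞) :
    ∃ (V : ℕ → Submodule ℝ (EuclideanSpace ℝ (Fin n))) (c : ℕ → EuclideanSpace ℝ (Fin n))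
      (ρ R : ℕ → ℝ), (∀ j, Module.finrank ℝ (V j) = k) ∧ (∀ j, δ ≤ ρ j) ∧ (∀ j, ρ j ≤ R j) ∧
      (∀ j, a ≤ R j) ∧ (∀ j, R j ≤ 1) ∧
      ∀ x, pmax k δ a g x =
        ⨆ j, (disc (ρ j) (R j) (V j) (c j)).indicator
          (fun _ => pavg (ρ j) (R j) g (V j) (c j)) x := by
  classical
  obtain ⟨V0, hV0⟩ := exists_submodule hk
  set q0 : Par n k δ a := ⟨(V0, 0, 1, 1), hV0, hδ1, le_rfl, ha1, le_rfl⟩ with hq0
  set A : Par n k δ a → ℝ≥0∞ := fun q => pavg q.1.2.2.1 q.1.2.2.2 g q.1.1 q.1.2.1 with hA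
  set P : Par n k δ a → Set (EuclideanSpace ℝ (Fin n)) :=
    fun q => disc q.1.2.2.1 q.1.2.2.2 q.1.1 q.1.2.1 with hP
  obtain ⟨D, hDc, hDd⟩ := TopologicalSpace.exists_countable_dense ℝ≥0∞
  have h1 : ∀ t : ℝ≥0∞, ∃ T : Set {q : Par n k δ a // t < A q}, T.Countable ∧
      ⋃ q ∈ T, P q.1 = ⋃ q : {q : Par n k δ a // t < A q}, P q.1 := by
    intro t
    exact TopologicalSpace.isOpen_iUnion_countable _ (fun q => isOpen_disc _ _ _ _)
  choose T hTc hTU using h1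
  set S : Set (Par n k δ a) := insert q0 (⋃ t ∈ D, Subtype.val '' (T t)) with hS
  have hSc : S.Countable := by
    apply Countable.insert
    exact hDc.biUnion fun t _ => (hTc t).image _
  obtain ⟨f, hf⟩ := hSc.exists_eq_range ⟨q0, mem_insert _ _⟩
  refine ⟨fun j => (f j).1.1, fun j => (f j).1.2.1, fun j => (f j).1.2.2.1,
    fun j => (f j).1.2.2.2, fun j => (f j).2.1,
    fun j => (f j).2.2.1, fun j => (f j).2.2.2.1, fun j => (f j).2.2.2.2.1,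
    fun j => (f j).2.2.2.2.2, ?_⟩
  intro x
  change pmax k δ a g x = ⨆ j, (P (f j)).indicator (fun _ => A (f j)) x
  apply le_antisymm
  · apply pmax_le
    intro V hV ρ R hρ hρR haR hR1 c hx
    apply le_of_forall_lt
    intro y hy
    obtain ⟨t, htD, ht1, ht2⟩ := hDd.exists_between hy
    have hmem : x ∈ ⋃ q : {q : Par n k δ a // t < A q}, P q.1 := by
      rw [mem_iUnion]
      exact ⟨⟨⟨(V, c, ρ, R), hV, hρ, hρR, haR, hR1⟩, ht2⟩, hx⟩
    rw [← hTU t] at hmem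
    simp only [mem_iUnion] at hmem
    obtain ⟨q, hqT, hxq⟩ := hmem
    have hqS : q.1 ∈ S := by
      apply mem_insert_of_mem
      simp only [mem_iUnion]
      exact ⟨t, htD, q, hqT, rfl⟩
    rw [hf] at hqS
    obtain ⟨j, hj⟩ := hqS
    refine lt_of_lt_of_le (ht1.trans q.2) ?_
    refine le_trans ?_ (le_iSup _ j)
    rw [hj, indicator_of_mem hxq]
  · apply iSup_le
    intro j
    by_cases hx : x ∈ P (f j)
    · rw [indicator_of_mem hx]
      exact le_pmax _ (f j).2.1 (f j).2.2.1 (f j).2.2.2.1 (f j).2.2.2.2.1 (f j).2.2.2.2.2 hx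
    · rw [indicator_of_notMem hx]; exact zero_le

theorem lowerSemicontinuous_pmax {k : ℕ} (hk : k ≤ n) {δ a : ℝ} (hδ1 : δ ≤ 1) (ha1 : a ≤ 1)
    (g : EuclideanSpace ℝ (Fin n) → ℝ≥0∞) : LowerSemicontinuous (pmax k δ a g) := by
  obtain ⟨V, c, ρ, R, -, -, -, -, -, h⟩ := exists_seq hk hδ1 ha1 g
  have : pmax k δ a g = fun x => ⨆ j, (disc (ρ j) (R j) (V j) (c j)).indicator
      (fun _ => pavg (ρ j) (R j) g (V j) (c j)) x := funext h
  rw [this]
  apply lowerSemicontinuous_iSup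
  intro j
  exact (isOpen_disc _ _ _ _).lowerSemicontinuous_indicator (zero_le)

/-- The constant. -/
noncomputable def cst (n : ℕ) : ℝ := 56 * 2 ^ n / ((2 / n) ^ n) ^ 2

theorem cst_pos (hn : 1 ≤ n) : 0 < cst n := by
  have : (0:ℝ) < n := by exact_mod_cast hn
  unfold cst
  positivity

theorem kernel_aux {k m : ℕ} (hm : 1 ≤ m) {δ a r R R' b d c0 : ℝ} (hδ : 0 < δ) (ha : 0 < a)
    (hr : δ ≤ r) (hb : 0 < b) (hR : a ≤ R) (hR' : a ≤ R')
    (hd : 0 ≤ d) (hc0 : 0 < c0) (hn : 1 ≤ n) (hcc : c0 = (2 / (n:ℝ)) ^ n) :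
    56 * 2 ^ n * b ^ m * (r / (r + d)) *
      ((c0 * (R ^ k * r ^ m))⁻¹ * (c0 * (R' ^ k * b ^ m))⁻¹) ≤
      cst n * (δ / δ ^ m) * ((a ^ k)⁻¹) ^ 2 * (1 / (δ + d)) := by
  have hr0 : 0 < r := by linarith
  have hR0 : 0 < R := by linarith
  have hR'0 : 0 < R' := by linarith
  have h1 : 56 * 2 ^ n * b ^ m * (r / (r + d)) *
      ((c0 * (R ^ k * r ^ m))⁻¹ * (c0 * (R' ^ k * b ^ m))⁻¹) =
      cst n * (r / r ^ m) * ((R ^ k)⁻¹ * (R' ^ k)⁻¹) * (1 / (r + d)) := by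
    unfold cst
    rw [← hcc]
    have : b ^ m ≠ 0 := by positivity
    field_simp
  rw [h1]
  have hcp := cst_pos hn
  have h2 : r / r ^ m ≤ δ / δ ^ m := by
    obtain ⟨m', rfl⟩ : ∃ m', m = m' + 1 := ⟨m - 1, by omega⟩
    have e1 : r / r ^ (m' + 1) = 1 / r ^ m' := by
      rw [pow_succ]; field_simp
    have e2 : δ / δ ^ (m' + 1) = 1 / δ ^ m' := by
      rw [pow_succ]; field_simp
    rw [e1, e2]
    gcongr
  have h3 : (R ^ k)⁻¹ * (R' ^ k)⁻¹ ≤ ((a ^ k)⁻¹) ^ 2 := by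
    rw [sq]
    gcongr
  gcongr

theorem pmax_ineq {k m : ℕ} (hkm : k + m = n) (hk : 1 ≤ k) (hm : 1 ≤ m) {δ a : ℝ} (hδ : 0 < δ)
    (hδ1 : δ ≤ 1) (ha : 0 < a) (ha1 : a ≤ 1)
    (μ : Measure (EuclideanSpace ℝ (Fin n))) [IsFiniteMeasure μ] (Λ : ℝ≥0∞)
    (hΛ : ∀ c ν : EuclideanSpace ℝ (Fin n), ‖ν‖ = 1 →
      ∫⁻ x, ENNReal.ofReal (1 / (δ + |inner ℝ ν (x - c)|)) ∂μ ≤ Λ)
    (g : EuclideanSpace ℝ (Fin n) → ℝ≥0∞) (hg : Measurable g) (hg2 : ∫⁻ x, g x ^ 2 ≠ ∞) :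
    ∫⁻ x, pmax k δ a g x ^ 2 ∂μ ≤
      ENNReal.ofReal (cst n * (δ / δ ^ m) * ((a ^ k)⁻¹) ^ 2) * Λ * ∫⁻ x, g x ^ 2 := by
  obtain ⟨V, c, ρ, R, hV, hρδ, hρR, haR, hR1, hp⟩ := exists_seq (by omega : k ≤ n) hδ1 ha1 g
  simp_rw [hp]
  have hn1 : 1 ≤ n := by omega
  have hn : (0:ℝ) < n := by exact_mod_cast hn1
  have hν : ∀ j, ∃ ν : EuclideanSpace ℝ (Fin n), (∀ v ∈ V j, inner ℝ ν v = (0:ℝ)) ∧ ‖ν‖ = 1 := by
    intro j
    have hpos : 0 < Module.finrank ℝ (V j) := by rw [hV j]; omega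
    have : Nontrivial (V j) := Module.finrank_pos_iff.1 hpos
    obtain ⟨u, hu⟩ := exists_norm_eq (V j) (zero_le_one)
    obtain ⟨b, i₀, hb1, hb2, -⟩ := exists_basis hkm hk (V j) (hV j)
      (u : EuclideanSpace ℝ (Fin n)) u.2 (by simpa using hu)
    exact ⟨b (Sum.inr ⟨0, hm⟩), hb2 _, b.norm_eq_one _⟩
  choose ν hν0 hν1 using hν
  set c0 : ℝ := (2 / n) ^ n with hc0
  have hc0p : 0 < c0 := by positivity
  have hρ0 : ∀ j, 0 < ρ j := fun j => hδ.trans_le (hρδ j)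
  have hR0 : ∀ j, 0 < R j := fun j => ha.trans_le (haR j)
  have hρ1 : ∀ j, ρ j ≤ 1 := fun j => (hρR j).trans (hR1 j)
  have hlow : ∀ j, ENNReal.ofReal (c0 * (R j ^ k * ρ j ^ m)) ≤
      volume (disc (ρ j) (R j) (V j) (c j)) := fun j =>
    le_volume_disc hkm hk hm (hρ0 j) (V j) (hV j) (hρR j) (c j)
  have hlow0 : ∀ j, 0 < ENNReal.ofReal (c0 * (R j ^ k * ρ j ^ m)) := fun j =>
    ENNReal.ofReal_pos.2 (by have := hρ0 j; have := hR0 j; positivity)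
  refine abstract_ineq volume μ (fun j => disc (ρ j) (R j) (V j) (c j))
    (fun j => (isOpen_disc _ _ _ _).measurableSet) (fun j => ((hlow0 j).trans_le (hlow j)).ne')
    (fun j => (volume_disc_lt_top _ _ _ _).ne)
    (fun j x => ENNReal.ofReal (cst n * (δ / δ ^ m) * ((a ^ k)⁻¹) ^ 2) *
      ENNReal.ofReal (1 / (δ + |inner ℝ (ν j) (x - c j)|))) ?_ _ ?_ ?_ g hg hg2
  · intro j
    apply Measurable.const_mul
    apply Measurable.ennreal_ofReal
    fun_prop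
  · intro j l x hx
    have hcp := cst_pos hn1
    set d := |inner ℝ (ν j) (x - c j)| with hd
    have hd0 : 0 ≤ d := abs_nonneg _
    have hinv : ∀ i, (volume (disc (ρ i) (R i) (V i) (c i)))⁻¹ ≤
        ENNReal.ofReal ((c0 * (R i ^ k * ρ i ^ m))⁻¹) := by
      intro i
      have := hρ0 i
      have := hR0 i
      rw [ENNReal.ofReal_inv_of_pos (by positivity)]
      exact ENNReal.inv_le_inv.2 (hlow i)
    have hj0 := hρ0 j
    have hl0 := hρ0 l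
    have hRj := hR0 j
    have hRl := hR0 l
    have hx' : x ∈ plate (ρ l) (V l) (c l) := disc_subset (hR1 l) _ _ hx
    have hsub : volume (disc (ρ j) (R j) (V j) (c j) ∩ disc (ρ l) (R l) (V l) (c l)) ≤
        volume (plate (ρ l) (V l) (c l) ∩ plate (ρ j) (V j) (c j)) := by
      rw [inter_comm]
      exact measure_mono (inter_subset_inter (disc_subset (hR1 l) _ _) (disc_subset (hR1 j) _ _))
    rw [mul_assoc, ← ENNReal.ofReal_mul (by positivity)]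
    have hinv2 : (volume (disc (ρ j) (R j) (V j) (c j)))⁻¹ *
        (volume (disc (ρ l) (R l) (V l) (c l)))⁻¹ ≤
        ENNReal.ofReal ((c0 * (R j ^ k * ρ j ^ m))⁻¹ * (c0 * (R l ^ k * ρ l ^ m))⁻¹) := by
      rw [ENNReal.ofReal_mul (by positivity)]
      exact mul_le_mul' (hinv j) (hinv l)
    rcases le_total (ρ l) (ρ j) with hle | hle
    · have h1 := volume_inter_thin hkm hk hl0 hle (hρ1 j) (V l) (V j) (hV l) (c l) (c j)
        (ν j) (hν0 j) (hν1 j) hx'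
      refine (mul_le_mul' (hsub.trans h1) hinv2).trans ?_
      rw [← ENNReal.ofReal_mul (by positivity)]
      apply ENNReal.ofReal_le_ofReal
      exact kernel_aux hm hδ ha (hρδ j) hl0 (haR j) (haR l) hd0 hc0p hn1 hc0
    · have h1 := volume_inter_thick hkm hk hj0 hle (hρ1 l) (V l) (V j) (hV l) (hV j) (c l) (c j)
        (ν j) (hν0 j) (hν1 j) hx'
      refine (mul_le_mul' (hsub.trans h1) hinv2).trans ?_
      rw [← ENNReal.ofReal_mul (by positivity), mul_comm (c0 * (R j ^ k * ρ j ^ m))⁻¹]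
      apply ENNReal.ofReal_le_ofReal
      exact kernel_aux hm hδ ha (hρδ l) hj0 (haR l) (haR j) hd0 hc0p hn1 hc0
  · intro j
    rw [lintegral_const_mul _ (by apply Measurable.ennreal_ofReal; fun_prop)]
    gcongr
    exact hΛ (c j) (ν j) (hν1 j)

end Pool.Agent.H737.KP
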