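import Pool.Agent.H737.KP.Sets

set_option autoImplicit false

/-!
From indicator functions to all functions: the estimate at an exponent `p > 1`.
-/

open MeasureTheory Set Filter Topology ENNReal NNReal Metric

namespace Pool.Agent.H737.KP

variable {n : ℕ}

theorem sum_rpow_le (J : ℕ) (x : ℝ≥0∞) (y : ℕ → ℝ≥0∞) {p : ℝ} (hp : 0 ≤ p) :
    (x + ∑ j ∈ Finset.range J, y j) ^ p ≤
      ((J:ℝ≥0∞) + 1) ^ p * (x ^ p + ∑ j ∈ Finset.range J, y j ^ p) := by
  set z : ℕ → ℝ≥0∞ := fun i => Nat.casesOn i x y with hz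
  have h1 : ∑ i ∈ Finset.range (J + 1), z i = x + ∑ j ∈ Finset.range J, y j := by
    rw [Finset.sum_range_succ', add_comm]
    rfl
  have h2 : ∑ i ∈ Finset.range (J + 1), z i ^ p = x ^ p + ∑ j ∈ Finset.range J, y j ^ p := by
    rw [Finset.sum_range_succ', add_comm]
    rfl
  rw [← h1, ← h2]
  obtain ⟨i, hi, hmax⟩ := Finset.exists_max_image (Finset.range (J + 1)) z ⟨0, by simp⟩
  calc (∑ i ∈ Finset.range (J + 1), z i) ^ p ≤ (∑ _i ∈ Finset.range (J + 1), z i) ^ p := by
        gcongr with j hj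
        exact hmax j hj
    _ = ((J:ℝ≥0∞) + 1) ^ p * z i ^ p := by
        rw [Finset.sum_const, Finset.card_range, nsmul_eq_mul, ENNReal.mul_rpow_of_nonneg _ _ hp]
        push_cast
        rfl
    _ ≤ ((J:ℝ≥0∞) + 1) ^ p * ∑ i ∈ Finset.range (J + 1), z i ^ p := by
        gcongr
        exact Finset.single_le_sum (f := fun i => z i ^ p) (fun _ _ => zero_le) hi

/-- The pointwise bound by dyadic levels. -/
theorem levels_p {p : ℝ} (hp : 1 < p) {s : ℝ} (hs : 0 < s) (J : ℕ)
    (f : EuclideanSpace ℝ (Fin n) → ℝ) (y : EuclideanSpace ℝ (Fin n)) :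
    ‖f y‖ₑ ≤ ENNReal.ofReal s + (∑ j ∈ Finset.range J, ENNReal.ofReal (2 ^ j * s) *
      ‖({y | 2 ^ j * s < |f y|} : Set (EuclideanSpace ℝ (Fin n))).indicator
        (1 : EuclideanSpace ℝ (Fin n) → ℝ) y‖ₑ) +
      ENNReal.ofReal (1 / (2 ^ J * s) ^ (p - 1)) * ‖f y‖ₑ ^ p := by
  set x := |f y| with hx
  have hx0 : 0 ≤ x := abs_nonneg _
  have hM : 0 < 2 ^ J * s := by positivity
  have h1 : x ≤ min x (2 ^ J * s) + 1 / (2 ^ J * s) ^ (p - 1) * x ^ p := by
    by_cases h : x ≤ 2 ^ J * s
    · rw [min_eq_left h]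
      have : 0 ≤ 1 / (2 ^ J * s) ^ (p - 1) * x ^ p := by positivity
      linarith
    · push Not at h
      have hxp : 0 < x := hM.trans h
      have h2 : (2 ^ J * s) ^ (p - 1) ≤ x ^ (p - 1) :=
        Real.rpow_le_rpow hM.le h.le (by linarith)
      have h3 : x ≤ 1 / (2 ^ J * s) ^ (p - 1) * x ^ p := by
        rw [one_div, inv_mul_eq_div, le_div_iff₀ (by positivity)]
        have e : x ^ p = x * x ^ (p - 1) := by
          rw [Real.rpow_sub_one hxp.ne']
          field_simp
        rw [e]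
        gcongr
      have : 0 ≤ min x (2 ^ J * s) := le_min hx0 hM.le
      linarith
  have h4 := dyadic (s := s) (x := x) J
  rw [enorm_eq]
  have h5 : x ≤ s + (∑ j ∈ Finset.range J, (if 2 ^ j * s < x then 2 ^ j * s else 0)) +
      1 / (2 ^ J * s) ^ (p - 1) * x ^ p := by linarith
  refine (ENNReal.ofReal_le_ofReal h5).trans ?_
  have hsum0 : ∀ j ∈ Finset.range J, 0 ≤ (if 2 ^ j * s < x then 2 ^ j * s else (0:ℝ)) := by
    intro j _
    split_ifs <;> positivity
  rw [ENNReal.ofReal_add (add_nonneg hs.le (Finset.sum_nonneg hsum0)) (by positivity),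
    ENNReal.ofReal_add hs.le (Finset.sum_nonneg hsum0), ENNReal.ofReal_sum_of_nonneg hsum0]
  gcongr with j hj
  · by_cases h : 2 ^ j * s < x
    · rw [if_pos h, indicator_of_mem (show y ∈ {y | 2 ^ j * s < |f y|} from h)]
      simp
    · rw [if_neg h]
      simp
  · rw [ENNReal.ofReal_mul (by positivity), ENNReal.ofReal_rpow_of_nonneg hx0 (by linarith)]

/-- From sets to functions, `p > 1`. -/
theorem sets_to_fun_p {m : ℕ} (hm : n = m + 1) {p : ℝ} (hp : 1 < p) :
    ∃ C : ℝ, 0 < C ∧ ∀ δ : ℝ, 0 < δ → δ < 1 → ∀ B : ℝ, 0 ≤ B →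
    (∀ A : Set (EuclideanSpace ℝ (Fin n)), MeasurableSet A →
      ∫⁻ e : sphere (0 : EuclideanSpace ℝ (Fin n)) 1,
        kakeyaMax δ (A.indicator 1) (e : EuclideanSpace ℝ (Fin n)) ^ p ∂(surf n) ≤
        ENNReal.ofReal B * volume A) →
    ∀ f : EuclideanSpace ℝ (Fin n) → ℝ, AEMeasurable f →
    ∫⁻ e : sphere (0 : EuclideanSpace ℝ (Fin n)) 1,
      kakeyaMax δ f (e : EuclideanSpace ℝ (Fin n)) ^ p ∂(surf n) ≤
      ENNReal.ofReal (C * (1 + Real.log (1 / δ)) ^ (⌈p⌉₊ + 1) * (1 + B)) * ∫⁻ x, ‖f x‖ₑ ^ p := by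
  have hn1 : 1 ≤ n := by omega
  have hn0 : n ≠ 0 := by omega
  have hnR : (0:ℝ) < n := by exact_mod_cast hn1
  have hp0 : 0 < p := by linarith
  have hp1 : 0 < p - 1 := by linarith
  set σ := surf n with hσ
  have hσfin : σ univ ≠ ∞ := by
    rw [hσ]; unfold surf
    exact measure_ne_top _ _
  have hσpos : 0 < (σ univ).toReal := by
    apply ENNReal.toReal_pos _ hσfin
    rw [hσ]; unfold surf
    rw [Measure.toSphere_apply_univ]
    apply mul_ne_zero
    · simp [hn0]
    · exact (measure_ball_pos volume _ one_pos).ne'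
  set c := (2 / (n:ℝ)) ^ m with hc
  have hc0 : 0 < c := by positivity
  set D := (1 + 1 / c) ^ p * (σ univ).toReal with hD
  have hD0 : 0 < D := by positivity
  set w : ℝ := m / (p - 1) with hw
  have hw0 : 0 ≤ w := by positivity
  set E : ℝ := 2 * (1 + w) with hE
  have hE0 : 0 < E := by positivity
  refine ⟨E ^ p * (D + E), by positivity, ?_⟩
  intro δ hδ hδ1 B hB hA f hf
  set L := Real.log (1 / δ) with hL
  have hδinv : 1 ≤ 1 / δ := by rw [le_div_iff₀ hδ]; linarith
  have hL0 : 0 ≤ L := Real.log_nonneg hδinv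
  -- reduce to a measurable function
  have hred : ∀ e : sphere (0 : EuclideanSpace ℝ (Fin n)) 1,
      kakeyaMax δ f (e : EuclideanSpace ℝ (Fin n)) = kakeyaMax δ (hf.mk f) e :=
    fun e => kakeya_congr hf.ae_eq_mk _
  have hred2 : ∫⁻ x, ‖f x‖ₑ ^ p = ∫⁻ x, ‖hf.mk f x‖ₑ ^ p := by
    apply lintegral_congr_ae
    filter_upwards [hf.ae_eq_mk] with x hx
    rw [hx]
  simp_rw [hred]
  rw [hred2]
  set g := hf.mk f with hg
  have hgm : Measurable g := hf.measurable_mk
  set N := ∫⁻ x, ‖g x‖ₑ ^ p with hN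
  have hCpos : 0 < E ^ p * (D + E) * (1 + L) ^ (⌈p⌉₊ + 1) * (1 + B) := by positivity
  by_cases hNtop : N = ∞
  · rw [hNtop, ENNReal.mul_top (ENNReal.ofReal_pos.2 hCpos).ne']
    exact le_top
  by_cases hN0 : N = 0
  · have h1 : g =ᵐ[volume] 0 := by
      rw [hN, lintegral_eq_zero_iff (hgm.enorm.pow_const p)] at hN0
      filter_upwards [hN0] with x hx
      have : ‖g x‖ₑ ^ p = 0 := hx
      rw [ENNReal.rpow_eq_zero_iff_of_pos hp0] at this
      simpa using this
    have h2 : ∀ e : sphere (0 : EuclideanSpace ℝ (Fin n)) 1,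
        kakeyaMax δ g (e : EuclideanSpace ℝ (Fin n)) ^ p = 0 := by
      intro e
      rw [kakeya_congr h1]
      unfold kakeyaMax
      simp [hp0]
    simp_rw [h2]
    simp
  -- the base level
  set s : ℝ := N.toReal ^ (1 / p) with hs
  have hNpos : 0 < N.toReal := ENNReal.toReal_pos hN0 hNtop
  have hs0 : 0 < s := by positivity
  have hsN : ENNReal.ofReal s ^ p = N := by
    rw [ENNReal.ofReal_rpow_of_pos hs0, hs, ← Real.rpow_mul hNpos.le,
      one_div, inv_mul_cancel₀ hp0.ne', Real.rpow_one, ENNReal.ofReal_toReal hNtop]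
  set J : ℕ := ⌈w * Real.logb 2 (1 / δ)⌉₊ with hJ
  have hlogb0 : 0 ≤ Real.logb 2 (1 / δ) := Real.logb_nonneg (by norm_num) hδinv
  have hJ1 : 1 ≤ ((2:ℝ) ^ J) ^ (p - 1) * δ ^ m := by
    have h1 : w * Real.logb 2 (1 / δ) ≤ J := Nat.le_ceil _
    have h2 : ((1 / δ) ^ m : ℝ) ≤ ((2:ℝ) ^ J) ^ (p - 1) := by
      have e1 : ((1 / δ) ^ m : ℝ) = (2:ℝ) ^ (w * Real.logb 2 (1 / δ) * (p - 1)) := by
        have e2 : w * Real.logb 2 (1 / δ) * (p - 1) = Real.logb 2 (1 / δ) * m := by
          rw [hw]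
          field_simp
        rw [e2, Real.rpow_mul (by norm_num), Real.rpow_logb (by norm_num) (by norm_num)
          (by positivity), Real.rpow_natCast]
      rw [e1, ← Real.rpow_natCast 2 J, ← Real.rpow_mul (by norm_num)]
      apply Real.rpow_le_rpow_of_exponent_le (by norm_num)
      gcongr
    calc (1:ℝ) = (1 / δ) ^ m * δ ^ m := by
          rw [← mul_pow, one_div, inv_mul_cancel₀ hδ.ne', one_pow]
      _ ≤ _ := by gcongr
  have hJ2 : (J:ℝ) + 1 ≤ E * (1 + L) := by
    have h0 : 0 ≤ w * Real.logb 2 (1 / δ) := by positivity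
    have h1 : (J:ℝ) < w * Real.logb 2 (1 / δ) + 1 := Nat.ceil_lt_add_one h0
    have h2 : Real.logb 2 (1 / δ) ≤ 2 * L := by
      rw [Real.logb, ← hL, div_le_iff₀ (Real.log_pos (by norm_num))]
      have h3 : (1:ℝ) / 2 ≤ Real.log 2 := by
        have := Real.log_two_gt_d9
        linarith
      nlinarith
    have h3 : w * Real.logb 2 (1 / δ) ≤ w * (2 * L) := by gcongr
    rw [hE]
    nlinarith
  set A : ℕ → Set (EuclideanSpace ℝ (Fin n)) := fun j => {y | 2 ^ j * s < |g y|} with hAdef
  have hAm : ∀ j, MeasurableSet (A j) := fun j => measurableSet_lt measurable_const (by fun_prop)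
  -- pointwise bound of the maximal function
  have hpt : ∀ e : sphere (0 : EuclideanSpace ℝ (Fin n)) 1,
      kakeyaMax δ g (e : EuclideanSpace ℝ (Fin n)) ≤ ENNReal.ofReal (s * (1 + 1 / c)) +
        ∑ j ∈ Finset.range J, ENNReal.ofReal (2 ^ j * s) *
          kakeyaMax δ ((A j).indicator 1) (e : EuclideanSpace ℝ (Fin n)) := by
    intro e
    have he : ‖(e : EuclideanSpace ℝ (Fin n))‖ = 1 := by simp
    apply iSup_le
    intro a
    set T := tube δ (e : EuclideanSpace ℝ (Fin n)) a with hT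
    have hT0 : volume T ≠ 0 := volume_tube_ne_zero hδ he
    have hTt : volume T ≠ ∞ := (volume_tube_lt_top he).ne
    have hTl : ENNReal.ofReal (c * δ ^ m) ≤ volume T := le_volume_tube hm hδ _ _ he
    have h1 : ∫⁻ y in T, ‖g y‖ₑ ≤ ENNReal.ofReal s * volume T +
        (∑ j ∈ Finset.range J, ENNReal.ofReal (2 ^ j * s) *
          ∫⁻ y in T, ‖(A j).indicator (1 : EuclideanSpace ℝ (Fin n) → ℝ) y‖ₑ) +
        ENNReal.ofReal (1 / (2 ^ J * s) ^ (p - 1)) * N := by
      have hmj : ∀ j, Measurable (fun y => ‖(A j).indicator (1 : EuclideanSpace ℝ (Fin n) → ℝ) y‖ₑ) :=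
        fun j => (measurable_one.indicator (hAm j)).enorm
      calc ∫⁻ y in T, ‖g y‖ₑ ≤ ∫⁻ y in T, (ENNReal.ofReal s +
            (∑ j ∈ Finset.range J, ENNReal.ofReal (2 ^ j * s) *
              ‖(A j).indicator (1 : EuclideanSpace ℝ (Fin n) → ℝ) y‖ₑ) +
            ENNReal.ofReal (1 / (2 ^ J * s) ^ (p - 1)) * ‖g y‖ₑ ^ p) :=
            lintegral_mono fun y => levels_p hp hs0 J g y
        _ = ENNReal.ofReal s * volume T + (∑ j ∈ Finset.range J, ENNReal.ofReal (2 ^ j * s) *
              ∫⁻ y in T, ‖(A j).indicator (1 : EuclideanSpace ℝ (Fin n) → ℝ) y‖ₑ) +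
            ENNReal.ofReal (1 / (2 ^ J * s) ^ (p - 1)) * ∫⁻ y in T, ‖g y‖ₑ ^ p := by
            rw [lintegral_add_right _ ((hgm.enorm.pow_const _).const_mul _),
              lintegral_add_left measurable_const, setLIntegral_const,
              lintegral_finsetSum _ (fun j _ => (hmj j).const_mul _),
              lintegral_const_mul _ (hgm.enorm.pow_const _)]
            congr 3
            ext j
            rw [lintegral_const_mul _ (hmj j)]
        _ ≤ _ := by
            gcongr
            rw [hN]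
            exact setLIntegral_le_lintegral _ _
    calc (volume T)⁻¹ * ∫⁻ y in T, ‖g y‖ₑ ≤ (volume T)⁻¹ * (ENNReal.ofReal s * volume T +
          (∑ j ∈ Finset.range J, ENNReal.ofReal (2 ^ j * s) *
            ∫⁻ y in T, ‖(A j).indicator (1 : EuclideanSpace ℝ (Fin n) → ℝ) y‖ₑ) +
          ENNReal.ofReal (1 / (2 ^ J * s) ^ (p - 1)) * N) := by gcongr
      _ = ENNReal.ofReal s + (∑ j ∈ Finset.range J, ENNReal.ofReal (2 ^ j * s) *
          ((volume T)⁻¹ * ∫⁻ y in T, ‖(A j).indicator (1 : EuclideanSpace ℝ (Fin n) → ℝ) y‖ₑ)) +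
          (volume T)⁻¹ * (ENNReal.ofReal (1 / (2 ^ J * s) ^ (p - 1)) * N) := by
          rw [mul_add, mul_add, mul_comm (ENNReal.ofReal s), ← mul_assoc,
            ENNReal.inv_mul_cancel hT0 hTt, one_mul, Finset.mul_sum]
          congr 2
          apply Finset.sum_congr rfl
          intro j _
          ring
      _ ≤ ENNReal.ofReal s + (∑ j ∈ Finset.range J, ENNReal.ofReal (2 ^ j * s) *
          kakeyaMax δ ((A j).indicator 1) (e : EuclideanSpace ℝ (Fin n))) +
          ENNReal.ofReal (s / c) := by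
          gcongr with j hj
          · exact le_iSup (fun a => (volume (tube δ (e : EuclideanSpace ℝ (Fin n)) a))⁻¹ *
              ∫⁻ y in tube δ (e : EuclideanSpace ℝ (Fin n)) a,
                ‖(A j).indicator (1 : EuclideanSpace ℝ (Fin n) → ℝ) y‖ₑ) a
          · rw [← hsN]
            calc (volume T)⁻¹ * (ENNReal.ofReal (1 / (2 ^ J * s) ^ (p - 1)) * ENNReal.ofReal s ^ p)
                ≤ ENNReal.ofReal ((c * δ ^ m)⁻¹) *
                  (ENNReal.ofReal (1 / (2 ^ J * s) ^ (p - 1)) * ENNReal.ofReal s ^ p) := by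
                  gcongr
                  rw [ENNReal.ofReal_inv_of_pos (by positivity)]
                  exact ENNReal.inv_le_inv.2 hTl
              _ = ENNReal.ofReal ((c * δ ^ m)⁻¹ * (1 / (2 ^ J * s) ^ (p - 1) * s ^ p)) := by
                  rw [ENNReal.ofReal_rpow_of_pos hs0, ← ENNReal.ofReal_mul (by positivity),
                    ← ENNReal.ofReal_mul (by positivity)]
              _ ≤ ENNReal.ofReal (s / c) := by
                  apply ENNReal.ofReal_le_ofReal
                  rw [Real.mul_rpow (by positivity) hs0.le]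
                  have e0 : s ^ p = s * s ^ (p - 1) := by
                    rw [Real.rpow_sub_one hs0.ne']
                    field_simp
                  have hsp : 0 < s ^ (p - 1) := by positivity
                  have h2p : 0 < ((2:ℝ) ^ J) ^ (p - 1) := by positivity
                  have e1 : (c * δ ^ m)⁻¹ * (1 / (((2:ℝ) ^ J) ^ (p - 1) * s ^ (p - 1)) * s ^ p) =
                      s / c / (((2:ℝ) ^ J) ^ (p - 1) * δ ^ m) := by
                    rw [e0]
                    field_simp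
                  rw [e1]
                  exact div_le_self (by positivity) hJ1
      _ = ENNReal.ofReal (s * (1 + 1 / c)) + (∑ j ∈ Finset.range J, ENNReal.ofReal (2 ^ j * s) *
          kakeyaMax δ ((A j).indicator 1) (e : EuclideanSpace ℝ (Fin n))) := by
          rw [add_right_comm, ← ENNReal.ofReal_add hs0.le (by positivity)]
          congr 2
          ring
  -- integrate
  have hKm : ∀ j, Measurable (fun e : sphere (0 : EuclideanSpace ℝ (Fin n)) 1 =>
      kakeyaMax δ ((A j).indicator 1) (e : EuclideanSpace ℝ (Fin n))) := by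
    intro j
    exact (measurable_kakeya hδ (measurable_one.indicator (hAm j)).aemeasurable).comp
      measurable_subtype_coe
  have hlev : ∀ j, ENNReal.ofReal (2 ^ j * s) ^ p * volume (A j) ≤ N := by
    intro j
    have h1 := mul_meas_ge_le_lintegral₀ (μ := (volume : Measure (EuclideanSpace ℝ (Fin n))))
      (hgm.enorm.pow_const p).aemeasurable (ENNReal.ofReal (2 ^ j * s) ^ p)
    refine le_trans ?_ h1
    gcongr
    intro y hy
    have hy' : 2 ^ j * s < |g y| := hy
    rw [mem_ofPred_eq, enorm_eq]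
    gcongr
  calc ∫⁻ e : sphere (0 : EuclideanSpace ℝ (Fin n)) 1,
        kakeyaMax δ g (e : EuclideanSpace ℝ (Fin n)) ^ p ∂σ
      ≤ ∫⁻ e : sphere (0 : EuclideanSpace ℝ (Fin n)) 1, (((J:ℝ≥0∞) + 1) ^ p *
          (ENNReal.ofReal (s * (1 + 1 / c)) ^ p + ∑ j ∈ Finset.range J,
          (ENNReal.ofReal (2 ^ j * s) *
          kakeyaMax δ ((A j).indicator 1) (e : EuclideanSpace ℝ (Fin n))) ^ p)) ∂σ := by
        apply lintegral_mono
        intro e
        dsimp only
        refine le_trans ?_ (sum_rpow_le J _ _ hp0.le)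
        gcongr
        exact hpt e
    _ = ((J:ℝ≥0∞) + 1) ^ p * (ENNReal.ofReal (s * (1 + 1 / c)) ^ p * σ univ +
          ∑ j ∈ Finset.range J,
          ENNReal.ofReal (2 ^ j * s) ^ p * ∫⁻ e : sphere (0 : EuclideanSpace ℝ (Fin n)) 1,
          kakeyaMax δ ((A j).indicator 1) (e : EuclideanSpace ℝ (Fin n)) ^ p ∂σ) := by
        have hmm : ∀ j, Measurable (fun e : sphere (0 : EuclideanSpace ℝ (Fin n)) 1 =>
            (ENNReal.ofReal (2 ^ j * s) *
            kakeyaMax δ ((A j).indicator 1) (e : EuclideanSpace ℝ (Fin n))) ^ p) :=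
          fun j => ((hKm j).const_mul _).pow_const p
        have hmS : Measurable (fun e : sphere (0 : EuclideanSpace ℝ (Fin n)) 1 =>
            ENNReal.ofReal (s * (1 + 1 / c)) ^ p + ∑ j ∈ Finset.range J,
            (ENNReal.ofReal (2 ^ j * s) *
            kakeyaMax δ ((A j).indicator 1) (e : EuclideanSpace ℝ (Fin n))) ^ p) :=
          measurable_const.add (Finset.measurable_sum _ fun j _ => hmm j)
        rw [lintegral_const_mul _ hmS, lintegral_add_left measurable_const,
          lintegral_const, lintegral_finsetSum _ (fun j _ => hmm j)]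
        congr 2
        apply Finset.sum_congr rfl
        intro j _
        simp_rw [ENNReal.mul_rpow_of_nonneg _ _ hp0.le]
        rw [lintegral_const_mul _ ((hKm j).pow_const p)]
    _ ≤ ((J:ℝ≥0∞) + 1) ^ p * (ENNReal.ofReal ((1 + 1 / c) ^ p) * N * σ univ +
          ∑ _j ∈ Finset.range J, ENNReal.ofReal B * N) := by
        refine mul_le_mul_right (add_le_add ?_ (Finset.sum_le_sum fun j _ => ?_)) _
        · refine le_of_eq ?_
          rw [ENNReal.ofReal_mul hs0.le, ENNReal.mul_rpow_of_nonneg _ _ hp0.le, hsN,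
            ENNReal.ofReal_rpow_of_pos (by positivity), mul_comm N]
        · calc ENNReal.ofReal (2 ^ j * s) ^ p * ∫⁻ e : sphere (0 : EuclideanSpace ℝ (Fin n)) 1,
                kakeyaMax δ ((A j).indicator 1) (e : EuclideanSpace ℝ (Fin n)) ^ p ∂σ
              ≤ ENNReal.ofReal (2 ^ j * s) ^ p * (ENNReal.ofReal B * volume (A j)) := by
                gcongr
                exact hA (A j) (hAm j)
            _ = ENNReal.ofReal B * (ENNReal.ofReal (2 ^ j * s) ^ p * volume (A j)) := by ring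
            _ ≤ ENNReal.ofReal B * N := by gcongr; exact hlev j
    _ = ENNReal.ofReal (((J:ℝ) + 1) ^ p * (D + J * B)) * N := by
        rw [Finset.sum_const, Finset.card_range, nsmul_eq_mul]
        have e1 : ((J:ℝ≥0∞) + 1) ^ p = ENNReal.ofReal (((J:ℝ) + 1) ^ p) := by
          rw [← ENNReal.ofReal_rpow_of_pos (by positivity),
            ENNReal.ofReal_add (by positivity) zero_le_one,
            ENNReal.ofReal_natCast, ENNReal.ofReal_one]
        have e2 : ENNReal.ofReal ((1 + 1 / c) ^ p) * N * σ univ = ENNReal.ofReal D * N := by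
          rw [hD, ENNReal.ofReal_mul (by positivity), ENNReal.ofReal_toReal hσfin]
          ring
        have e3 : (J:ℝ≥0∞) * (ENNReal.ofReal B * N) = ENNReal.ofReal (J * B) * N := by
          rw [ENNReal.ofReal_mul (by positivity), ENNReal.ofReal_natCast]
          ring
        rw [e1, e2, e3, ← add_mul, ← ENNReal.ofReal_add hD0.le (by positivity), ← mul_assoc,
          ← ENNReal.ofReal_mul (by positivity)]
    _ ≤ ENNReal.ofReal (E ^ p * (D + E) * (1 + L) ^ (⌈p⌉₊ + 1) * (1 + B)) * N := by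
        refine mul_le_mul_left (ENNReal.ofReal_le_ofReal ?_) _
        have f1 : ((J:ℝ) + 1) ^ p ≤ E ^ p * (1 + L) ^ ⌈p⌉₊ := by
          calc ((J:ℝ) + 1) ^ p ≤ (E * (1 + L)) ^ p := by gcongr
            _ = E ^ p * (1 + L) ^ p := Real.mul_rpow hE0.le (by positivity)
            _ ≤ E ^ p * (1 + L) ^ ⌈p⌉₊ := by
                gcongr
                rw [← Real.rpow_natCast]
                exact Real.rpow_le_rpow_of_exponent_le (by linarith) (Nat.le_ceil p)
        have f2 : D + J * B ≤ (D + E) * (1 + L) * (1 + B) := by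
          have g1 : (J:ℝ) ≤ E * (1 + L) := by linarith
          have g2 : (J:ℝ) * B ≤ E * (1 + L) * B := by gcongr
          have g3 : 0 ≤ D * L := by positivity
          have g4 : 0 ≤ D * (1 + L) * B := by positivity
          have g5 : 0 ≤ E * (1 + L) := by positivity
          nlinarith
        calc ((J:ℝ) + 1) ^ p * (D + J * B) ≤
            (E ^ p * (1 + L) ^ ⌈p⌉₊) * ((D + E) * (1 + L) * (1 + B)) := by gcongr
          _ = _ := by ring

end Pool.Agent.H737.KP
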